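import Pool.Agent.Lib.MP_81632f_ag.Mk.P.Stmts34

/-! # (A1): a relation containing an element with two conjugates gives a block -/

namespace Pool.Agent.Lib.MP81632f.Mk.P

open NumberField IsDedekindDomain
open scoped Classical

variable {L : Type} [Field L] [NumberField L]

/-- the stabiliser of an element -/
noncomputable def G1_21 (a : L) : Finset (L ≃ₐ[ℚ] L) :=
  Finset.univ.filter (fun g : L ≃ₐ[ℚ] L => g a = a)

theorem mem_G1_21 {a : L} {g : L ≃ₐ[ℚ] L} : g ∈ G1_21 a ↔ g a = a := by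
  unfold G1_21
  rw [Finset.mem_filter]
  exact ⟨fun h => h.2, fun h => ⟨Finset.mem_univ _, h⟩⟩

/-- the orbit under the stabiliser -/
noncomputable def U_21 (a x : L) : Finset L := (G1_21 a).image (fun g => g x)

theorem mem_U_21 {a x b : L} : b ∈ U_21 a x ↔ ∃ g : L ≃ₐ[ℚ] L, g a = a ∧ g x = b := by
  unfold U_21
  rw [Finset.mem_image]
  constructor
  · rintro ⟨g, hg, hb⟩
    exact ⟨g, mem_G1_21.1 hg, hb⟩
  · rintro ⟨g, hg, hb⟩
    exact ⟨g, mem_G1_21.2 hg, hb⟩

theorem inv_apply_21 (g : L ≃ₐ[ℚ] L) (x : L) : g⁻¹ (g x) = x := AlgEquiv.symm_apply_apply g x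

theorem apply_inv_21 (g : L ≃ₐ[ℚ] L) (x : L) : g (g⁻¹ x) = x := AlgEquiv.apply_symm_apply g x

theorem inv_fix_21 {g : L ≃ₐ[ℚ] L} {a : L} (h : g a = a) : g⁻¹ a = a := by
  have h1 := inv_apply_21 g a
  rw [h] at h1
  exact h1

/-- the fibres of the orbit map have equal size -/
theorem fibre_21 {a x b : L} (hb : b ∈ U_21 a x) :
    ((G1_21 a).filter (fun g => g x = b)).card = ((G1_21 a).filter (fun g => g x = x)).card := by
  obtain ⟨k, hk, rfl⟩ := mem_U_21.1 hb
  apply Finset.card_bij' (fun g _ => k⁻¹ * g) (fun g _ => k * g)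
  · intro g hg
    rw [Finset.mem_filter, mem_G1_21] at hg ⊢
    constructor
    · show k⁻¹ (g a) = a
      rw [hg.1]
      exact inv_fix_21 hk
    · show k⁻¹ (g x) = x
      rw [hg.2]
      exact inv_apply_21 k x
  · intro g hg
    rw [Finset.mem_filter, mem_G1_21] at hg ⊢
    constructor
    · show k (g a) = a
      rw [hg.1, hk]
    · show k (g x) = k x
      rw [hg.2]
  · intro g _
    exact mul_inv_cancel_left k g
  · intro g _
    exact inv_mul_cancel_left k g

theorem sum_orbit_21 (a x : L) (f : L → ℤ) :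
    ∑ g ∈ G1_21 a, f (g x) =
      (((G1_21 a).filter (fun g => g x = x)).card : ℤ) * ∑ b ∈ U_21 a x, f b := by
  have h1 := Finset.sum_comp (s := G1_21 a) f (fun g : L ≃ₐ[ℚ] L => g x)
  rw [h1, Finset.mul_sum]
  apply Finset.sum_congr rfl
  intro b hb
  have h2 := fibre_21 (a := a) (x := x) (b := b) hb
  rw [nsmul_eq_mul]
  congr 2

theorem stA1_21 : StA1 := by
  intro L _ _ _ p e r v m t a h hR hat h2
  have ham : a ∈ m := hR.sub a hat
  have hr := h.r_pos
  -- the relation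
  have hXS : ∀ g, XS r v t g = 0 := (bal_iff h.hr h.hp h.hv hR.red.weil).1 hR.bal
  have hXa : ∀ g ∈ G1_21 a, X r v a g = X r v a 1 := by
    intro g hg
    rw [← Ctx.X_one, mem_G1_21.1 hg]
  have hXa1 : X r v a 1 ≠ 0 := two_ne h ham h2
  have hone : (1 : L ≃ₐ[ℚ] L) ∈ G1_21 a := mem_G1_21.2 rfl
  -- an element with a nonzero average
  have key : ∃ x ∈ t, x ≠ a ∧ ∑ g ∈ G1_21 a, X r v x g ≠ 0 := by
    by_contra hno
    push Not at hno
    have e1 : ∑ g ∈ G1_21 a, XS r v t g = 0 := Finset.sum_eq_zero (fun g _ => hXS g)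
    rw [Finset.sum_congr rfl (fun g _ => Ctx.XS_count (r := r) (v := v) hR.sub g),
      Finset.sum_comm] at e1
    rw [Finset.sum_eq_single a] at e1
    · rw [← Finset.mul_sum, Finset.sum_congr rfl hXa, Finset.sum_const, nsmul_eq_mul] at e1
      have c1 : (t.count a : ℤ) ≠ 0 := by
        have := Multiset.count_pos.2 hat
        omega
      have c2 : ((G1_21 a).card : ℤ) ≠ 0 := by
        have := Finset.card_pos.2 ⟨1, hone⟩
        omega
      exact mul_ne_zero c1 (mul_ne_zero c2 hXa1) e1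
    · intro b _ hba
      rw [← Finset.mul_sum]
      by_cases hbt : b ∈ t
      · rw [hno b hbt hba, mul_zero]
      · rw [Multiset.count_eq_zero_of_notMem hbt]
        simp
    · intro h'
      exact absurd (Multiset.mem_toFinset.2 ham) h'
  obtain ⟨x, hxt, hxa, hx⟩ := key
  have hxm : x ∈ m := hR.sub x hxt
  have hxc : x ∉ conjs a := by
    intro hx'
    obtain ⟨g, hg⟩ := Ctx.mem_conjs.1 hx'
    rcases conjs_two h ham h2 g with h3 | h3
    · exact hxa (by rw [← hg, h3])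
    · exact hR.red.bar_notMem hr hat (by rw [← h3, hg]; exact hxt)
  have hS : ∑ b ∈ U_21 a x, X r v b 1 ≠ 0 := by
    intro h0
    apply hx
    have e1 := sum_orbit_21 a x (fun b => X r v b 1)
    rw [h0, mul_zero] at e1
    rw [← e1]
    exact Finset.sum_congr rfl (fun g _ => (Ctx.X_one x g).symm)
  have hmem : ∀ b ∈ U_21 a x, b ∈ m := by
    intro b hb
    obtain ⟨g, _, rfl⟩ := mem_U_21.1 hb
    exact h.hA.mem_map g hxm
  have hfix : ∀ g : L ≃ₐ[ℚ] L, g a = a → ∀ b ∈ U_21 a x, g b ∈ U_21 a x := by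
    intro g hg b hb
    obtain ⟨k, hk, rfl⟩ := mem_U_21.1 hb
    exact mem_U_21.2 ⟨g * k, by show g (k a) = a; rw [hk, hg], rfl⟩
  have htr : ∀ b ∈ U_21 a x, ∀ b' ∈ U_21 a x, ∃ g : L ≃ₐ[ℚ] L, g a = a ∧ g b = b' := by
    intro b hb b' hb'
    obtain ⟨k, hk, rfl⟩ := mem_U_21.1 hb
    obtain ⟨l, hl, rfl⟩ := mem_U_21.1 hb'
    refine ⟨l * k⁻¹, ?_, ?_⟩
    · show l (k⁻¹ a) = a
      rw [inv_fix_21 hk, hl]
    · show l (k⁻¹ (k x)) = l x
      rw [inv_apply_21]
  refine ⟨U_21 a x, ⟨x, mem_U_21.2 ⟨1, rfl, rfl⟩⟩, hmem, ?_, hfix, ?_, ?_, htr, hS⟩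
  · -- not conjugate to a
    intro b hb hb'
    obtain ⟨k, _, rfl⟩ := mem_U_21.1 hb
    obtain ⟨g, hg⟩ := Ctx.mem_conjs.1 hb'
    apply hxc
    refine Ctx.mem_conjs.2 ⟨k⁻¹ * g, ?_⟩
    show k⁻¹ (g a) = x
    rw [hg, inv_apply_21]
  · -- the flips
    intro g hg b hb
    obtain ⟨c, hc⟩ := exists_conj (L := L) hr
    have hga : g a = (r : L) ^ 2 / a := (conjs_two h ham h2 g).resolve_left hg
    have hgb : g b ∈ m := h.hA.mem_map g (hmem b hb)
    have e1 : (c * g) a = a := by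
      show c (g a) = a
      rw [hga, hc _ (h.weil (h.bar_mem ham)), bb hr]
    have e2 := hfix (c * g) e1 b hb
    have e3 : (c * g) b = (r : L) ^ 2 / g b := hc _ (h.weil hgb)
    rw [e3] at e2
    exact e2
  · -- disjointness
    intro b hb hb'
    apply hS
    have hbar : ∀ y ∈ U_21 a x, (r : L) ^ 2 / y ∈ U_21 a x := by
      intro y hy
      obtain ⟨g, hg, rfl⟩ := htr b hb y hy
      rw [← map_bar]
      exact hfix g hg _ hb'
    have e1 : ∑ y ∈ U_21 a x, X r v y 1 = ∑ y ∈ U_21 a x, X r v ((r : L) ^ 2 / y) 1 := by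
      apply Finset.sum_nbij' (fun y => (r : L) ^ 2 / y) (fun y => (r : L) ^ 2 / y)
      · exact hbar
      · exact hbar
      · intro y _
        exact bb hr y
      · intro y _
        exact bb hr y
      · intro y _
        rw [bb hr]
    have e2 : ∑ y ∈ U_21 a x, X r v ((r : L) ^ 2 / y) 1 = -∑ y ∈ U_21 a x, X r v y 1 := by
      rw [← Finset.sum_neg_distrib]
      apply Finset.sum_congr rfl
      intro y hy
      rw [h.Xbar (hmem y hy), Pi.neg_apply]
    omega

end Pool.Agent.Lib.MP81632f.Mk.P
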