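import Pool.Agent.Lib.MP_81632f_ag.Mk.P.Aux34

/-! # (A2): the numerical classification of blocks -/

namespace Pool.Agent.Lib.MP81632f.Mk.P

open NumberField IsDedekindDomain
open scoped Classical

section num

theorem bound_67 {n : ℕ} {Q y j : ℤ} (hQ : 0 < Q) (hy : y = (2 * j - n) * Q)
    (h1 : -((n : ℤ) * Q) ≤ y) (h2 : y ≤ (n : ℤ) * Q) : 0 ≤ j ∧ j ≤ n := by
  constructor
  · by_contra hneg
    have h3 : j ≤ -1 := by omega
    nlinarith
  · by_contra hneg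
    have h3 : (n : ℤ) + 1 ≤ j := by omega
    nlinarith

theorem val_67 {c : ℕ} {Q x j : ℤ} (hQ : 0 < Q) (hc : 1 ≤ c) (hc4 : c ≤ 4)
    (hx : (c : ℤ) * x = (2 * j - c) * Q) (hb : |x| ≤ Q) (hne : x ≠ 0) :
    (x = Q ∨ x = -Q) ∨ (c = 3 ∧ (3 * x = Q ∨ 3 * x = -Q)) ∨ (c = 4 ∧ (2 * x = Q ∨ 2 * x = -Q)) := by
  rw [abs_le] at hb
  have hc0 : (0 : ℤ) ≤ c := by positivity
  obtain ⟨h1, h2⟩ := bound_67 (n := c) hQ hx (by nlinarith [hb.1]) (by nlinarith [hb.2])
  interval_cases c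
  · have : j = 0 ∨ j = 1 := by omega
    rcases this with rfl | rfl <;> push_cast at hx <;> omega
  · have : j = 0 ∨ j = 1 ∨ j = 2 := by omega
    rcases this with rfl | rfl | rfl <;> push_cast at hx <;> omega
  · have : j = 0 ∨ j = 1 ∨ j = 2 ∨ j = 3 := by omega
    rcases this with rfl | rfl | rfl | rfl <;> push_cast at hx <;> omega
  · have : j = 0 ∨ j = 1 ∨ j = 2 ∨ j = 3 ∨ j = 4 := by omega
    rcases this with rfl | rfl | rfl | rfl | rfl <;> push_cast at hx <;> omega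

theorem r11_67 {Q x F : ℤ} (hx : x = Q ∨ x = -Q) (hF : F = Q ∨ F = -Q) (n1 : F ≠ x)
    (n2 : F ≠ -x) : False := by
  rcases hx with rfl | rfl <;> rcases hF with h | h
  · exact n1 h
  · exact n2 h
  · exact n2 (by rw [h, neg_neg])
  · exact n1 h

theorem r13_67 {Q x F : ℤ} (hQ : 0 < Q) (hx : x = Q ∨ x = -Q) (hF : 3 * F = Q ∨ 3 * F = -Q)
    (hs : (0 < x ∧ F < 0) ∨ (x < 0 ∧ 0 < F)) : x + 3 * F = 0 := by
  rcases hx with rfl | rfl <;> rcases hF with h | h <;> omega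

theorem r12_67 {Q x F : ℤ} (hQ : 0 < Q) (hx : x = Q ∨ x = -Q) (hF : 2 * F = Q ∨ 2 * F = -Q)
    (hs : (0 < x ∧ F < 0) ∨ (x < 0 ∧ 0 < F)) : x + 2 * F = 0 := by
  rcases hx with rfl | rfl <;> rcases hF with h | h <;> omega

theorem r31_67 {Q x F : ℤ} (hQ : 0 < Q) (hx : 3 * x = Q ∨ 3 * x = -Q) (hF : F = Q ∨ F = -Q)
    (hs : (0 < x ∧ F < 0) ∨ (x < 0 ∧ 0 < F)) : 3 * x + F = 0 := by
  rcases hx with h | h <;> rcases hF with rfl | rfl <;> omega

theorem r21_67 {Q x F : ℤ} (hQ : 0 < Q) (hx : 2 * x = Q ∨ 2 * x = -Q) (hF : F = Q ∨ F = -Q)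
    (hs : (0 < x ∧ F < 0) ∨ (x < 0 ∧ 0 < F)) : 2 * x + F = 0 := by
  rcases hx with h | h <;> rcases hF with rfl | rfl <;> omega

/-- one element -/
theorem num1_67 {c μ : ℕ} {Q x F : ℤ} (hQ : 0 < Q) (hc : 1 ≤ c) (hμ : 1 ≤ μ)
    (hs : c + μ ≤ 5)
    (hvx : (x = Q ∨ x = -Q) ∨ (c = 3 ∧ (3 * x = Q ∨ 3 * x = -Q)) ∨
      (c = 4 ∧ (2 * x = Q ∨ 2 * x = -Q)))
    (hvF : (F = Q ∨ F = -Q) ∨ (μ = 3 ∧ (3 * F = Q ∨ 3 * F = -Q)) ∨
      (μ = 4 ∧ (2 * F = Q ∨ 2 * F = -Q))) (n1 : F ≠ x) (n2 : F ≠ -x)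
    (hsign : (0 < x ∧ F < 0) ∨ (x < 0 ∧ 0 < F)) :
    ∃ α β : ℕ, Tab c 1 μ α β ∧ (α : ℤ) * x + (β : ℤ) * F = 0 := by
  rcases hvx with hx1 | ⟨c3, hx1⟩ | ⟨c4, hx1⟩
  · rcases hvF with hF1 | ⟨m3, hF1⟩ | ⟨m4, hF1⟩
    · exact (r11_67 hx1 hF1 n1 n2).elim
    · refine ⟨1, 3, Or.inl ⟨rfl, m3, hc, by omega, rfl, rfl⟩, ?_⟩
      push_cast
      rw [one_mul]
      exact r13_67 hQ hx1 hF1 hsign
    · refine ⟨1, 2, Or.inr (Or.inl ⟨rfl, m4, by omega, rfl, rfl⟩), ?_⟩
      push_cast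
      rw [one_mul]
      exact r12_67 hQ hx1 hF1 hsign
  · rcases hvF with hF1 | ⟨m3, hF1⟩ | ⟨m4, hF1⟩
    · refine ⟨3, 1, Or.inr (Or.inr (Or.inl ⟨rfl, hμ, by omega, c3, rfl, rfl⟩)), ?_⟩
      push_cast
      rw [one_mul]
      exact r31_67 hQ hx1 hF1 hsign
    · exfalso
      clear n1 n2 hsign hx1 hF1
      omega
    · exfalso
      clear n1 n2 hsign hx1 hF1
      omega
  · rcases hvF with hF1 | ⟨m3, hF1⟩ | ⟨m4, hF1⟩
    · refine ⟨2, 1, Or.inr (Or.inr (Or.inr (Or.inl ⟨rfl, by omega, c4, rfl, rfl⟩))), ?_⟩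
      push_cast
      rw [one_mul]
      exact r21_67 hQ hx1 hF1 hsign
    · exfalso
      clear n1 n2 hsign hx1 hF1
      omega
    · exfalso
      clear n1 n2 hsign hx1 hF1
      omega

theorem t21_67 {Q F J : ℤ} (hF : F = (2 * J - 2) * Q) (b1 : 0 ≤ J) (b2 : J ≤ 2) (hF0 : F ≠ 0)
    (n1 : F ≠ 2 * Q) (n2 : F ≠ -(2 * Q)) : False := by
  rcases (by omega : J = 0 ∨ J = 1 ∨ J = 2) with rfl | rfl | rfl
  · exact n2 (by rw [hF]; ring)
  · exact hF0 (by rw [hF]; ring)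
  · exact n1 (by rw [hF]; ring)

theorem t22_67 {Q x F J : ℤ} (hQ : 0 < Q) (hxx : x = Q ∨ x = -Q) (hF : 2 * F = (2 * J - 4) * Q)
    (b1 : 0 ≤ J) (b2 : J ≤ 4) (n1 : F ≠ 2 * Q) (n2 : F ≠ -(2 * Q))
    (hs : (0 < x ∧ F < 0) ∨ (x < 0 ∧ 0 < F)) : x + F = 0 := by
  have h : F = (J - 2) * Q := by linarith
  clear hF
  rcases (by omega : J = 0 ∨ J = 1 ∨ J = 2 ∨ J = 3 ∨ J = 4) with rfl | rfl | rfl | rfl | rfl
  · exact (n2 (by rw [h]; ring)).elim
  · have h2 : F = -Q := by rw [h]; ring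
    clear h n1 n2 b1 b2
    rcases hxx with rfl | rfl <;> omega
  · have h2 : F = 0 := by rw [h]; ring
    clear h n1 n2 b1 b2 hxx
    omega
  · have h2 : F = Q := by rw [h]; ring
    clear h n1 n2 b1 b2
    rcases hxx with rfl | rfl <;> omega
  · exact (n1 (by rw [h]; ring)).elim

theorem t31_67 {Q x F J : ℤ} (hQ : 0 < Q) (hxx : x = Q ∨ x = -Q) (hF : F = (2 * J - 3) * Q)
    (b1 : 0 ≤ J) (b2 : J ≤ 3) (n1 : F ≠ 3 * Q) (n2 : F ≠ -(3 * Q))
    (hs : (0 < x ∧ F < 0) ∨ (x < 0 ∧ 0 < F)) : x + F = 0 := by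
  rcases (by omega : J = 0 ∨ J = 1 ∨ J = 2 ∨ J = 3) with rfl | rfl | rfl | rfl
  · exact (n2 (by rw [hF]; ring)).elim
  · have h2 : F = -Q := by rw [hF]; ring
    clear hF n1 n2 b1 b2
    rcases hxx with rfl | rfl <;> omega
  · have h2 : F = Q := by rw [hF]; ring
    clear hF n1 n2 b1 b2
    rcases hxx with rfl | rfl <;> omega
  · exact (n1 (by rw [hF]; ring)).elim

theorem t41_67 {Q x F J : ℤ} (hQ : 0 < Q) (hxx : x = Q ∨ x = -Q) (hF : F = (2 * J - 4) * Q)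
    (b1 : 0 ≤ J) (b2 : J ≤ 4) (n1 : F ≠ 4 * Q) (n2 : F ≠ -(4 * Q))
    (hs : (0 < x ∧ F < 0) ∨ (x < 0 ∧ 0 < F)) : 2 * x + F = 0 := by
  rcases (by omega : J = 0 ∨ J = 1 ∨ J = 2 ∨ J = 3 ∨ J = 4) with rfl | rfl | rfl | rfl | rfl
  · exact (n2 (by rw [hF]; ring)).elim
  · have h2 : F = -(2 * Q) := by rw [hF]; ring
    clear hF n1 n2 b1 b2
    rcases hxx with rfl | rfl <;> omega
  · have h2 : F = 0 := by rw [hF]; ring
    clear hF n1 n2 b1 b2 hxx
    omega
  · have h2 : F = 2 * Q := by rw [hF]; ring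
    clear hF n1 n2 b1 b2
    rcases hxx with rfl | rfl <;> omega
  · exact (n1 (by rw [hF]; ring)).elim

theorem num_67 {c k μ : ℕ} {Q x F j J : ℤ} (hQ : 0 < Q) (hc : 1 ≤ c) (hk : 1 ≤ k) (hμ : 1 ≤ μ)
    (hs : c + k * μ ≤ 5) (hx : (c : ℤ) * x = (2 * j - c) * Q) (hxQ : |x| ≤ Q)
    (hF : (μ : ℤ) * F = (2 * J - (k * μ : ℕ)) * Q) (hFQ : |F| ≤ k * Q)
    (hstr : 2 ≤ k → F ≠ k * Q ∧ F ≠ -(k * Q)) (h1 : k = 1 → F ≠ x ∧ F ≠ -x)
    (hsign : (0 < x ∧ F < 0) ∨ (x < 0 ∧ 0 < F)) :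
    ∃ α β : ℕ, Tab c k μ α β ∧ (α : ℤ) * x + (β : ℤ) * F = 0 := by
  have hkμ : 1 ≤ k * μ := Nat.mul_pos hk hμ
  have hx0 : x ≠ 0 := by
    rcases hsign with h | h
    · exact h.1.ne'
    · exact h.1.ne
  have hF0 : F ≠ 0 := by
    rcases hsign with h | h
    · exact h.2.ne
    · exact h.2.ne'
  have hc4 : c ≤ 4 := by
    clear hx hxQ hF hFQ hstr h1 hsign hx0 hF0 hQ
    omega
  have hvx := val_67 hQ hc hc4 hx hxQ hx0
  have hk4 : k ≤ 4 := by nlinarith
  have hμ4 : μ ≤ 4 := by nlinarith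
  rcases (show k = 1 ∨ 2 ≤ k by clear hx hxQ hF hFQ hstr h1 hsign hx0 hF0 hQ hvx; omega) with
    rfl | hk2
  · -- one element
    have hvF := val_67 (c := μ) (j := J) hQ hμ hμ4 (by rw [hF, one_mul]) (by
      rw [Nat.cast_one, one_mul] at hFQ; exact hFQ) hF0
    obtain ⟨n1, n2⟩ := h1 rfl
    rw [one_mul] at hs
    exact num1_67 hQ hc hμ hs hvx hvF n1 n2 hsign
  · obtain ⟨n1, n2⟩ := hstr hk2
    rw [abs_le] at hFQ
    have hμ0 : (0 : ℤ) ≤ μ := by positivity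
    obtain ⟨b1, b2⟩ := bound_67 (n := k * μ) hQ hF (by push_cast; nlinarith [hFQ.1])
      (by push_cast; nlinarith [hFQ.2])
    have hμ2 : μ ≤ 2 := by nlinarith
    clear hx hxQ hFQ hstr h1
    rcases (show k = 2 ∨ k = 3 ∨ k = 4 by
      clear hF n1 n2 b1 b2 hsign hx0 hF0 hQ hvx hμ0; omega) with rfl | rfl | rfl
    · rcases (show μ = 1 ∨ μ = 2 by
        clear hF n1 n2 b1 b2 hsign hx0 hF0 hQ hvx hμ0; omega) with rfl | rfl
      · exfalso
        push_cast at hF b2 n1 n2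
        exact t21_67 (by linarith) b1 (by linarith) hF0 n1 n2
      · have hc1 : c = 1 := by
          clear hF n1 n2 b1 b2 hsign hx0 hF0 hQ hvx hμ0
          omega
        subst hc1
        have hxx : x = Q ∨ x = -Q := by
          rcases hvx with h | h | h
          · exact h
          · exact absurd h.1 (by norm_num)
          · exact absurd h.1 (by norm_num)
        refine ⟨1, 1, Or.inr (Or.inr (Or.inr (Or.inr (Or.inl ⟨rfl, rfl, rfl, rfl, rfl⟩)))), ?_⟩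
        push_cast at hF b2 n1 n2 ⊢
        rw [one_mul, one_mul]
        exact t22_67 hQ hxx (by linarith) b1 (by linarith) n1 n2 hsign
    · have hμ1 : μ = 1 := by
        clear hF n1 n2 b1 b2 hsign hx0 hF0 hQ hvx hμ0
        omega
      subst hμ1
      have hc2 : c ≤ 2 := by
        clear hF n1 n2 b1 b2 hsign hx0 hF0 hQ hvx hμ0
        omega
      have hxx : x = Q ∨ x = -Q := by
        rcases hvx with h | h | h
        · exact h
        · exact absurd h.1 (by clear hF n1 n2 b1 b2 hsign hx0 hF0 hQ hμ0 h; omega)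
        · exact absurd h.1 (by clear hF n1 n2 b1 b2 hsign hx0 hF0 hQ hμ0 h; omega)
      refine ⟨1, 1, Or.inr (Or.inr (Or.inr (Or.inr (Or.inr (Or.inl
        ⟨rfl, rfl, hc, hc2, rfl, rfl⟩))))), ?_⟩
      push_cast at hF b2 n1 n2 ⊢
      rw [one_mul, one_mul]
      exact t31_67 hQ hxx (by linarith) b1 (by linarith) n1 n2 hsign
    · have hμ1 : μ = 1 := by
        clear hF n1 n2 b1 b2 hsign hx0 hF0 hQ hvx hμ0
        omega
      subst hμ1
      have hc1 : c = 1 := by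
        clear hF n1 n2 b1 b2 hsign hx0 hF0 hQ hvx hμ0
        omega
      subst hc1
      have hxx : x = Q ∨ x = -Q := by
        rcases hvx with h | h | h
        · exact h
        · exact absurd h.1 (by norm_num)
        · exact absurd h.1 (by norm_num)
      refine ⟨2, 1, Or.inr (Or.inr (Or.inr (Or.inr (Or.inr (Or.inr
        ⟨rfl, rfl, rfl, rfl, rfl⟩))))), ?_⟩
      push_cast at hF b2 n1 n2 ⊢
      rw [one_mul]
      exact t41_67 hQ hxx (by linarith) b1 (by linarith) n1 n2 hsign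

end num

variable {L : Type} [Field L] [NumberField L] [IsGalois ℚ L]
variable {p e r : ℕ} {v : HeightOneSpectrum (𝓞 L)} {m : Multiset L} {a : L} {U : Finset L}

/-- the conjugate block -/
theorem blk_bar_67 (h : Ctx p e r v m) (ha : a ∈ m) (B : Blk r v m a U) :
    Blk r v m a (U.image (fun b => (r : L) ^ 2 / b)) where
  mem := by
    intro b hb
    obtain ⟨x, hx, rfl⟩ := Finset.mem_image.1 hb
    exact h.bar_mem (B.mem x hx)
  ne := by
    intro b hb
    obtain ⟨x, hx, rfl⟩ := Finset.mem_image.1 hb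
    rw [bar_mem_conjs h ha]
    exact B.ne x hx
  fix := by
    intro g hg b hb
    obtain ⟨x, hx, rfl⟩ := Finset.mem_image.1 hb
    exact Finset.mem_image.2 ⟨g x, B.fix g hg x hx, (map_bar g x).symm⟩
  flip := by
    intro g hg b hb
    obtain ⟨x, hx, rfl⟩ := Finset.mem_image.1 hb
    refine Finset.mem_image.2 ⟨(r : L) ^ 2 / g x, B.flip g hg x hx, ?_⟩
    show (r : L) ^ 2 / ((r : L) ^ 2 / g x) = (r : L) ^ 2 / g ((r : L) ^ 2 / x)
    rw [map_bar]
  disj := by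
    intro b hb hb'
    obtain ⟨x, hx, rfl⟩ := Finset.mem_image.1 hb
    obtain ⟨y, hy, hxy⟩ := Finset.mem_image.1 hb'
    have h1 : (r : L) ^ 2 / y = (r : L) ^ 2 / ((r : L) ^ 2 / x) := hxy
    rw [bb h.r_pos] at h1
    exact B.disj y hy (by rw [h1]; exact hx)
  trans := by
    intro b hb b' hb'
    obtain ⟨x, hx, rfl⟩ := Finset.mem_image.1 hb
    obtain ⟨y, hy, rfl⟩ := Finset.mem_image.1 hb'
    obtain ⟨g, h1, h2⟩ := B.trans x hx y hy
    refine ⟨g, h1, ?_⟩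
    show g ((r : L) ^ 2 / x) = (r : L) ^ 2 / y
    rw [map_bar, h2]
  sum := by
    rw [Finset.sum_image (fun x _ y _ hxy => bar_injective h.r_pos hxy),
      Finset.sum_congr rfl (fun b hb => by
        rw [h.Xbar (B.mem b hb), Pi.neg_apply] :
        ∀ b ∈ U, X r v ((r : L) ^ 2 / b) 1 = -X r v b 1), Finset.sum_neg_distrib]
    exact neg_ne_zero.2 B.sum

theorem sum_bar_67 (h : Ctx p e r v m) (B : Blk r v m a U) :
    ∑ b ∈ U.image (fun b => (r : L) ^ 2 / b), X r v b 1 = -∑ b ∈ U, X r v b 1 := by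
  rw [Finset.sum_image (fun x _ y _ hxy => bar_injective h.r_pos hxy),
    Finset.sum_congr rfl (fun b hb => by
      rw [h.Xbar (B.mem b hb), Pi.neg_apply] :
      ∀ b ∈ U, X r v ((r : L) ^ 2 / b) 1 = -X r v b 1), Finset.sum_neg_distrib]

/-- the sum over a block at another place -/
theorem sum_fix_67 (B : Blk r v m a U) {g : L ≃ₐ[ℚ] L} (hg : g a = a) :
    ∑ b ∈ U, X r v b g = ∑ b ∈ U, X r v b 1 := by
  have h1 : U.image g = U := by
    apply Finset.eq_of_subset_of_card_le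
    · intro x hx
      obtain ⟨b, hb, rfl⟩ := Finset.mem_image.1 hx
      exact B.fix g hg b hb
    · rw [Finset.card_image_of_injective U g.injective]
  conv_rhs => rw [← h1]
  rw [Finset.sum_image (fun x _ y _ hxy => g.injective hxy)]
  exact Finset.sum_congr rfl (fun b _ => (Ctx.X_one b g).symm)

theorem sum_flip_67 (h : Ctx p e r v m) (B : Blk r v m a U) {g : L ≃ₐ[ℚ] L} (hg : g a ≠ a) :
    ∑ b ∈ U, X r v b g = -∑ b ∈ U, X r v b 1 := by
  have hinj : Function.Injective (fun b : L => (r : L) ^ 2 / g b) := by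
    intro x y hxy
    exact g.injective (bar_injective h.r_pos hxy)
  have h1 : U.image (fun b => (r : L) ^ 2 / g b) = U := by
    apply Finset.eq_of_subset_of_card_le
    · intro x hx
      obtain ⟨b, hb, rfl⟩ := Finset.mem_image.1 hx
      exact B.flip g hg b hb
    · rw [Finset.card_image_of_injective U hinj]
  conv_rhs => rw [← h1]
  rw [Finset.sum_image (fun x _ y _ hxy => hinj hxy), ← Finset.sum_neg_distrib]
  apply Finset.sum_congr rfl
  intro b hb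
  rw [h.Xbar (h.hA.mem_map g (B.mem b hb)), Pi.neg_apply, Ctx.X_one, neg_neg]

theorem core_67 (h : Ctx p e r v m) (hm : m.card ≤ 10) (ha : a ∈ m) (h2 : (conjs a).card = 2)
    (hne : U.Nonempty) (B : Blk r v m a U)
    (hsign : (0 < X r v a 1 ∧ ∑ b ∈ U, X r v b 1 < 0) ∨
      (X r v a 1 < 0 ∧ 0 < ∑ b ∈ U, X r v b 1)) :
    ∃ μ α β : ℕ, BT p e r v m a U μ α β := by
  obtain ⟨b₀, hb₀⟩ := hne
  have hr := h.r_pos
  have hQ := h.q_pos
  have hcnt : ∀ b ∈ U, m.count b = m.count b₀ := by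
    intro b hb
    obtain ⟨g, _, rfl⟩ := B.trans b₀ hb₀ b hb
    exact h.hA.count_map g b₀
  -- counting
  have hs : m.count a + U.card * m.count b₀ ≤ 5 := by
    have s1 : ∑ b ∈ conjs a, m.count b = 2 * m.count a := by
      rw [Finset.sum_congr rfl (fun b hb => Ctx.count_of_conjs h hb), Finset.sum_const, h2,
        smul_eq_mul]
    have s2 : ∑ b ∈ U, m.count b = U.card * m.count b₀ := by
      rw [Finset.sum_congr rfl hcnt, Finset.sum_const, smul_eq_mul]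
    have s3 : ∑ b ∈ U.image (fun b => (r : L) ^ 2 / b), m.count b = U.card * m.count b₀ := by
      rw [Finset.sum_image (fun x _ y _ hxy => bar_injective hr hxy),
        Finset.sum_congr rfl (fun b hb => by
          rw [h.hA.count_bar hr (h.weil (B.mem b hb)), hcnt b hb] :
          ∀ b ∈ U, m.count ((r : L) ^ 2 / b) = m.count b₀), Finset.sum_const, smul_eq_mul]
    have d1 : Disjoint U (U.image (fun b => (r : L) ^ 2 / b)) := by
      rw [Finset.disjoint_left]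
      intro x hx hx'
      obtain ⟨b, hb, rfl⟩ := Finset.mem_image.1 hx'
      exact B.disj b hb hx
    have d2 : Disjoint (conjs a) (U ∪ U.image (fun b => (r : L) ^ 2 / b)) := by
      rw [Finset.disjoint_left]
      intro x hx hx'
      rcases Finset.mem_union.1 hx' with h1 | h1
      · exact B.ne x h1 hx
      · exact (blk_bar_67 h ha B).ne x h1 hx
    have s4 := sum_count_le (m := m) (conjs a ∪ (U ∪ U.image (fun b => (r : L) ^ 2 / b)))
    rw [Finset.sum_union d2, Finset.sum_union d1, s1, s2, s3] at s4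
    omega
  have hc1 : 1 ≤ m.count a := Multiset.count_pos.2 ha
  have hμ1 : 1 ≤ m.count b₀ := Multiset.count_pos.2 (B.mem b₀ hb₀)
  have hk1 : 1 ≤ U.card := Finset.card_pos.2 ⟨b₀, hb₀⟩
  -- the slope of `a`
  obtain ⟨j, hj⟩ := h.hA.integral a ha
  rw [two_orb h ha h2, Finset.card_singleton, mul_one] at hj
  have hXa : X r v a 1 = 2 * ord v a - ord v ((r : L) ^ 2) := rfl
  have hx : (m.count a : ℤ) * X r v a 1 = (2 * j - (m.count a : ℤ)) * ord v ((r : L) ^ 2) := by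
    rw [hXa]
    linear_combination 2 * hj
  -- the slopes of the block
  have hD : ∀ b ∈ U, ∀ x ∈ orb v b, x ∈ U ∧ m.count x = m.count b := by
    intro b hb x hx
    obtain ⟨d, hd, rfl⟩ := (mem_orb v).1 hx
    have hda : d a = a := by
      have h5 : d a ∈ orb v a := (mem_orb v).2 ⟨d, hd, rfl⟩
      rw [two_orb h ha h2] at h5
      exact Finset.mem_singleton.1 h5
    exact ⟨B.fix d hda b hb, h.hA.count_map d b⟩
  obtain ⟨J, hJ⟩ := sum_dvd v (ord v ((r : L) ^ 2)) (fun b => m.count b) U.card U rfl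
    (fun b hb x hx => (hD b hb x hx).1) (fun b hb x hx => (hD b hb x hx).2)
    (fun b hb => h.hA.integral b (B.mem b hb))
  have hJ' : (m.count b₀ : ℤ) * ∑ b ∈ U, ord v b = ord v ((r : L) ^ 2) * J := by
    rw [← hJ, Finset.mul_sum]
    exact Finset.sum_congr rfl (fun b hb => by rw [hcnt b hb])
  have hFs : ∑ b ∈ U, X r v b 1 = 2 * ∑ b ∈ U, ord v b - (U.card : ℤ) * ord v ((r : L) ^ 2) := by
    have e1 : ∀ b ∈ U, X r v b 1 = 2 * ord v b - ord v ((r : L) ^ 2) := fun b _ => rfl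
    rw [Finset.sum_congr rfl e1, Finset.sum_sub_distrib, ← Finset.mul_sum, Finset.sum_const,
      nsmul_eq_mul]
  have hF : (m.count b₀ : ℤ) * ∑ b ∈ U, X r v b 1 =
      (2 * J - ((U.card * m.count b₀ : ℕ) : ℤ)) * ord v ((r : L) ^ 2) := by
    rw [hFs]
    push_cast
    linear_combination 2 * hJ'
  have hab : ∀ b ∈ U, |X r v b 1| ≤ ord v ((r : L) ^ 2) := fun b hb =>
    abs_X_le hr (h.weil (B.mem b hb)) 1
  have hFQ : |∑ b ∈ U, X r v b 1| ≤ (U.card : ℤ) * ord v ((r : L) ^ 2) := by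
    refine (Finset.abs_sum_le_sum_abs _ _).trans ((Finset.sum_le_sum hab).trans ?_)
    rw [Finset.sum_const, nsmul_eq_mul]
  -- constant slopes
  have hconst : ∀ y : ℤ, (∀ b ∈ U, X r v b 1 = y) → U.card ≤ 1 := by
    intro y hy
    rw [Finset.card_le_one]
    intro b hb b' hb'
    apply h.inj (B.mem b hb) (B.mem b' hb')
    ext g
    by_cases hg : g a = a
    · rw [← Ctx.X_one b g, ← Ctx.X_one b' g, hy _ (B.fix g hg b hb), hy _ (B.fix g hg b' hb')]
    · have e1 : ∀ b ∈ U, X r v b g = -y := by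
        intro b hb
        have e2 := hy _ (B.flip g hg b hb)
        rw [h.Xbar (h.hA.mem_map g (B.mem b hb)), Pi.neg_apply, Ctx.X_one] at e2
        omega
      rw [e1 b hb, e1 b' hb']
  have hstr : 2 ≤ U.card → ∑ b ∈ U, X r v b 1 ≠ (U.card : ℤ) * ord v ((r : L) ^ 2) ∧
      ∑ b ∈ U, X r v b 1 ≠ -((U.card : ℤ) * ord v ((r : L) ^ 2)) := by
    intro hk2
    constructor
    · intro h0
      have e1 : ∑ b ∈ U, X r v b 1 = ∑ b ∈ U, ord v ((r : L) ^ 2) := by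
        rw [h0, Finset.sum_const, nsmul_eq_mul]
      have e2 := (Finset.sum_eq_sum_iff_of_le (fun b hb => (abs_le.1 (hab b hb)).2)).1 e1
      have := hconst _ e2
      omega
    · intro h0
      have e1 : ∑ b ∈ U, -ord v ((r : L) ^ 2) = ∑ b ∈ U, X r v b 1 := by
        rw [h0, Finset.sum_const, nsmul_eq_mul]
        ring
      have e2 := (Finset.sum_eq_sum_iff_of_le (fun b hb => (abs_le.1 (hab b hb)).1)).1 e1
      have := hconst _ (fun b hb => (e2 b hb).symm)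
      omega
  -- one element
  have hone : U.card = 1 → ∑ b ∈ U, X r v b 1 ≠ X r v a 1 ∧ ∑ b ∈ U, X r v b 1 ≠ -X r v a 1 := by
    intro hk
    obtain ⟨b, hb⟩ := Finset.card_eq_one.1 hk
    have hbU : b ∈ U := by rw [hb]; exact Finset.mem_singleton_self b
    have hsum : ∀ g, ∑ b ∈ U, X r v b g = X r v b g := by
      intro g
      rw [hb, Finset.sum_singleton]
    have hal : ∀ s : ℤ, X r v b 1 = s * X r v a 1 → ∀ g, X r v b g = s * X r v a g := by
      intro s hs' g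
      rcases conjs_two h ha h2 g with hg | hg
      · have e1 := sum_fix_67 B hg
        rw [hsum, hsum] at e1
        rw [e1, hs', ← Ctx.X_one a g, hg]
      · have hg' : g a ≠ a := by rw [hg]; exact h.bar_ne ha
        have e1 := sum_flip_67 h B hg'
        rw [hsum, hsum] at e1
        rw [e1, hs', ← Ctx.X_one a g, hg, h.Xbar ha, Pi.neg_apply]
        ring
    rw [hsum]
    constructor
    · intro h0
      have e1 := hal 1 (by rw [h0, one_mul])
      have e2 : b = a := h.inj (B.mem b hbU) ha (by ext g; rw [e1 g, one_mul])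
      exact B.ne b hbU (by rw [e2]; exact self_conjs a)
    · intro h0
      have e1 := hal (-1) (by rw [h0]; ring)
      have e2 : b = (r : L) ^ 2 / a := h.inj_bar (B.mem b hbU) ha (by
        ext g
        rw [e1 g, Pi.neg_apply]
        ring)
      exact B.ne b hbU (by rw [e2, bar_mem_conjs h ha]; exact self_conjs a)
  obtain ⟨α, β, htab, hrel⟩ := num_67 hQ hc1 hk1 hμ1 hs hx (abs_X_le hr (h.weil ha) 1) hF hFQ hstr
    hone hsign
  refine ⟨m.count b₀, α, β, h, hm, ha, h2, B, hcnt, htab, ?_⟩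
  intro g
  rcases conjs_two h ha h2 g with hg | hg
  · rw [sum_fix_67 B hg, ← Ctx.X_one a g, hg]
    exact hrel
  · have hg' : g a ≠ a := by rw [hg]; exact h.bar_ne ha
    rw [sum_flip_67 h B hg', ← Ctx.X_one a g, hg, h.Xbar ha, Pi.neg_apply]
    linear_combination -hrel

theorem stA2_67 : StA2 := by
  intro L _ _ _ p e r v m a U h hm ha h2 hne B
  have hx0 := two_ne h ha h2
  have hF0 := B.sum
  by_cases hsign : (0 < X r v a 1 ∧ ∑ b ∈ U, X r v b 1 < 0) ∨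
      (X r v a 1 < 0 ∧ 0 < ∑ b ∈ U, X r v b 1)
  · obtain ⟨μ, α, β, hB⟩ := core_67 h hm ha h2 hne B hsign
    exact ⟨U, μ, α, β, Or.inl rfl, hB⟩
  · obtain ⟨μ, α, β, hB⟩ := core_67 h hm ha h2 (hne.image _) (blk_bar_67 h ha B) (by
      rw [sum_bar_67 h B]
      omega)
    exact ⟨_, μ, α, β, Or.inr rfl, hB⟩

end Pool.Agent.Lib.MP81632f.Mk.P
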