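import Pool.Agent.Lib.MP_81632f_ag.Mk.P.Stmts34

/-! # (A3) the relation of a block is algebraic -/

namespace Pool.Agent.Lib.MP81632f.Mk.P

open NumberField IsDedekindDomain
open scoped Classical

variable {L : Type} [Field L] [NumberField L]

namespace A3h40

theorem XS_nsmul {r : ℕ} {v : HeightOneSpectrum (𝓞 L)} (n : ℕ) (s : Multiset L) (g : L ≃ₐ[ℚ] L) :
    XS r v (n • s) g = (n : ℤ) * XS r v s g := by
  induction n with
  | zero => rw [zero_smul, XS_zero]; simp
  | succ n ih => rw [succ_nsmul, XS_add, ih]; push_cast; ring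

theorem XS_val {r : ℕ} {v : HeightOneSpectrum (𝓞 L)} (U : Finset L) (g : L ≃ₐ[ℚ] L) :
    XS r v U.val g = ∑ b ∈ U, X r v b g := rfl

theorem XS_replicate {r : ℕ} {v : HeightOneSpectrum (𝓞 L)} (n : ℕ) (a : L) (g : L ≃ₐ[ℚ] L) :
    XS r v (Multiset.replicate n a) g = (n : ℤ) * X r v a g := by
  unfold XS
  rw [Multiset.map_replicate, Multiset.sum_replicate, nsmul_eq_mul]

theorem XS_TT {r : ℕ} {v : HeightOneSpectrum (𝓞 L)} (a : L) (U : Finset L) (α β : ℕ)
    (g : L ≃ₐ[ℚ] L) : XS r v (TT a U α β) g = (α : ℤ) * X r v a g + (β : ℤ) * ∑ b ∈ U, X r v b g := by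
  unfold TT
  rw [XS_add, XS_replicate, XS_nsmul, XS_val]

omit [NumberField L] in
theorem mem_TT {a : L} {U : Finset L} {α β : ℕ} {x : L} (hx : x ∈ TT a U α β) : x = a ∨ x ∈ U := by
  unfold TT at hx
  rcases Multiset.mem_add.1 hx with h1 | h1
  · exact Or.inl (Multiset.eq_of_mem_replicate h1)
  · exact Or.inr (Multiset.mem_of_mem_nsmul h1)

omit [NumberField L] in
theorem card_TT (a : L) (U : Finset L) (α β : ℕ) : (TT a U α β).card = α + β * U.card := by
  unfold TT
  rw [Multiset.card_add, Multiset.card_replicate, Multiset.card_nsmul]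
  rfl

omit [NumberField L] in
theorem add_TT (a : L) (U : Finset L) (α β : ℕ) :
    TT a U α β + TT a U α β = TT a U (2 * α) (2 * β) := by
  unfold TT
  rw [two_mul, two_mul, Multiset.replicate_add, add_smul]
  abel

omit [NumberField L] in
theorem count_TT_a {a : L} {U : Finset L} (h : a ∉ U) (α β : ℕ) : (TT a U α β).count a = α := by
  unfold TT
  rw [Multiset.count_add, Multiset.count_replicate_self, Multiset.count_nsmul,
    Multiset.count_eq_zero_of_notMem (s := U.val) (fun h' => h h')]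
  simp

omit [NumberField L] in
theorem count_TT_b {a b : L} {U : Finset L} (h : a ∉ U) (hb : b ∈ U) (α β : ℕ) :
    (TT a U α β).count b = β := by
  unfold TT
  rw [Multiset.count_add, Multiset.count_nsmul, Multiset.count_eq_one_of_mem U.nodup hb,
    Multiset.count_eq_zero_of_notMem]
  · simp
  · intro h'
    exact h ((Multiset.eq_of_mem_replicate h') ▸ hb)

variable [IsGalois ℚ L] {p e r : ℕ} {v : HeightOneSpectrum (𝓞 L)} {m : Multiset L} {a : L}
  {U : Finset L}

omit [IsGalois ℚ L] in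
theorem a_conjs : a ∈ conjs a := Ctx.mem_conjs.2 ⟨1, rfl⟩

/-- the standing hypotheses on a block -/
structure Bk (p e r : ℕ) (v : HeightOneSpectrum (𝓞 L)) (m : Multiset L) (a : L) (U : Finset L) :
    Prop where
  h : Ctx p e r v m
  ha : a ∈ m
  h2 : (conjs a).card = 2
  blk : Blk r v m a U

theorem Bk.not (k : Bk p e r v m a U) : a ∉ U := fun h => k.blk.ne a h a_conjs

theorem Bk.not' (k : Bk p e r v m a U) : (r : L) ^ 2 / a ∉ U := fun h =>
  k.blk.ne _ h (KCtx.bar_conj k.h k.ha a_conjs)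

theorem Bk.mem (k : Bk p e r v m a U) {α β : ℕ} {x : L} (hx : x ∈ TT a U α β) : x ∈ m := by
  rcases mem_TT hx with rfl | h1
  · exact k.ha
  · exact k.blk.mem x h1

theorem Bk.bar (k : Bk p e r v m a U) {α β : ℕ} {x : L} (hx : x ∈ TT a U α β) :
    (r : L) ^ 2 / x ∉ TT a U α β := by
  intro hy
  rcases mem_TT hx with rfl | h1
  · rcases mem_TT hy with h3 | h3
    · exact k.h.bar_ne k.ha h3
    · exact k.not' h3
  · rcases mem_TT hy with h3 | h3
    · apply k.not'
      rw [← h3, bb k.h.r_pos]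
      exact h1
    · exact k.blk.disj x h1 h3

theorem Bk.red (k : Bk p e r v m a U) (α β : ℕ) : Red r (TT a U α β) where
  weil x hx := k.h.weil (k.mem hx)
  ss x hx := k.h.hss x (k.mem hx)
  pair x y hxy hb := by
    have hx : x ∈ TT a U α β := Multiset.mem_of_le hxy (by simp)
    have hy : y ∈ TT a U α β := Multiset.mem_of_le hxy (by simp)
    have h1 := (bal_iff (v := v) k.h.hr k.h.hp k.h.hv (s := {x, y}) (by
      intro z hz
      rw [Multiset.insert_eq_cons, Multiset.mem_cons, Multiset.mem_singleton] at hz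
      rcases hz with rfl | rfl
      · exact k.h.weil (k.mem hx)
      · exact k.h.weil (k.mem hy))).1 hb
    have h2 : y = (r : L) ^ 2 / x := by
      apply k.h.inj_bar (k.mem hy) (k.mem hx)
      ext g
      have h3 := h1 g
      rw [Multiset.insert_eq_cons, XS_cons, XS_singleton] at h3
      rw [Pi.neg_apply]
      omega
    exact k.bar hx (h2 ▸ hy)

theorem Bk.rel (k : Bk p e r v m a U) {α β : ℕ}
    (hr : ∀ g : L ≃ₐ[ℚ] L, (α : ℤ) * X r v a g + (β : ℤ) * ∑ b ∈ U, X r v b g = 0) :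
    Rel r m (TT a U α β) where
  red := k.red α β
  bal := (bal_iff k.h.hr k.h.hp k.h.hv (fun _ hx => k.h.weil (k.mem hx))).2 (fun g => by
    rw [XS_TT, hr g])
  sub _ hx := k.mem hx

theorem Bk.image_fix (k : Bk p e r v m a U) {g : L ≃ₐ[ℚ] L} (hg : g a = a) : U.image g = U := by
  apply Finset.eq_of_subset_of_card_le
  · intro x hx
    obtain ⟨b, hb, rfl⟩ := Finset.mem_image.1 hx
    exact k.blk.fix g hg b hb
  · rw [Finset.card_image_of_injective U g.injective]

theorem Bk.image_flip (k : Bk p e r v m a U) {g : L ≃ₐ[ℚ] L} (hg : g a ≠ a) :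
    U.image g = U.image (fun b => (r : L) ^ 2 / b) := by
  apply Finset.eq_of_subset_of_card_le
  · intro x hx
    obtain ⟨b, hb, rfl⟩ := Finset.mem_image.1 hx
    exact Finset.mem_image.2 ⟨_, k.blk.flip g hg b hb, bb k.h.r_pos _⟩
  · rw [Finset.card_image_of_injective U g.injective,
      Finset.card_image_of_injective U (bar_injective k.h.r_pos)]

omit [NumberField L] [IsGalois ℚ L] in
theorem map_TT (f : L → L) (hf : Function.Injective f) (α β : ℕ) :
    (TT a U α β).map f = TT (f a) (U.image f) α β := by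
  unfold TT
  rw [Multiset.map_add, Multiset.map_replicate, Multiset.map_nsmul,
    Finset.image_val_of_injOn hf.injOn]

theorem Bk.map_fix (k : Bk p e r v m a U) {g : L ≃ₐ[ℚ] L} (hg : g a = a) (α β : ℕ) :
    (TT a U α β).map g = TT a U α β := by
  rw [map_TT g g.injective, hg, k.image_fix hg]

theorem Bk.map_flip (k : Bk p e r v m a U) {g : L ≃ₐ[ℚ] L} (hg : g a ≠ a) (α β : ℕ) :
    (TT a U α β).map g = bars r (TT a U α β) := by
  unfold bars
  rw [map_TT g g.injective, map_TT _ (bar_injective k.h.r_pos), k.image_flip hg,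
    (conjs_two k.h k.ha k.h2 g).resolve_left hg]

theorem Bk.map_or (k : Bk p e r v m a U) (α β : ℕ) (g : L ≃ₐ[ℚ] L) :
    (TT a U α β).map g = TT a U α β ∨ (TT a U α β).map g = bars r (TT a U α β) := by
  by_cases hg : g a = a
  · exact Or.inl (k.map_fix hg α β)
  · exact Or.inr (k.map_flip hg α β)

theorem Bk.dec (k : Bk p e r v m a U) {d : L ≃ₐ[ℚ] L} (hd : d ∈ decomp v) : d a = a := by
  have h1 : d a ∈ orb v a := (mem_orb v).2 ⟨d, hd, rfl⟩
  rw [two_orb k.h k.ha k.h2, Finset.mem_singleton] at h1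
  exact h1

/-- abelian varieties from multisets with at most two conjugates -/
theorem av_of (h : Ctx p e r v m) {T : Multiset L} (hR : Red r T)
    (hg : ∀ g : L ≃ₐ[ℚ] L, T.map g = T ∨ T.map g = bars r T)
    (hi : ∀ x ∈ T, ord v ((r : L) ^ 2) ∣ ((T.count x * (orb v x).card : ℕ) : ℤ) * ord v x) :
    IsAV r v (T + bars r T) where
  weil x hx := by
    rcases Multiset.mem_add.1 hx with hx | hx
    · exact hR.weil x hx
    · have h1 := (hR.weil _ ((mem_bars h.r_pos).1 hx)).conj h.r_pos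
      rwa [bb h.r_pos] at h1
  galois g := by
    rw [Multiset.map_add, map_bars]
    rcases hg g with h1 | h1
    · rw [h1]
    · rw [h1, bars_bars h.r_pos, add_comm]
  integral x hx := by
    rcases Multiset.mem_add.1 hx with hx | hx
    · rw [Multiset.count_add, Multiset.count_eq_zero_of_notMem (hR.notMem_bars h.r_pos hx), add_zero]
      exact hi x hx
    · rw [Multiset.count_add, Multiset.count_eq_zero_of_notMem (hR.notMem_of_bars h.r_pos hx),
        zero_add, count_bars h.r_pos]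
      have hy := (mem_bars h.r_pos).1 hx
      have h0 := hR.ne_zero h.r_pos hy
      have h1 := hi _ hy
      have h2 := orb_bar_card v h.r_pos h0
      rw [bb h.r_pos] at h2
      have h3 := ord_bar (v := v) h.r_pos h0
      rw [bb h.r_pos] at h3
      rw [h2, h3, mul_sub]
      exact dvd_sub (dvd_mul_left _ _) h1

theorem dvd_of_val {Q o : ℤ} (h : 2 * o - Q = Q ∨ 2 * o - Q = -Q) : Q ∣ o := by
  rcases h with h | h
  · exact ⟨1, by omega⟩
  · exact ⟨0, by omega⟩

theorem Bk.one_conjs (k : Bk p e r v m a U) (h1 : U.card = 1) {b : L} (hb : b ∈ U) :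
    (conjs b).card = 2 := by
  have hU : ∀ x ∈ U, x = b := by
    intro x hx
    exact Finset.card_le_one.1 h1.le x hx b hb
  have h3 : conjs b ⊆ {b, (r : L) ^ 2 / b} := by
    intro x hx
    obtain ⟨g, rfl⟩ := Ctx.mem_conjs.1 hx
    rw [Finset.mem_insert, Finset.mem_singleton]
    by_cases hg : g a = a
    · exact Or.inl (hU _ (k.blk.fix g hg b hb))
    · right
      have h6 := congrArg (fun z => (r : L) ^ 2 / z) (hU _ (k.blk.flip g hg b hb))
      simpa only [bb k.h.r_pos] using h6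
  have h4 : (conjs b).card ≤ 2 := (Finset.card_le_card h3).trans Finset.card_le_two
  have h5 := two_le_conjs k.h (k.blk.mem b hb)
  omega

/-- the abelian variety of a block -/
theorem Bk.av (k : Bk p e r v m a U) {μ : ℕ} (cnt : ∀ b ∈ U, m.count b = μ) {α β : ℕ}
    (hα : m.count a ∣ α ∨ m.count a ≤ 2) (hβ : μ ∣ β ∨ (U.card = 1 ∧ μ ≤ 2)) :
    IsAV r v (TT a U α β + bars r (TT a U α β)) := by
  have key : ∀ {x : L} {n : ℕ}, x ∈ m → (m.count x ∣ n ∨ ((conjs x).card = 2 ∧ m.count x ≤ 2)) →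
      ord v ((r : L) ^ 2) ∣ ((n * (orb v x).card : ℕ) : ℤ) * ord v x := by
    intro x n hx hn
    rcases hn with ⟨j, rfl⟩ | ⟨h1, h2⟩
    · have h3 := k.h.hA.integral x hx
      have e1 : ((m.count x * j * (orb v x).card : ℕ) : ℤ) * ord v x =
          (j : ℤ) * (((m.count x * (orb v x).card : ℕ) : ℤ) * ord v x) := by
        push_cast
        ring
      rw [e1]
      exact h3.mul_left _
    · have h3 := two_val k.h hx h1 (by omega)
      have h4 : X r v x 1 = 2 * ord v x - ord v ((r : L) ^ 2) := rfl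
      have h5 : X r v x 1 = ord v ((r : L) ^ 2) ∨ X r v x 1 = -ord v ((r : L) ^ 2) := by
        rcases h3 with h3 | h3
        · exact h3
        · omega
      rw [h4] at h5
      exact (dvd_of_val h5).mul_left _
  apply av_of k.h (k.red α β) (k.map_or α β)
  intro x hx
  rcases mem_TT hx with rfl | h1
  · rw [count_TT_a k.not]
    apply key k.ha
    rcases hα with h3 | h3
    · exact Or.inl h3
    · exact Or.inr ⟨k.h2, h3⟩
  · rw [count_TT_b k.not h1]
    apply key (k.blk.mem x h1)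
    rw [cnt x h1]
    rcases hβ with h3 | h3
    · exact Or.inl h3
    · exact Or.inr ⟨k.one_conjs h3.1 h1, h3.2⟩

/-- six elements -/
theorem Bk.six (hSix : StSix) (k : Bk p e r v m a U) {α β : ℕ}
    (hr : ∀ g : L ≃ₐ[ℚ] L, (α : ℤ) * X r v a g + (β : ℤ) * ∑ b ∈ U, X r v b g = 0)
    (hA : IsAV r v (TT a U α β + bars r (TT a U α β))) (hc : α + β * U.card = 6)
    {C : Set (Multiset L)} (hC : CycleFamily6 r v C) : TT a U α β ∈ C :=
  hSix L r v C k.h.r_pos k.h.rho_pos hC _ (k.red α β) (k.rel hr).bal hA (k.map_or α β)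
    (fun _ hd => k.map_fix (k.dec hd) α β) (by rw [card_TT, hc])

/-- four elements -/
theorem Bk.four (k : Bk p e r v m a U) {α β : ℕ}
    (hr : ∀ g : L ≃ₐ[ℚ] L, (α : ℤ) * X r v a g + (β : ℤ) * ∑ b ∈ U, X r v b g = 0)
    (hA : IsAV r v (TT a U α β + bars r (TT a U α β))) (hc : α + β * U.card = 4)
    {C : Set (Multiset L)} (hC : CycleFamily6 r v C) : TT a U α β ∈ C := by
  have h4 : (TT a U α β).card = 4 := by rw [card_TT, hc]
  exact (ktype_mem k.h.r_pos k.h.rho_pos hC.old (k.red α β) (k.rel hr).bal hA (by omega)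
    (by omega)).1 h4

/-- three elements -/
theorem Bk.three (hSix : StSix) (k : Bk p e r v m a U) {α β : ℕ}
    (hr : ∀ g : L ≃ₐ[ℚ] L, (α : ℤ) * X r v a g + (β : ℤ) * ∑ b ∈ U, X r v b g = 0)
    (hA : IsAV r v (TT a U (2 * α) (2 * β) + bars r (TT a U (2 * α) (2 * β))))
    (hc : α + β * U.card = 3)
    {C : Set (Multiset L)} (hC : CycleFamily6 r v C) : TT a U α β + TT a U α β ∈ C := by
  rw [add_TT]
  apply k.six hSix _ hA _ hC
  · intro g
    have := hr g
    push_cast
    linear_combination 2 * this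
  · have : 2 * α + 2 * β * U.card = 2 * (α + β * U.card) := by ring
    omega

end A3h40

open A3h40

theorem stA3_40 (hSix : StSix) : StA3 := by
  intro L _ _ _ p e r v m a U μ α β h
  have k : Bk p e r v m a U := ⟨h.h, h.ha, h.h2, h.blk⟩
  refine ⟨k.rel h.rel, fun C hC => ?_⟩
  have dbl : TT a U α β ∈ C → TT a U α β + TT a U α β ∈ C ∧ (Even (TT a U α β).card → TT a U α β ∈ C) :=
    fun h1 => ⟨hC.add _ _ h1 h1, fun _ => h1⟩
  have odd : α + β * U.card = 3 → TT a U α β + TT a U α β ∈ C →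
      TT a U α β + TT a U α β ∈ C ∧ (Even (TT a U α β).card → TT a U α β ∈ C) := by
    intro h1 h2
    refine ⟨h2, fun h3 => ?_⟩
    rw [card_TT, h1] at h3
    exact absurd h3 (by decide)
  rcases h.tab with ⟨h1, h2, h3, h4, h5, h6⟩ | ⟨h1, h2, h3, h4, h5⟩ | ⟨h1, h2, h3, h4, h5, h6⟩ |
    ⟨h1, h2, h3, h4, h5⟩ | ⟨h1, h2, h3, h4, h5⟩ | ⟨h1, h2, h3, h4, h5, h6⟩ | ⟨h1, h2, h3, h4, h5⟩
  · -- k = 1, μ = 3, c ≤ 2, α = 1, β = 3
    exact dbl (k.four h.rel (k.av h.cnt (Or.inr h4) (Or.inl (by rw [h2, h6])))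
      (by rw [h1, h5, h6]) hC)
  · -- k = 1, μ = 4, c = 1, α = 1, β = 2
    have e : α + β * U.card = 3 := by rw [h1, h4, h5]
    exact odd e (k.three hSix h.rel (k.av h.cnt (Or.inr (by omega)) (Or.inl (by rw [h2, h5])))
      e hC)
  · -- k = 1, μ ≤ 2, c = 3, α = 3, β = 1
    exact dbl (k.four h.rel (k.av h.cnt (Or.inl (by rw [h4, h5])) (Or.inr ⟨h1, h3⟩))
      (by rw [h1, h5, h6]) hC)
  · -- k = 1, μ = 1, c = 4, α = 2, β = 1
    have e : α + β * U.card = 3 := by rw [h1, h4, h5]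
    exact odd e (k.three hSix h.rel (k.av h.cnt (Or.inl (by rw [h3, h4]))
      (Or.inl (by rw [h2]; exact one_dvd _))) e hC)
  · -- k = 2, μ = 2, c = 1, α = 1, β = 1
    have e : α + β * U.card = 3 := by rw [h1, h4, h5]
    exact odd e (k.three hSix h.rel (k.av h.cnt (Or.inr (by omega))
      (Or.inl (by rw [h2, h5]))) e hC)
  · -- k = 3, μ = 1, c ≤ 2, α = 1, β = 1
    exact dbl (k.four h.rel (k.av h.cnt (Or.inr h4) (Or.inl (by rw [h2]; exact one_dvd _)))
      (by rw [h1, h5, h6]) hC)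
  · -- k = 4, μ = 1, c = 1, α = 2, β = 1
    exact dbl (k.six hSix h.rel (k.av h.cnt (Or.inr (by omega))
      (Or.inl (by rw [h2]; exact one_dvd _))) (by rw [h1, h4, h5]) hC)

end Pool.Agent.Lib.MP81632f.Mk.P
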