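import Pool.Agent.Lib.MP_81632f_ag.Mk.P.Stmts34

/-! # Auxiliary lemmas -/

namespace Pool.Agent.Lib.MP81632f.Mk.P

open NumberField IsDedekindDomain
open scoped Classical

variable {L : Type} [Field L] [NumberField L]
variable {p e r : ℕ} {v : HeightOneSpectrum (𝓞 L)} {m t u w : Multiset L}

omit [NumberField L] in
theorem kk_add (u w : Multiset L) (a : L) : kk r (u + w) a = kk r u a + kk r w a := by
  unfold kk
  rw [Multiset.count_add, Multiset.count_add]
  push_cast
  ring

omit [NumberField L] in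
theorem kk_nsmul (n : ℕ) (u : Multiset L) (a : L) : kk r (n • u) a = n * kk r u a := by
  unfold kk
  rw [Multiset.count_nsmul, Multiset.count_nsmul]
  push_cast
  ring

theorem bal_nsmul (n : ℕ) (h : Bal r u) : Bal r (n • u) := by
  induction n with
  | zero => rw [zero_smul]; exact bal_zero
  | succ n ih => rw [succ_nsmul]; exact ih.add h

theorem nsmul_mem {C : Set (Multiset L)} (hC : CycleFamily r v C) (n : ℕ) (h : u ∈ C) :
    n • u ∈ C := by
  induction n with
  | zero => rw [zero_smul]; exact hC.zero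
  | succ n ih => rw [succ_nsmul]; exact hC.add _ _ ih h

omit [NumberField L] in
theorem mem_of_nsmul {n : ℕ} {x : L} (h : x ∈ n • u) : x ∈ u := by
  rw [← Multiset.count_pos, Multiset.count_nsmul] at h
  rw [← Multiset.count_pos]
  exact Nat.pos_of_ne_zero (fun h0 => by rw [h0, mul_zero] at h; exact lt_irrefl _ h)

theorem XS_nsmul (n : ℕ) (u : Multiset L) (g : L ≃ₐ[ℚ] L) : XS r v (n • u) g = n * XS r v u g := by
  induction n with
  | zero => rw [zero_smul, XS_zero]; simp
  | succ n ih => rw [succ_nsmul, XS_add, ih]; push_cast; ring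

theorem ctx_filter (h : Ctx p e r v m) (P : L → Prop)
    (hP : ∀ (g : L ≃ₐ[ℚ] L) (a : L), P (g a) ↔ P a) : Ctx p e r v (m.filter P) where
  hr := h.hr
  he := h.he
  hp := h.hp
  hv := h.hv
  hA := h.hA.filter P hP
  hss a ha := h.hss a (Multiset.mem_filter.1 ha).1
  hsep a ha b hb := h.hsep a (Multiset.mem_filter.1 ha).1 b (Multiset.mem_filter.1 hb).1

theorem exc_mono {m' : Multiset L} (hm : ∀ a ∈ m', a ∈ m) (h : Exc r m') : Exc r m := by
  obtain ⟨y, hy, b, hb, h'⟩ := h
  exact ⟨y, hm y hy, b, hm b hb, h'⟩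

theorem conjs_apply (g : L ≃ₐ[ℚ] L) (a : L) : conjs (g a) = conjs a := by
  ext x
  rw [Ctx.mem_conjs, Ctx.mem_conjs]
  constructor
  · rintro ⟨k, rfl⟩
    exact ⟨k * g, rfl⟩
  · rintro ⟨k, rfl⟩
    refine ⟨k * g⁻¹, ?_⟩
    show k (g⁻¹ (g a)) = k a
    congr 1
    exact AlgEquiv.symm_apply_apply g a

theorem mem_conjs_symm {a b : L} (h : b ∈ conjs a) : a ∈ conjs b := by
  obtain ⟨g, rfl⟩ := Ctx.mem_conjs.1 h
  rw [conjs_apply]
  exact Ctx.mem_conjs.2 ⟨1, rfl⟩

theorem conjs_eq {a b : L} (h : b ∈ conjs a) : conjs b = conjs a := by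
  obtain ⟨g, rfl⟩ := Ctx.mem_conjs.1 h
  exact conjs_apply g a

theorem self_conjs (a : L) : a ∈ conjs a := Ctx.mem_conjs.2 ⟨1, rfl⟩

/-- invariance of membership in the conjugates -/
theorem mem_conjs_apply (g : L ≃ₐ[ℚ] L) (a b : L) : g b ∈ conjs a ↔ b ∈ conjs a := by
  constructor
  · intro h
    have h1 := conjs_eq h
    rw [← h1, conjs_apply]
    exact self_conjs b
  · intro h
    rw [← conjs_eq h]
    exact conjs_map b g

variable [IsGalois ℚ L]

theorem bar_mem_conjs (h : Ctx p e r v m) {a b : L} (ha : a ∈ m) :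
    (r : L) ^ 2 / b ∈ conjs a ↔ b ∈ conjs a := by
  constructor
  · intro hb
    have h1 := KCtx.bar_conj h ha hb
    rwa [bb h.r_pos] at h1
  · exact fun hb => KCtx.bar_conj h ha hb

/-- counting a set of elements of `m` -/
theorem sum_count_le (Z : Finset L) : ∑ b ∈ Z, m.count b ≤ m.card := by
  rw [← Multiset.toFinset_sum_count_eq]
  have h1 : ∑ b ∈ Z, m.count b = ∑ b ∈ Z ∩ m.toFinset, m.count b := by
    symm
    apply Finset.sum_subset Finset.inter_subset_left
    intro x hx hx'
    apply Multiset.count_eq_zero_of_notMem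
    intro hxm
    exact hx' (Finset.mem_inter.2 ⟨hx, Multiset.mem_toFinset.2 hxm⟩)
  rw [h1]
  exact Finset.sum_le_sum_of_subset Finset.inter_subset_right

/-- the conjugates come in pairs -/
theorem even_conjs (h : Ctx p e r v m) {a : L} (ha : a ∈ m) : Even (conjs a).card := by
  have hmem : ∀ b ∈ conjs a, b ∈ m := by
    intro b hb
    obtain ⟨g, rfl⟩ := Ctx.mem_conjs.1 hb
    exact h.hA.mem_map g ha
  have h1 : ∑ b ∈ conjs a, (1 : ZMod 2) = 0 := by
    refine Finset.sum_involution (fun b _ => (r : L) ^ 2 / b) ?_ ?_ ?_ ?_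
    · intro b _
      decide
    · intro b hb _
      exact h.bar_ne (hmem b hb)
    · intro b hb
      exact KCtx.bar_conj h ha hb
    · intro b _
      exact bb h.r_pos b
  rw [Finset.sum_const, nsmul_eq_mul, mul_one] at h1
  exact (ZMod.natCast_eq_zero_iff_even).1 h1

end Pool.Agent.Lib.MP81632f.Mk.P
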