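import Pool.Agent.Lib.MP_81632f_ag.Mk.P.A3_40
import Pool.Agent.Lib.MP_81632f_ag.Mk.P.Aux34

/-! # (A4a) multiples of the relation of a block -/

namespace Pool.Agent.Lib.MP81632f.Mk.P

open NumberField IsDedekindDomain
open scoped Classical

open A3h40

namespace A4ah40

variable {L : Type} [Field L] [NumberField L]

theorem tab_dvd {c k μ α β A : ℕ} (h : Tab c k μ α β) (hA : α ∣ A * β) : α ∣ A := by
  rcases h with ⟨_, _, _, _, rfl, rfl⟩ | ⟨_, _, _, rfl, rfl⟩ | ⟨_, _, _, _, rfl, rfl⟩ |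
    ⟨_, _, _, rfl, rfl⟩ | ⟨_, _, _, rfl, rfl⟩ | ⟨_, _, _, _, rfl, rfl⟩ | ⟨_, _, _, rfl, rfl⟩
  · exact one_dvd _
  · exact one_dvd _
  · rwa [mul_one] at hA
  · rwa [mul_one] at hA
  · exact one_dvd _
  · exact one_dvd _
  · rwa [mul_one] at hA

theorem tab_pos {c k μ α β : ℕ} (h : Tab c k μ α β) : 0 < k ∧ 0 < α := by
  unfold Tab at h
  omega

omit [NumberField L] in
theorem nsmul_TT (n : ℕ) (a : L) (U : Finset L) (α β : ℕ) :
    n • TT a U α β = TT a U (n * α) (n * β) := by
  unfold TT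
  rw [smul_add, smul_smul, Multiset.nsmul_replicate]

end A4ah40

open A4ah40

theorem stA4a_40 (hA3 : StA3) : StA4a := by
  intro L _ _ _ p e r v m t a U μ α β h hT hat hev hk C hC
  have k : Bk p e r v m a U := ⟨h.h, h.ha, h.h2, h.blk⟩
  have hr := h.h.r_pos
  obtain ⟨hrel, hmem⟩ := hA3 L p e r v m a U μ α β h
  obtain ⟨hTT, hE⟩ := hmem C hC
  obtain ⟨hk0, hα0⟩ := tab_pos h.tab
  obtain ⟨b, hb⟩ := Finset.card_pos.1 hk0
  -- the multiplicity
  have hdvd : α ∣ t.count a := by
    apply tab_dvd h.tab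
    have h1 := hk b
    have h2 : kk r (TT a U α β) b = β := by
      unfold kk
      rw [count_TT_b k.not hb]
      have h3 : (TT a U α β).count ((r : L) ^ 2 / b) = 0 := by
        apply Multiset.count_eq_zero_of_notMem
        intro h'
        rcases mem_TT h' with h4 | h4
        · apply k.not'
          rw [← h4, bb hr]
          exact hb
        · exact k.blk.disj b hb h4
      rw [h3]
      simp
    rw [h2] at h1
    have h3 : (α : ℤ) ∣ (t.count a * β : ℕ) := ⟨kk r t b, by push_cast; rw [h1]⟩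
    exact_mod_cast h3
  obtain ⟨n, hn⟩ := hdvd
  have heq : t = n • TT a U α β := by
    have hsub : ∀ x ∈ n • TT a U α β, x ∈ m := fun x hx => hrel.sub x (mem_of_nsmul hx)
    apply Ctx.eq_of_kk h.h hT.red _ hT.sub hsub
    · intro x _
      rw [kk_nsmul]
      have h1 := hk x
      rw [hn] at h1
      push_cast at h1
      have hα : (α : ℤ) ≠ 0 := by exact_mod_cast hα0.ne'
      apply mul_left_cancel₀ hα
      rw [h1]
      ring
    · rw [nsmul_TT]
      exact k.red _ _
  by_cases hev' : Even (TT a U α β).card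
  · rw [heq]
    exact nsmul_mem hC.old n (hE hev')
  · have hn2 : Even n := by
      rw [heq, Multiset.card_nsmul] at hev
      exact (Nat.even_mul.1 hev).resolve_right hev'
    obtain ⟨j, hj⟩ := hn2
    have e : n • TT a U α β = j • (TT a U α β + TT a U α β) := by
      rw [hj, add_smul, smul_add]
    rw [heq, e]
    exact nsmul_mem hC.old j hTT

end Pool.Agent.Lib.MP81632f.Mk.P
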