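import Pool.Agent.Lib.MP_81632f_ag.Mk.P.Stmts34

/-! # (A4b): a relation not containing `a` -/

namespace Pool.Agent.Lib.MP81632f.Mk.P

open NumberField IsDedekindDomain
open scoped Classical

namespace A4b33

variable {L : Type} [Field L] [NumberField L] [IsGalois ℚ L]
variable {p e r : ℕ} {v : HeightOneSpectrum (𝓞 L)} {m w : Multiset L} {a : L} {U : Finset L}
  {μ α β : ℕ}

omit [IsGalois ℚ L] in
/-- in one of the pairs of the block -/
def InO (r : ℕ) (U : Finset L) (b : L) : Prop := b ∈ U ∨ (r : L) ^ 2 / b ∈ U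

omit [IsGalois ℚ L] in
theorem InO.bar (hr : 0 < r) {b : L} (h : InO r U b) : InO r U ((r : L) ^ 2 / b) := by
  rcases h with h | h
  · right
    rwa [bb hr]
  · exact Or.inl h

omit [IsGalois ℚ L] in
theorem InO.of_bar (hr : 0 < r) {b : L} (h : InO r U ((r : L) ^ 2 / b)) : InO r U b := by
  have := h.bar hr
  rwa [bb hr] at this

omit [IsGalois ℚ L] in
theorem InO.map (hr : 0 < r) (hB : Blk r v m a U) {b : L} (h : InO r U b) (g : L ≃ₐ[ℚ] L) :
    InO r U (g b) := by
  rcases h with h | h
  · by_cases hg : g a = a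
    · exact Or.inl (hB.fix g hg b h)
    · exact Or.inr (hB.flip g hg b h)
  · by_cases hg : g a = a
    · right
      rw [← map_bar]
      exact hB.fix g hg _ h
    · left
      have := hB.flip g hg _ h
      rwa [map_bar, bb hr] at this

omit [IsGalois ℚ L] in
theorem inv_map {g : L ≃ₐ[ℚ] L} (b : L) : g⁻¹ (g b) = b := AlgEquiv.symm_apply_apply g b

omit [IsGalois ℚ L] in
theorem not_InO_map (hr : 0 < r) (hB : Blk r v m a U) {b : L} (h : ¬ InO r U b) (g : L ≃ₐ[ℚ] L) :
    ¬ InO r U (g b) := by
  intro h'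
  have := h'.map hr hB g⁻¹
  rw [inv_map] at this
  exact h this

omit [IsGalois ℚ L] in
theorem not_conjs_map {b : L} (h : b ∉ conjs a) (g : L ≃ₐ[ℚ] L) : g b ∉ conjs a := by
  intro h'
  obtain ⟨k, hk⟩ := Ctx.mem_conjs.1 h'
  apply h
  rw [Ctx.mem_conjs]
  refine ⟨g⁻¹ * k, ?_⟩
  show g⁻¹ (k a) = b
  rw [hk, inv_map]

theorem not_conjs_bar (h : Ctx p e r v m) (ha : a ∈ m) {b : L} (hb : b ∉ conjs a) :
    (r : L) ^ 2 / b ∉ conjs a := by
  intro h'
  apply hb
  have := KCtx.bar_conj h ha h'
  rwa [bb h.r_pos] at this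

/-- not a conjugate of `a` -/
def NCj (a b : L) : Prop := b ∉ conjs a

/-- `m` without the conjugates of `a` -/
theorem ctx' (h : Ctx p e r v m) : Ctx p e r v (m.filter (NCj a)) := by
  refine ⟨h.hr, h.he, h.hp, h.hv, h.hA.filter (NCj a) ?_, fun x hx => h.hss x (Multiset.mem_filter.1 hx).1,
    fun x hx y hy => h.hsep x (Multiset.mem_filter.1 hx).1 y (Multiset.mem_filter.1 hy).1⟩
  intro g b
  constructor
  · intro h1 h2
    obtain ⟨k, hk⟩ := Ctx.mem_conjs.1 h2
    apply h1
    rw [Ctx.mem_conjs]
    exact ⟨g * k, congrArg g hk⟩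
  · intro h1
    exact not_conjs_map h1 g

/-- counting on disjoint sets -/
theorem tot (h : BT p e r v m a U μ α β) (Z : Finset L)
    (hZ : ∀ z ∈ Z, z ∈ m ∧ z ∉ conjs a ∧ ¬ InO r U z) :
    2 * m.count a + 2 * (U.card * μ) + ∑ z ∈ Z, m.count z ≤ 10 := by
  have hr := h.h.r_pos
  set Ub := U.image fun b => (r : L) ^ 2 / b with hUb
  have mUb : ∀ x, x ∈ Ub ↔ (r : L) ^ 2 / x ∈ U := by
    intro x
    rw [hUb, Finset.mem_image]
    constructor
    · rintro ⟨y, hy, rfl⟩
      rwa [bb hr]
    · intro hx
      exact ⟨_, hx, bb hr x⟩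
  have s1 : ∑ x ∈ conjs a, m.count x = 2 * m.count a := by
    rw [Finset.sum_congr rfl (fun b hb => h.h.count_of_conjs hb), Finset.sum_const, smul_eq_mul, h.h2]
  have s2 : ∑ x ∈ U, m.count x = U.card * μ := by
    rw [Finset.sum_congr rfl (fun b hb => h.cnt b hb), Finset.sum_const, smul_eq_mul]
  have s3 : ∑ x ∈ Ub, m.count x = U.card * μ := by
    rw [hUb, Finset.sum_image (fun x _ y _ hxy => bar_injective hr hxy), ← s2]
    exact Finset.sum_congr rfl fun b hb => h.h.hA.count_bar hr (h.h.weil (h.blk.mem b hb))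
  have d1 : Disjoint (conjs a) U := by
    rw [Finset.disjoint_left]
    intro x hx hx'
    exact h.blk.ne x hx' hx
  have d2 : Disjoint (conjs a ∪ U) Ub := by
    rw [Finset.disjoint_left]
    intro x hx hx'
    rw [mUb] at hx'
    rcases Finset.mem_union.1 hx with h1 | h1
    · exact h.blk.ne _ hx' (KCtx.bar_conj h.h h.ha h1)
    · exact h.blk.disj _ h1 hx'
  have d3 : Disjoint (conjs a ∪ U ∪ Ub) Z := by
    rw [Finset.disjoint_left]
    intro x hx hx'
    obtain ⟨_, h1, h2⟩ := hZ x hx'
    rcases Finset.mem_union.1 hx with h3 | h3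
    · rcases Finset.mem_union.1 h3 with h4 | h4
      · exact h1 h4
      · exact h2 (Or.inl h4)
    · exact h2 (Or.inr ((mUb x).1 h3))
  have hsub : conjs a ∪ U ∪ Ub ∪ Z ⊆ m.toFinset := by
    intro x hx
    rw [Multiset.mem_toFinset]
    rcases Finset.mem_union.1 hx with h1 | h1
    · rcases Finset.mem_union.1 h1 with h2 | h2
      · rcases Finset.mem_union.1 h2 with h3 | h3
        · obtain ⟨g, rfl⟩ := Ctx.mem_conjs.1 h3
          exact h.h.hA.mem_map g h.ha
        · exact h.blk.mem x h3
      · have := h.h.bar_mem (h.blk.mem _ ((mUb x).1 h2))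
        rwa [bb hr] at this
    · exact (hZ x h1).1
  have h1 := Finset.sum_le_sum_of_subset (f := fun x => m.count x) hsub
  rw [Multiset.toFinset_sum_count_eq, Finset.sum_union d3, Finset.sum_union d2, Finset.sum_union d1,
    s1, s2, s3] at h1
  have h2 := h.hc
  omega

omit [IsGalois ℚ L] in
theorem tab4 {c k μ α β : ℕ} (h : Tab c k μ α β) :
    4 ≤ c + k * μ ∧ 0 < α ∧ 0 < β ∧ (c + k * μ = 4 → c = 1 ∨ (k = 1 ∧ μ = 1)) ∧
      (k = 2 → c + k * μ = 5) ∧ (k = 4 → c + k * μ = 5) ∧ (k = 1 ∨ k = 2 ∨ k = 3 ∨ k = 4) := by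
  unfold Tab at h
  rcases h with ⟨rfl, rfl, h1, h2, rfl, rfl⟩ | ⟨rfl, rfl, rfl, rfl, rfl⟩ |
    ⟨rfl, h1, h2, rfl, rfl, rfl⟩ | ⟨rfl, rfl, rfl, rfl, rfl⟩ | ⟨rfl, rfl, rfl, rfl, rfl⟩ |
    ⟨rfl, rfl, h1, h2, rfl, rfl⟩ | ⟨rfl, rfl, rfl, rfl, rfl⟩ <;> omega

/-- other elements -/
theorem other (h : BT p e r v m a U μ α β) {z : L} (hz : z ∈ m) (hz1 : z ∉ conjs a)
    (hz2 : ¬ InO r U z) :
    m.count z = 1 ∧ m.count a + U.card * μ = 4 ∧ (conjs z).card = 2 ∧
      ∀ x ∈ m, x ∉ conjs a → ¬ InO r U x → x = z ∨ x = (r : L) ^ 2 / z := by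
  have hr := h.h.r_pos
  have hbz := h.h.bar_mem hz
  have hne := h.h.bar_ne hz
  have t4 := (tab4 h.tab).1
  have nb1 := not_conjs_bar h.h h.ha hz1
  have nb2 : ¬ InO r U ((r : L) ^ 2 / z) := fun h' => hz2 (h'.of_bar hr)
  have hcb := h.h.hA.count_bar hr (h.h.weil hz)
  have hcz := Multiset.count_pos.2 hz
  have h1 := tot h {z, (r : L) ^ 2 / z} (by
    intro x hx
    rw [Finset.mem_insert, Finset.mem_singleton] at hx
    rcases hx with rfl | rfl
    · exact ⟨hz, hz1, hz2⟩
    · exact ⟨hbz, nb1, nb2⟩)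
  rw [Finset.sum_pair (Ne.symm hne), hcb] at h1
  have huniq : ∀ x ∈ m, x ∉ conjs a → ¬ InO r U x → x = z ∨ x = (r : L) ^ 2 / z := by
    intro x hx hx1 hx2
    by_contra hcon
    push Not at hcon
    have h2 := tot h {x, z, (r : L) ^ 2 / z} (by
      intro y hy
      rw [Finset.mem_insert, Finset.mem_insert, Finset.mem_singleton] at hy
      rcases hy with rfl | rfl | rfl
      · exact ⟨hx, hx1, hx2⟩
      · exact ⟨hz, hz1, hz2⟩
      · exact ⟨hbz, nb1, nb2⟩)
    rw [Finset.sum_insert (by
      rw [Finset.mem_insert, Finset.mem_singleton, not_or]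
      exact hcon), Finset.sum_pair (Ne.symm hne), hcb] at h2
    have := Multiset.count_pos.2 hx
    omega
  refine ⟨by omega, by omega, ?_, huniq⟩
  apply le_antisymm _ (two_le_conjs h.h hz)
  have hsub : conjs z ⊆ {z, (r : L) ^ 2 / z} := by
    intro x hx
    obtain ⟨g, rfl⟩ := Ctx.mem_conjs.1 hx
    rw [Finset.mem_insert, Finset.mem_singleton]
    exact huniq _ (h.h.hA.mem_map g hz) (not_conjs_map hz1 g) (not_InO_map hr h.blk hz2 g)
  exact (Finset.card_le_card hsub).trans Finset.card_le_two

/-- proportional slope functions of extreme elements -/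
theorem prop1 (h : Ctx p e r v m) {x y : L} (hx : x ∈ m) (hy : y ∈ m) (cx : m.count x = 1)
    (cy : m.count y = 1) (ox : (conjs x).card = 2) (oy : (conjs y).card = 2) {P R : ℤ} (hP : P ≠ 0)
    (hPR : ∀ g, P * X r v x g = R * X r v y g) : y = x ∨ y = (r : L) ^ 2 / x := by
  have ex := KCtx.extreme h hx cx (two_orb h hx ox)
  have ey := KCtx.extreme h hy cy (two_orb h hy oy)
  have hq := h.q_pos
  have h1 := hPR 1
  have hcase : X r v y 1 = X r v x 1 ∨ X r v y 1 = -X r v x 1 := by omega
  have hx0 : X r v x 1 ≠ 0 := by omega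
  rcases hcase with h2 | h2
  · left
    have hR : P = R := by
      rw [h2] at h1
      exact mul_right_cancel₀ hx0 h1
    apply h.inj hy hx
    ext g
    have h3 := hPR g
    rw [← hR] at h3
    exact (mul_left_cancel₀ hP h3).symm
  · right
    have hR : P = -R := by
      rw [h2] at h1
      have : P * X r v x 1 = (-R) * X r v x 1 := by rw [h1]; ring
      exact mul_right_cancel₀ hx0 this
    apply h.inj_bar hy hx
    ext g
    have h3 := hPR g
    rw [Pi.neg_apply]
    have h4 : P * X r v x g = P * (-X r v y g) := by rw [h3, hR]; ring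
    have h5 := mul_left_cancel₀ hP h4
    omega

/-- sums over a part -/
theorem sum_split (h : BT p e r v m a U μ α β) {S : Multiset L} (Z : Finset L)
    (hZ : ∀ z ∈ Z, ¬ InO r U z) (hcov : ∀ x ∈ S, InO r U x ∨ x ∈ Z) (f : L → ℤ) :
    (S.map f).sum = ∑ x ∈ U, ((S.count x : ℤ) * f x +
      (S.count ((r : L) ^ 2 / x) : ℤ) * f ((r : L) ^ 2 / x)) + ∑ z ∈ Z, (S.count z : ℤ) * f z := by
  have hr := h.h.r_pos
  set Ub := U.image fun b => (r : L) ^ 2 / b with hUb
  have mUb : ∀ x, x ∈ Ub ↔ (r : L) ^ 2 / x ∈ U := by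
    intro x
    rw [hUb, Finset.mem_image]
    constructor
    · rintro ⟨y, hy, rfl⟩
      rwa [bb hr]
    · intro hx
      exact ⟨_, hx, bb hr x⟩
  have d1 : Disjoint U Ub := by
    rw [Finset.disjoint_left]
    intro x hx hx'
    exact h.blk.disj _ hx ((mUb x).1 hx')
  have d2 : Disjoint (U ∪ Ub) Z := by
    rw [Finset.disjoint_left]
    intro x hx hx'
    apply hZ x hx'
    rcases Finset.mem_union.1 hx with h1 | h1
    · exact Or.inl h1
    · exact Or.inr ((mUb x).1 h1)
  have hsub : S.toFinset ⊆ U ∪ Ub ∪ Z := by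
    intro x hx
    rw [Finset.mem_union, Finset.mem_union, mUb]
    rcases hcov x (Multiset.mem_toFinset.1 hx) with h1 | h1
    · rcases h1 with h1 | h1
      · exact Or.inl (Or.inl h1)
      · exact Or.inl (Or.inr h1)
    · exact Or.inr h1
  rw [Finset.sum_multiset_map_count, Finset.sum_subset hsub (by
    intro x _ hx
    rw [Multiset.mem_toFinset] at hx
    rw [Multiset.count_eq_zero_of_notMem hx, zero_smul]), Finset.sum_union d2, Finset.sum_union d1,
    hUb, Finset.sum_image (fun x _ y _ hxy => bar_injective hr hxy), ← Finset.sum_add_distrib]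
  simp only [nsmul_eq_mul]

/-- one step -/
theorem step (h : BT p e r v m a U μ α β) (hex : ¬ Exc r m) (hw : Rel r m w) (h0 : w ≠ 0)
    (hwa : ∀ b ∈ w, b ∉ conjs a) : U.card = 4 ∧ ∃ S : Finset L, S.val ≤ w ∧ S.card = 4 ∧
      (∀ b ∈ S, b ∈ U ∨ (r : L) ^ 2 / b ∈ U) ∧ (S ∩ U).card = 2 ∧
      (∀ x ∈ m, x ∉ conjs a → x ∈ S ∨ (r : L) ^ 2 / x ∈ S) ∧ Bal r S.val ∧
      ∀ C : Set (Multiset L), CycleFamily r v C → S.val ∈ C := by
  have hr := h.h.r_pos
  have htab := tab4 h.tab
  have hc' : (m.filter (NCj a)).card ≤ 8 := by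
    have h1 : (conjs a).card ≤ (m.filter fun b => ¬ NCj a b).toFinset.card := by
      apply Finset.card_le_card
      intro x hx
      rw [Multiset.mem_toFinset, Multiset.mem_filter]
      refine ⟨?_, fun h' => h' hx⟩
      obtain ⟨g, rfl⟩ := Ctx.mem_conjs.1 hx
      exact h.h.hA.mem_map g h.ha
    have h2 := Multiset.toFinset_card_le (m.filter fun b => ¬ NCj a b)
    have h3 : (m.filter (NCj a)).card + (m.filter fun b => ¬ NCj a b).card = m.card := by
      rw [← Multiset.card_add, Multiset.filter_add_not]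
    have h4 := h.hc
    have h5 := h.h2
    omega
  obtain ⟨S, hS⟩ := exists_part (ctx' (a := a) h.h) hc' (by
    rintro ⟨y, hy, b, hb, g, h1⟩
    exact hex ⟨y, (Multiset.mem_filter.1 hy).1, b, (Multiset.mem_filter.1 hb).1, g, h1⟩) hw.red
    hw.bal (fun x hx => Multiset.mem_filter.2 ⟨hw.sub x hx, hwa x hx⟩) (Multiset.card_pos.2 h0)
  have hRS := hw.red.mono hS.le
  have h3 := hS.three
  have h4 := hS.four
  have mS : ∀ x ∈ S, x ∈ m := fun x hx => hw.sub x (Multiset.mem_of_le hS.le hx)
  have cS : ∀ x ∈ S, x ∉ conjs a := fun x hx => hwa x (Multiset.mem_of_le hS.le hx)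
  have hkt := fun g => ktype hr hRS hS.bal (by omega) hS.av.galois g
  have hXS := (bal_iff h.h.hr h.h.hp h.h.hv (fun x hx => h.h.weil (mS x hx))).1 hS.bal
  have cT : ∀ x, (S + bars r S).count x = S.count x + S.count ((r : L) ^ 2 / x) := by
    intro x
    rw [Multiset.count_add, count_bars hr]
  have gT : ∀ (g : L ≃ₐ[ℚ] L) (x : L), (S + bars r S).count (g x) = (S + bars r S).count x :=
    fun g x => hS.av.count_map g x
  have hmeet : ∃ b ∈ U, 0 < S.count b + S.count ((r : L) ^ 2 / b) := by
    by_contra hcon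
    push Not at hcon
    have hno : ∀ x ∈ S, ¬ InO r U x := by
      intro x hx hO
      have h1 := Multiset.count_pos.2 hx
      rcases hO with h2 | h2
      · have := hcon x h2
        omega
      · have := hcon _ h2
        rw [bb hr] at this
        omega
    obtain ⟨z, hz⟩ := Multiset.card_pos_iff_exists_mem.1 (show 0 < S.card by omega)
    obtain ⟨_, _, _, hu⟩ := other h (mS z hz) (cS z hz) (hno z hz)
    have hall : ∀ x ∈ S, x = z := by
      intro x hx
      rcases hu x (mS x hx) (cS x hx) (hno x hx) with h1 | h1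
      · exact h1
      · exact absurd (h1 ▸ hx) (hRS.bar_notMem hr hz)
    have hrep := Multiset.eq_replicate_of_mem hall
    apply h.h.Xne (mS z hz)
    ext g
    have h1 := hXS g
    rw [hrep] at h1
    unfold XS at h1
    rw [Multiset.map_replicate, Multiset.sum_replicate, nsmul_eq_mul] at h1
    have h2 : ((S.card : ℕ) : ℤ) ≠ 0 := by omega
    exact (mul_eq_zero.1 h1).resolve_left h2
  obtain ⟨b0, hb0, hn0⟩ := hmeet
  obtain ⟨n0, hn0e⟩ : ∃ n0, S.count b0 + S.count ((r : L) ^ 2 / b0) = n0 := ⟨_, rfl⟩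
  have hn : ∀ b ∈ U, S.count b + S.count ((r : L) ^ 2 / b) = n0 := by
    intro b hb
    obtain ⟨g, _, rfl⟩ := h.blk.trans b0 hb0 b hb
    rw [← cT, gT, cT, hn0e]
  rw [hn0e] at hn0
  have hred : ∀ x, S.count x = 0 ∨ S.count ((r : L) ^ 2 / x) = 0 := Ctx.red_or hr hRS
  by_cases hflip : ∃ g0 : L ≃ₐ[ℚ] L, g0 a = a ∧ S.map g0 = bars r S
  · obtain ⟨g0, hg0, hg1⟩ := hflip
    obtain ⟨A, hA⟩ : ∃ A, A = U.filter (fun b => b ∈ S) := ⟨_, rfl⟩
    obtain ⟨B, hB⟩ : ∃ B, B = U.filter (fun b => (r : L) ^ 2 / b ∈ S) := ⟨_, rfl⟩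
    have mA : ∀ x, x ∈ A ↔ x ∈ U ∧ x ∈ S := by
      intro x
      rw [hA, Finset.mem_filter]
    have mB : ∀ x, x ∈ B ↔ x ∈ U ∧ (r : L) ^ 2 / x ∈ S := by
      intro x
      rw [hB, Finset.mem_filter]
    have hAB : A ∪ B = U := by
      ext b
      rw [Finset.mem_union, mA, mB]
      constructor
      · rintro (h1 | h1)
        · exact h1.1
        · exact h1.1
      · intro hb
        have h1 := hn b hb
        by_cases h2 : b ∈ S
        · exact Or.inl ⟨hb, h2⟩
        · right
          refine ⟨hb, ?_⟩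
          rw [Multiset.count_eq_zero_of_notMem h2] at h1
          rw [← Multiset.count_pos]
          omega
    have hABd : Disjoint A B := by
      rw [Finset.disjoint_left]
      intro x hx hx'
      exact hRS.bar_notMem hr ((mA x).1 hx).2 ((mB x).1 hx').2
    have mapS : ∀ x ∈ S, (r : L) ^ 2 / g0 x ∈ S := by
      intro x hx
      have h1 : g0 x ∈ S.map g0 := Multiset.mem_map_of_mem _ hx
      rw [hg1, mem_bars hr] at h1
      exact h1
    have hle1 : A.card ≤ B.card := by
      apply Finset.card_le_card_of_injOn g0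
      · intro x hx
        have hx' := (mA x).1 hx
        exact (mB _).2 ⟨h.blk.fix g0 hg0 x hx'.1, mapS x hx'.2⟩
      · exact g0.injective.injOn
    have hle2 : B.card ≤ A.card := by
      apply Finset.card_le_card_of_injOn g0
      · intro x hx
        have hx' := (mB x).1 hx
        refine (mA _).2 ⟨h.blk.fix g0 hg0 x hx'.1, ?_⟩
        have := mapS _ hx'.2
        rwa [map_bar, bb hr] at this
      · exact g0.injective.injOn
    have hk : U.card = A.card + B.card := by
      rw [← Finset.card_union_of_disjoint hABd, hAB]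
    have hk24 : U.card = 2 ∨ U.card = 4 := by
      have := htab.2.2.2.2.2.2
      omega
    have h5 : m.count a + U.card * μ = 5 := by
      rcases hk24 with h1 | h1
      · exact htab.2.2.2.2.1 h1
      · exact htab.2.2.2.2.2.1 h1
    have hall : ∀ x ∈ m, x ∉ conjs a → InO r U x := by
      intro x hx hx1
      by_contra hx2
      have := (other h hx hx1 hx2).2.1
      omega
    have hsplit := sum_split h (S := S) ∅ (by simp)
      (fun x hx => Or.inl (hall x (mS x hx) (cS x hx)))
    have cA : ∀ x ∈ A, S.count x = n0 ∧ S.count ((r : L) ^ 2 / x) = 0 := by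
      intro x hx
      have hx' := (mA x).1 hx
      have h1 := hn x hx'.1
      have h2 : S.count ((r : L) ^ 2 / x) = 0 :=
        Multiset.count_eq_zero_of_notMem (hRS.bar_notMem hr hx'.2)
      omega
    have cB : ∀ x ∈ B, S.count x = 0 ∧ S.count ((r : L) ^ 2 / x) = n0 := by
      intro x hx
      have hx' := (mB x).1 hx
      have h1 := hn x hx'.1
      have h2 : S.count x = 0 := by
        have := hRS.bar_notMem hr hx'.2
        rw [bb hr] at this
        exact Multiset.count_eq_zero_of_notMem this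
      omega
    rcases hk24 with hk2 | hk4
    · exfalso
      obtain ⟨x1, hx1⟩ := Finset.card_eq_one.1 (show A.card = 1 by omega)
      obtain ⟨x2, hx2⟩ := Finset.card_eq_one.1 (show B.card = 1 by omega)
      have mx1 : x1 ∈ A := by rw [hx1]; exact Finset.mem_singleton_self _
      have mx2 : x2 ∈ B := by rw [hx2]; exact Finset.mem_singleton_self _
      have m2 := h.blk.mem x2 ((mB x2).1 mx2).1
      have e1 : x1 = x2 := by
        apply h.h.inj (h.blk.mem x1 ((mA x1).1 mx1).1) m2
        ext g
        have h1 := hsplit (fun x => X r v x g)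
        have h2 := hXS g
        unfold XS at h2
        rw [h2, Finset.sum_empty, add_zero, ← hAB, Finset.sum_union hABd, hx1, hx2,
          Finset.sum_singleton, Finset.sum_singleton, (cA x1 mx1).1, (cA x1 mx1).2, (cB x2 mx2).1,
          (cB x2 mx2).2, h.h.Xbar m2, Pi.neg_apply] at h1
        have hn0' : (n0 : ℤ) ≠ 0 := by omega
        apply mul_left_cancel₀ hn0'
        push_cast at h1
        linarith
      exact Finset.disjoint_left.1 hABd mx1 (e1 ▸ mx2)
    · have hcard : (S.card : ℤ) = 4 * n0 := by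
        have h1 := hsplit (fun _ => 1)
        have h2 : (S.map fun _ => (1 : ℤ)).sum = S.card := by
          rw [Multiset.map_const', Multiset.sum_replicate, nsmul_eq_mul, mul_one]
        rw [h2, Finset.sum_empty, add_zero] at h1
        rw [h1]
        have h6 : ∀ x ∈ U, ((S.count x : ℤ) * 1 + (S.count ((r : L) ^ 2 / x) : ℤ) * 1) = n0 := by
          intro x hx
          rw [← hn x hx]
          push_cast
          ring
        rw [Finset.sum_congr rfl h6, Finset.sum_const, hk4, nsmul_eq_mul]
        norm_num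
      have hn1 : n0 = 1 := by omega
      have hS4 : S.card = 4 := by omega
      have hnd : S.Nodup := by
        rw [Multiset.nodup_iff_count_le_one]
        intro x
        by_cases hx : x ∈ S
        · rcases hall x (mS x hx) (cS x hx) with h1 | h1
          · have := hn x h1
            omega
          · have := hn _ h1
            rw [bb hr] at this
            omega
        · rw [Multiset.count_eq_zero_of_notMem hx]
          omega
      have hval : S.toFinset.val = S := by
        rw [Multiset.toFinset_val]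
        exact Multiset.dedup_eq_self.2 hnd
      refine ⟨hk4, S.toFinset, ?_⟩
      rw [hval]
      refine ⟨hS.le, ?_, ?_, ?_, ?_, hS.bal, ?_⟩
      · rw [Multiset.toFinset_card_of_nodup hnd, hS4]
      · intro b hb
        rw [Multiset.mem_toFinset] at hb
        exact hall b (mS b hb) (cS b hb)
      · have : S.toFinset ∩ U = A := by
          ext x
          rw [Finset.mem_inter, Multiset.mem_toFinset, mA]
          exact and_comm
        rw [this]
        omega
      · intro x hx hx1
        rw [Multiset.mem_toFinset, Multiset.mem_toFinset, ← Multiset.count_pos,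
          ← Multiset.count_pos]
        rcases hall x hx hx1 with h1 | h1
        · have := hn x h1
          omega
        · have := hn _ h1
          rw [bb hr] at this
          omega
      · intro C hC
        exact (ktype_mem hr h.h.rho_pos hC hRS hS.bal hS.av h3 (by omega)).1 hS4
  · exfalso
    have hfix : ∀ g : L ≃ₐ[ℚ] L, g a = a → S.map g = S := fun g hg =>
      (hkt g).resolve_right (fun h' => hflip ⟨g, hg, h'⟩)
    obtain ⟨κ, hκ⟩ : ∃ κ : ℤ, (S.count b0 : ℤ) - S.count ((r : L) ^ 2 / b0) = κ := ⟨_, rfl⟩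
    have hkk : ∀ b ∈ U, (S.count b : ℤ) - S.count ((r : L) ^ 2 / b) = κ := by
      intro b hb
      obtain ⟨g, hg, rfl⟩ := h.blk.trans b0 hb0 b hb
      have hcg : ∀ x, S.count (g x) = S.count x := by
        intro x
        conv_lhs => rw [← hfix g hg]
        exact Multiset.count_map_eq_count' g S g.injective x
      rw [← map_bar, hcg, hcg, hκ]
    have hκ0 : κ ≠ 0 := by
      rcases hred b0 with h2 | h2 <;> omega
    have hblock : ∀ g, ∑ x ∈ U, ((S.count x : ℤ) * X r v x g +
        (S.count ((r : L) ^ 2 / x) : ℤ) * X r v ((r : L) ^ 2 / x) g) = κ * ∑ x ∈ U, X r v x g := by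
      intro g
      rw [Finset.mul_sum]
      apply Finset.sum_congr rfl
      intro x hx
      rw [h.h.Xbar (h.blk.mem x hx), Pi.neg_apply, ← hkk x hx]
      ring
    by_cases hz : ∃ z ∈ m, z ∉ conjs a ∧ ¬ InO r U z
    · obtain ⟨z, mz, z1, z2⟩ := hz
      obtain ⟨cz, c4, oz, hu⟩ := other h mz z1 z2
      obtain ⟨ζ, hζ⟩ : ∃ ζ : ℤ, (S.count z : ℤ) - S.count ((r : L) ^ 2 / z) = ζ := ⟨_, rfl⟩
      have hrel : ∀ g, κ * ∑ x ∈ U, X r v x g + ζ * X r v z g = 0 := by
        intro g
        have h1 := sum_split h (S := S) {z, (r : L) ^ 2 / z} (by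
          intro x hx
          rw [Finset.mem_insert, Finset.mem_singleton] at hx
          rcases hx with rfl | rfl
          · exact z2
          · exact fun h' => z2 (h'.of_bar hr)) (by
          intro x hx
          rw [Finset.mem_insert, Finset.mem_singleton]
          by_cases hO : InO r U x
          · exact Or.inl hO
          · exact Or.inr (hu x (mS x hx) (cS x hx) hO)) (fun x => X r v x g)
        have h2 := hXS g
        unfold XS at h2
        rw [h2, hblock g, Finset.sum_pair (Ne.symm (h.h.bar_ne mz)), h.h.Xbar mz,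
          Pi.neg_apply] at h1
        rw [← hζ]
        linarith
      rcases htab.2.2.2.1 c4 with hc1 | ⟨hk1, hμ1⟩
      · have hα : (α : ℤ) * κ ≠ 0 := mul_ne_zero (by have := htab.2.1; omega) hκ0
        have hP := prop1 h.h h.ha mz hc1 cz h.h2 oz (P := (α : ℤ) * κ) (R := (β : ℤ) * ζ) hα
          (fun g => by
            have e1 := h.rel g
            have e2 := hrel g
            linear_combination κ * e1 - (β : ℤ) * e2)
        apply z1
        rcases hP with rfl | rfl
        · exact Ctx.mem_conjs.2 ⟨1, rfl⟩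
        · exact KCtx.bar_conj h.h h.ha (Ctx.mem_conjs.2 ⟨1, rfl⟩)
      · obtain ⟨b1, hU⟩ := Finset.card_eq_one.1 hk1
        have hb1 : b0 = b1 := by
          rw [hU, Finset.mem_singleton] at hb0
          exact hb0
        subst hb1
        have mb := h.blk.mem b0 hb0
        have ob : (conjs b0).card = 2 := by
          apply le_antisymm _ (two_le_conjs h.h mb)
          have hsub : conjs b0 ⊆ {b0, (r : L) ^ 2 / b0} := by
            intro x hx
            obtain ⟨g, rfl⟩ := Ctx.mem_conjs.1 hx
            rw [Finset.mem_insert, Finset.mem_singleton]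
            by_cases hg : g a = a
            · left
              have := h.blk.fix g hg b0 hb0
              rwa [hU, Finset.mem_singleton] at this
            · right
              have := h.blk.flip g hg b0 hb0
              rw [hU, Finset.mem_singleton] at this
              have h7 := congrArg (fun y => (r : L) ^ 2 / y) this
              simp only [bb hr] at h7
              exact h7
          exact (Finset.card_le_card hsub).trans Finset.card_le_two
        have hP := prop1 h.h mb mz (by rw [h.cnt b0 hb0, hμ1]) cz ob oz (P := κ) (R := -ζ) hκ0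
          (fun g => by
            have e2 := hrel g
            rw [hU, Finset.sum_singleton] at e2
            linarith)
        apply z2
        rcases hP with rfl | rfl
        · exact Or.inl hb0
        · right
          rwa [bb hr]
    · push Not at hz
      have h1 := sum_split h (S := S) ∅ (by simp)
        (fun x hx => Or.inl (hz x (mS x hx) (cS x hx))) (fun x => X r v x 1)
      have h2 := hXS 1
      unfold XS at h2
      rw [h2, hblock 1, Finset.sum_empty, add_zero] at h1
      rcases mul_eq_zero.1 h1.symm with h6 | h6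
      · exact hκ0 h6
      · exact h.blk.sum h6

end A4b33

open A4b33 in
/-- **(A4b)** -/
theorem stA4b_33 : StA4b := by
  intro L _ _ _ p e r v m w a U μ α β h hex hw h0 hwa
  have hr := h.h.r_pos
  suffices H : ∀ (n : ℕ) (w : Multiset L), w.card = n → Rel r m w → w ≠ 0 →
      (∀ b ∈ w, b ∉ conjs a) →
      U.card = 4 ∧ ∃ (ν : ℕ) (S : Finset L), w = ν • S.val ∧ S.card = 4 ∧ 0 < ν ∧
        (∀ b ∈ S, b ∈ U ∨ (r : L) ^ 2 / b ∈ U) ∧ (S ∩ U).card = 2 ∧
        ∀ C : Set (Multiset L), CycleFamily r v C → S.val ∈ C from H _ w rfl hw h0 hwa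
  intro n
  induction n using Nat.strong_induction_on with
  | _ n ih =>
    intro w hn hw h0 hwa
    obtain ⟨hU, S, hle, h4, hSU, h2, hcov, hbal, hC⟩ := step h hex hw h0 hwa
    refine ⟨hU, ?_⟩
    obtain ⟨w', rfl⟩ := Multiset.le_iff_exists_add.1 hle
    by_cases hw0 : w' = 0
    · exact ⟨1, S, by rw [hw0, add_zero, one_smul], h4, one_pos, hSU, h2, hC⟩
    · have hw'le : w' ≤ S.val + w' := Multiset.le_add_left _ _
      have hw' : Rel r m w' := by
        refine ⟨hw.red.mono hw'le, ?_, fun x hx => hw.sub x (Multiset.mem_of_le hw'le hx)⟩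
        apply Bal.of_add hr _ hbal
        rw [add_comm]
        exact hw.bal
      have hcard : w'.card < n := by
        rw [← hn, Multiset.card_add]
        have : S.val.card = 4 := h4
        omega
      obtain ⟨_, ν, S', e1, h4', hν, _, _, _⟩ := ih _ hcard w' rfl hw' hw0
        (fun b hb => hwa b (Multiset.mem_of_le hw'le hb))
      have hSS : S' = S := by
        apply Finset.eq_of_subset_of_card_le
        · intro x hx
          have hxw' : x ∈ w' := by
            rw [e1, Multiset.mem_nsmul_of_ne_zero hν.ne']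
            exact hx
          have hxw : x ∈ S.val + w' := Multiset.mem_of_le hw'le hxw'
          rcases hcov x (hw.sub x hxw) (hwa x hxw) with h5 | h5
          · exact h5
          · exfalso
            exact hw.red.bar_notMem hr hxw (Multiset.mem_add.2 (Or.inl h5))
        · omega
      refine ⟨ν + 1, S, ?_, h4, by omega, hSU, h2, hC⟩
      rw [e1, hSS, add_smul, one_smul, add_comm]

end Pool.Agent.Lib.MP81632f.Mk.P
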