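import Pool.Agent.Lib.MP_81632f_ag.Mk.P.RedSix50

/-! # Module (8) StA4c -/

namespace Pool.Agent.Lib.MP81632f.Mk.P

open NumberField IsDedekindDomain
open scoped Classical

theorem mv50 {α : Type} {s : Finset α} {a : α} : a ∈ s.val ↔ a ∈ s := Iff.rfl

theorem nsmul_mem50 {L : Type} [Field L] [NumberField L] {r : ℕ} {v : HeightOneSpectrum (𝓞 L)}
    {C : Set (Multiset L)} (hC : CycleFamily6 r v C) {s : Multiset L} (hs : s ∈ C) (n : ℕ) :
    n • s ∈ C := by
  induction n with
  | zero => rw [zero_smul]; exact hC.zero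
  | succ n ih => rw [succ_nsmul]; exact hC.add _ _ ih hs

theorem stA4c_50 (hRed : StRed) (hA3 : StA3) : StA4c := by
  intro L _ _ _ p e r v m t a U μ ν S B hU4 hRt ha heven hS4 hSU hSU2 hRS hrel C hC hSC
  have hr := B.h.r_pos
  obtain ⟨hT1, hT2⟩ := hA3 L p e r v m a U μ 2 1 B
  have hTcard : (TT a U 2 1).card = 6 := by
    unfold TT
    rw [Multiset.card_add, Multiset.card_replicate, Multiset.card_nsmul, Finset.card_val, hU4]
  have hTC : TT a U 2 1 ∈ C := (hT2 C hC).2 (by rw [hTcard]; decide)
  have haU : a ∉ U := fun h' => B.blk.ne a h' (Ctx.mem_conjs.2 ⟨1, rfl⟩)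
  have hnc : ∀ b ∈ U, (r : L) ^ 2 / b ≠ a := by
    intro b hb h'
    apply B.blk.ne b hb
    have h1 := Ctx.bar_conj B.h B.ha (Ctx.mem_conjs.2 ⟨1, rfl⟩ : a ∈ conjs a)
    rw [← h', bb hr] at h1
    rw [← h']
    exact h1
  have hbarU : ∀ b ∈ U, b ≠ (r : L) ^ 2 / a := by
    intro b hb h'
    apply hnc b hb
    rw [h', bb hr]
  -- values of kk on T
  have kT : ∀ b ∈ U, kk r (TT a U 2 1) b = 1 := by
    intro b hb
    have hba : b ≠ a := fun h' => haU (h' ▸ hb)
    unfold kk TT
    rw [Multiset.count_add, Multiset.count_add, Multiset.count_replicate, Multiset.count_replicate,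
      Multiset.count_nsmul, Multiset.count_nsmul,
      Multiset.count_eq_one_of_mem U.nodup (mv50.2 hb),
      Multiset.count_eq_zero_of_notMem (fun h' => B.blk.disj b hb (mv50.1 h')),
      if_neg (fun h' => hba h'.symm), if_neg (fun h' => hnc b hb h'.symm)]
    norm_num
  have hinj : Function.Injective (fun b : L => (r : L) ^ 2 / b) := bar_injective hr
  set U' := U.image (fun b => (r : L) ^ 2 / b) with hU'
  have memU' : ∀ b, b ∈ U' ↔ (r : L) ^ 2 / b ∈ U := by
    intro b
    rw [hU', Finset.mem_image]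
    constructor
    · rintro ⟨c, hc, rfl⟩
      rwa [bb hr]
    · intro h'
      exact ⟨_, h', bb hr b⟩
  have hdisU : Disjoint U U' := by
    rw [Finset.disjoint_left]
    intro b hb h'
    exact B.blk.disj b hb ((memU' b).1 h')
  -- S
  have hSsplit : (S ∩ U).card + (S ∩ U').card = 4 := by
    rw [← Finset.card_union_of_disjoint, ← Finset.inter_union_distrib_left]
    · have : S ∩ (U ∪ U') = S := by
        rw [Finset.inter_eq_left]
        intro b hb
        rw [Finset.mem_union, memU']
        exact hSU b hb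
      rw [this, hS4]
    · exact Finset.disjoint_of_subset_left Finset.inter_subset_right
        (Finset.disjoint_of_subset_right Finset.inter_subset_right hdisU)
  have kS : ∀ b : L, kk r S.val b = (if b ∈ S then 1 else 0) - (if (r : L) ^ 2 / b ∈ S then 1 else 0) := by
    intro b
    unfold kk
    have e : ∀ x : L, ((S.val.count x : ℕ) : ℤ) = if x ∈ S then 1 else 0 := by
      intro x
      by_cases hx : x ∈ S
      · rw [if_pos hx, Multiset.count_eq_one_of_mem S.nodup (mv50.2 hx)]
        norm_num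
      · rw [if_neg hx, Multiset.count_eq_zero_of_notMem (fun h' => hx (mv50.1 h'))]
        norm_num
    rw [e, e]
  have sumS : ∑ b ∈ U, kk r S.val b = 0 := by
    have e1 : ∑ b ∈ U, (if b ∈ S then (1 : ℤ) else 0) = (S ∩ U).card := by
      rw [← Finset.sum_filter, Finset.sum_const, nsmul_eq_mul, mul_one]
      congr 2
      ext x
      rw [Finset.mem_filter, Finset.mem_inter, and_comm]
    have e2 : ∑ b ∈ U, (if (r : L) ^ 2 / b ∈ S then (1 : ℤ) else 0) = (S ∩ U').card := by
      rw [← Finset.sum_filter, Finset.sum_const, nsmul_eq_mul, mul_one]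
      congr 1
      rw [← Finset.card_image_of_injective _ hinj]
      congr 1
      ext x
      rw [Finset.mem_image, Finset.mem_inter, memU']
      constructor
      · rintro ⟨y, hy, rfl⟩
        rw [Finset.mem_filter] at hy
        exact ⟨hy.2, by rw [bb hr]; exact hy.1⟩
      · rintro ⟨h1, h2⟩
        exact ⟨_, Finset.mem_filter.2 ⟨h2, by rw [bb hr]; exact h1⟩, bb hr x⟩
    rw [Finset.sum_congr rfl (fun b _ => kS b), Finset.sum_sub_distrib, e1, e2]
    omega
  have sumT : ∑ b ∈ U, kk r (TT a U 2 1) b = 4 := by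
    rw [Finset.sum_congr rfl kT, Finset.sum_const, hU4]
    norm_num
  have sumt : ∑ b ∈ U, kk r t b = 2 * (t.count a : ℤ) := by
    have e1 : ∑ b ∈ U, 2 * kk r t b =
        ∑ b ∈ U, ((t.count a : ℤ) * kk r (TT a U 2 1) b + ν * kk r S.val b) :=
      Finset.sum_congr rfl (fun b _ => hrel b)
    rw [← Finset.mul_sum, Finset.sum_add_distrib, ← Finset.mul_sum, ← Finset.mul_sum, sumS, sumT] at e1
    linarith
  -- support of t
  have hsupp : ∀ b ∈ t, b ∈ insert a (U ∪ U') := by
    intro b hb
    by_contra hn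
    rw [Finset.mem_insert, Finset.mem_union, memU', not_or, not_or] at hn
    obtain ⟨n1, n2, n3⟩ := hn
    have n4 : b ≠ (r : L) ^ 2 / a := by
      rintro rfl
      exact hRt.red.bar_notMem hr ha hb
    have z1 : kk r (TT a U 2 1) b = 0 := by
      unfold kk TT
      rw [Multiset.count_add, Multiset.count_add, Multiset.count_replicate,
        Multiset.count_replicate, Multiset.count_nsmul, Multiset.count_nsmul,
        Multiset.count_eq_zero_of_notMem (fun h' => n2 (mv50.1 h')),
        Multiset.count_eq_zero_of_notMem (fun h' => n3 (mv50.1 h')),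
        if_neg (fun h' => n1 h'.symm), if_neg (fun h' => n4 (by rw [h', bb hr]))]
      norm_num
    have z2 : kk r S.val b = 0 := by
      rw [kS b, if_neg, if_neg]
      · norm_num
      · intro h'
        rcases hSU _ h' with h1 | h1
        · exact n3 h1
        · rw [bb hr] at h1
          exact n2 h1
      · intro h'
        rcases hSU _ h' with h1 | h1
        · exact n2 h1
        · exact n3 h1
    have z3 := hrel b
    rw [z1, z2] at z3
    have z4 : kk r t b = 0 := by linarith
    unfold kk at z4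
    rw [Multiset.count_eq_zero_of_notMem (hRt.red.bar_notMem hr hb)] at z4
    have z5 := Multiset.count_pos.2 hb
    omega
  have hcard : t.card = t.count a + ∑ b ∈ U, (t.count b + t.count ((r : L) ^ 2 / b)) := by
    rw [← Multiset.sum_count_eq_card hsupp, Finset.sum_insert, Finset.sum_union hdisU,
      Finset.sum_add_distrib]
    · congr 2
      rw [hU', Finset.sum_image (fun x _ y _ hxy => hinj hxy)]
    · rw [Finset.mem_union, memU', not_or]
      refine ⟨haU, fun h' => ?_⟩
      have := hnc _ h'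
      rw [bb hr] at this
      exact this rfl
  have hpar : ∃ k : ℤ, (t.card : ℤ) = (t.count a : ℤ) + ∑ b ∈ U, kk r t b + 2 * k := by
    refine ⟨∑ b ∈ U, (t.count ((r : L) ^ 2 / b) : ℤ), ?_⟩
    rw [hcard, Finset.mul_sum]
    push_cast
    rw [add_assoc, ← Finset.sum_add_distrib]
    congr 1
    apply Finset.sum_congr rfl
    intro b _
    unfold kk
    ring
  obtain ⟨k, hk⟩ := hpar
  obtain ⟨j, hj⟩ := heven
  have hA : ∃ A' : ℕ, t.count a = 2 * A' := by
    have : Even (t.count a) := by
      rw [Nat.even_iff]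
      rw [sumt, hj] at hk
      push_cast at hk
      omega
    obtain ⟨A', hA'⟩ := this
    exact ⟨A', by omega⟩
  obtain ⟨A', hA'⟩ := hA
  have hν : ∃ ν' : ℕ, ν = 2 * ν' := by
    have hpos : 0 < (S ∩ U).card := by omega
    obtain ⟨b, hb⟩ := Finset.card_pos.1 hpos
    rw [Finset.mem_inter] at hb
    have h1 := hrel b
    rw [kT b hb.2, kS b, if_pos hb.1, if_neg (fun h' => hRS.bar_notMem hr (mv50.2 hb.1)
      (mv50.2 h')), hA'] at h1
    refine ⟨ν / 2, ?_⟩
    push_cast at h1
    omega
  obtain ⟨ν', hν'⟩ := hν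
  -- the reduction
  have hSm : ∀ b ∈ S, b ∈ m := by
    intro b hb
    rcases hSU b hb with h1 | h1
    · exact B.blk.mem b h1
    · have h2 := B.h.bar_mem (B.blk.mem _ h1)
      rwa [bb hr] at h2
  have hw0m : ∀ x ∈ A' • TT a U 2 1 + ν' • S.val, x ∈ m := by
    intro x hx
    rcases Multiset.mem_add.1 hx with h1 | h1
    · exact hT1.sub x (Multiset.mem_of_mem_nsmul h1)
    · exact hSm x (mv50.1 (Multiset.mem_of_mem_nsmul h1))
  obtain ⟨w, w1, w2, w3, w4, w5, _⟩ := hRed L p e r v m B.h _ hw0m
  have hw : t = w := by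
    apply Ctx.eq_of_kk B.h hRt.red w2 hRt.sub (fun x hx => hw0m x (Multiset.mem_of_le w1 hx))
    intro b _
    rw [w3 b, kk_add50, kk_nsmul50, kk_nsmul50]
    have h1 := hrel b
    rw [hA', hν'] at h1
    push_cast at h1
    linarith
  rw [hw, ← w5 C hC.old]
  exact hC.add _ _ (nsmul_mem50 hC hTC A') (nsmul_mem50 hC hSC ν')

end Pool.Agent.Lib.MP81632f.Mk.P
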