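import Pool.Agent.Lib.MP_81632f_ag.Mk.P.Uniq21

/-! # (B1): ten conjugates -/

namespace Pool.Agent.Lib.MP81632f.Mk.P

open NumberField IsDedekindDomain
open scoped Classical

variable {L : Type} [Field L] [NumberField L] [IsGalois ℚ L]
variable {p e r : ℕ} {v : HeightOneSpectrum (𝓞 L)} {m t u : Multiset L}

/-- sums over a half system -/
theorem XS_half_21 (h : Ctx p e r v m) {S : Finset L} (hm : ∀ b ∈ S, b ∈ m)
    (hd : ∀ b ∈ S, (r : L) ^ 2 / b ∉ S) (hu : ∀ b ∈ u, b ∈ S ∨ (r : L) ^ 2 / b ∈ S)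
    (g : L ≃ₐ[ℚ] L) : XS r v u g = ∑ a ∈ S, kk r u a * X r v a g := by
  unfold XS
  rw [Finset.sum_multiset_map_count]
  have hsub : u.toFinset ⊆ WW_21 r S := by
    intro b hb
    exact (mem_WW_21 h.r_pos).2 (hu b (Multiset.mem_toFinset.1 hb))
  rw [Finset.sum_subset hsub]
  · unfold WW_21
    rw [Finset.sum_union, Finset.sum_image (fun x _ y _ hxy => bar_injective h.r_pos hxy),
      ← Finset.sum_add_distrib]
    · apply Finset.sum_congr rfl
      intro a ha
      rw [h.Xbar (hm a ha), Pi.neg_apply, nsmul_eq_mul, nsmul_eq_mul]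
      unfold kk
      ring
    · rw [Finset.disjoint_left]
      intro x hx hx'
      obtain ⟨b, hb, rfl⟩ := Finset.mem_image.1 hx'
      exact hd b hb hx
  · intro b _ hb
    rw [Multiset.mem_toFinset] at hb
    rw [Multiset.count_eq_zero_of_notMem hb, zero_smul]

theorem pow_iter_21 (g : L ≃ₐ[ℚ] L) (k : ℕ) (x : L) : (g ^ k) x = (⇑g)^[k] x := by
  induction k with
  | zero => rfl
  | succ k ih =>
    rw [pow_succ', Function.iterate_succ_apply', ← ih]
    rfl

theorem iter_bar_21 (g : L ≃ₐ[ℚ] L) (k : ℕ) (x : L) :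
    (⇑g)^[k] ((r : L) ^ 2 / x) = (r : L) ^ 2 / (⇑g)^[k] x := by
  induction k with
  | zero => rfl
  | succ k ih => rw [Function.iterate_succ_apply', ih, map_bar, Function.iterate_succ_apply']

/-- an orbit of length five under `g` -/
structure Pent_21 (p e r : ℕ) (v : HeightOneSpectrum (𝓞 L)) (m : Multiset L) (g : L ≃ₐ[ℚ] L)
    (a : L) : Prop where
  h : Ctx p e r v m
  hc : m.card ≤ 10
  ha : a ∈ m
  h10 : (conjs a).card = 10
  per : (⇑g)^[5] a = a
  ne : g a ≠ a

/-- the orbit -/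
def zz_21 (g : L ≃ₐ[ℚ] L) (a : L) (i : ℕ) : L := (⇑g)^[i] a

/-- the orbit as a set -/
noncomputable def Sp_21 (g : L ≃ₐ[ℚ] L) (a : L) : Finset L := (Finset.range 5).image (zz_21 g a)

namespace Pent_21

variable {g : L ≃ₐ[ℚ] L} {a : L}

theorem z_succ (i : ℕ) : zz_21 g a (i + 1) = g (zz_21 g a i) := Function.iterate_succ_apply' _ _ _

theorem z_conj (i : ℕ) : zz_21 g a i ∈ conjs a := by
  unfold zz_21
  rw [← pow_iter_21]
  exact conjs_map a _

theorem z_mem (k : Pent_21 p e r v m g a) (i : ℕ) : zz_21 g a i ∈ m := by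
  unfold zz_21
  rw [← pow_iter_21]
  exact k.h.hA.mem_map _ k.ha

theorem z_per (k : Pent_21 p e r v m g a) (i : ℕ) : zz_21 g a (i + 5) = zz_21 g a i := by
  unfold zz_21
  rw [Function.iterate_add_apply, k.per]

theorem z_per' (k : Pent_21 p e r v m g a) (i n : ℕ) : zz_21 g a (i + 5 * n) = zz_21 g a i := by
  induction n with
  | zero => rfl
  | succ n ih =>
    have e1 : i + 5 * (n + 1) = (i + 5 * n) + 5 := by ring
    rw [e1, k.z_per, ih]

theorem z_eq (k : Pent_21 p e r v m g a) {i j : ℕ} (hij : i ≤ j) (h : zz_21 g a i = zz_21 g a j) :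
    5 ∣ j - i := by
  by_contra hno
  have e1 : j = i + (j - i) := by omega
  unfold zz_21 at h
  rw [e1, Function.iterate_add_apply] at h
  have h1 : (⇑g)^[j - i] a = a := ((g.injective.iterate i) h).symm
  have h2 : Function.IsPeriodicPt (⇑g) (j - i) a := h1
  have h3 : Function.IsPeriodicPt (⇑g) 5 a := k.per
  have h4 := h2.gcd h3
  have h5 : (j - i).gcd 5 = 1 := by
    have := (Nat.Prime.coprime_iff_not_dvd (by norm_num : Nat.Prime 5)).2 hno
    exact this.symm
  rw [h5] at h4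
  exact k.ne h4

theorem z_bar_le (k : Pent_21 p e r v m g a) {i j : ℕ} (hij : i ≤ j) :
    zz_21 g a i ≠ (r : L) ^ 2 / zz_21 g a j := by
  intro h
  have e1 : (⇑g)^[j - i] (zz_21 g a i) = zz_21 g a j := by
    unfold zz_21
    rw [← Function.iterate_add_apply]
    congr 1
    omega
  have e2 : (⇑g)^[j - i] (zz_21 g a j) = zz_21 g a (j + (j - i)) := by
    unfold zz_21
    rw [← Function.iterate_add_apply]
    congr 1
    omega
  have h1 : zz_21 g a j = (r : L) ^ 2 / zz_21 g a (j + (j - i)) := by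
    rw [← e1, ← e2, ← iter_bar_21, ← h]
  have h2 : zz_21 g a i = zz_21 g a (j + (j - i)) := by
    rw [h, h1, bb k.h.r_pos]
  have h3 := k.z_eq (by omega) h2
  obtain ⟨n, hn⟩ : 5 ∣ j - i := by omega
  have h4 : zz_21 g a j = zz_21 g a i := by
    have e3 : j = i + 5 * n := by omega
    rw [e3]
    exact k.z_per' i n
  rw [h4] at h
  exact k.h.bar_ne (k.z_mem i) h.symm

theorem z_bar (k : Pent_21 p e r v m g a) (i j : ℕ) :
    zz_21 g a i ≠ (r : L) ^ 2 / zz_21 g a j := by
  rcases le_total i j with h | h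
  · exact k.z_bar_le h
  · intro h'
    apply k.z_bar_le h
    rw [h', bb k.h.r_pos]

theorem S_card (k : Pent_21 p e r v m g a) : (Sp_21 g a).card = 5 := by
  unfold Sp_21
  rw [Finset.card_image_of_injOn, Finset.card_range]
  intro i hi j hj hij
  have hi' := Finset.mem_range.1 hi
  have hj' := Finset.mem_range.1 hj
  rcases le_total i j with h | h
  · have := k.z_eq h hij
    omega
  · have := k.z_eq h hij.symm
    omega

theorem S_disj (k : Pent_21 p e r v m g a) : ∀ b ∈ Sp_21 g a, (r : L) ^ 2 / b ∉ Sp_21 g a := by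
  intro b hb hb'
  unfold Sp_21 at hb hb'
  obtain ⟨i, _, rfl⟩ := Finset.mem_image.1 hb
  obtain ⟨j, _, hj⟩ := Finset.mem_image.1 hb'
  exact k.z_bar j i hj

theorem S_mem (k : Pent_21 p e r v m g a) : ∀ b ∈ Sp_21 g a, b ∈ m := by
  intro b hb
  unfold Sp_21 at hb
  obtain ⟨i, _, rfl⟩ := Finset.mem_image.1 hb
  exact k.z_mem i

theorem cnt (k : Pent_21 p e r v m g a) {b : L} (hb : b ∈ conjs a) : m.count b = 1 := by
  rw [Ctx.count_of_conjs k.h hb]
  have h1 := k.h.conjs_count k.ha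
  rw [k.h10] at h1
  have h2 := Multiset.count_pos.2 k.ha
  have h3 := k.hc
  omega

theorem mem_conj (k : Pent_21 p e r v m g a) {b : L} (hb : b ∈ m) : b ∈ conjs a := by
  by_contra hno
  have h1 := sum_count_le (m := m) (insert b (conjs a))
  rw [Finset.sum_insert hno, Finset.sum_congr rfl (fun c hc => k.cnt hc), Finset.sum_const, k.h10]
    at h1
  have h2 := Multiset.count_pos.2 hb
  have h3 := k.hc
  simp only [smul_eq_mul, mul_one] at h1
  omega

theorem W_card (k : Pent_21 p e r v m g a) : (WW_21 r (Sp_21 g a)).card = 10 := by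
  unfold WW_21
  rw [Finset.card_union_of_disjoint, Finset.card_image_of_injective _ (bar_injective k.h.r_pos),
    k.S_card]
  rw [Finset.disjoint_left]
  intro x hx hx'
  obtain ⟨b, hb, rfl⟩ := Finset.mem_image.1 hx'
  exact k.S_disj b hb hx

theorem W_eq (k : Pent_21 p e r v m g a) : WW_21 r (Sp_21 g a) = conjs a := by
  apply Finset.eq_of_subset_of_card_le
  · intro x hx
    apply k.mem_conj
    rcases (mem_WW_21 k.h.r_pos).1 hx with h | h
    · exact k.S_mem x h
    · have := k.h.bar_mem (k.S_mem _ h)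
      rwa [bb k.h.r_pos] at this
  · rw [k.W_card, k.h10]

theorem m_or (k : Pent_21 p e r v m g a) {b : L} (hb : b ∈ m) :
    b ∈ Sp_21 g a ∨ (r : L) ^ 2 / b ∈ Sp_21 g a := by
  apply (mem_WW_21 k.h.r_pos).1
  rw [k.W_eq]
  exact k.mem_conj hb

theorem m_eq (k : Pent_21 p e r v m g a) : (Sp_21 g a).val + bars r (Sp_21 g a).val = m := by
  ext b
  rw [Multiset.count_add, count_bars k.h.r_pos]
  by_cases hb : b ∈ m
  · rw [k.cnt (k.mem_conj hb)]
    rcases k.m_or hb with h | h
    · rw [Multiset.count_eq_one_of_mem (Sp_21 g a).nodup h,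
        Multiset.count_eq_zero_of_notMem (k.S_disj b h)]
    · rw [Multiset.count_eq_one_of_mem (Sp_21 g a).nodup h, Multiset.count_eq_zero_of_notMem]
      intro h'
      exact k.S_disj b h' h
  · rw [Multiset.count_eq_zero_of_notMem hb, Multiset.count_eq_zero_of_notMem,
      Multiset.count_eq_zero_of_notMem]
    · intro h'
      apply hb
      have := k.h.bar_mem (k.S_mem _ h')
      rwa [bb k.h.r_pos] at this
    · intro h'
      exact hb (k.S_mem b h')

theorem sum_S (k : Pent_21 p e r v m g a) (f : L → ℤ) :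
    ∑ b ∈ Sp_21 g a, f b = f (zz_21 g a 0) + f (zz_21 g a 1) + f (zz_21 g a 2) +
      f (zz_21 g a 3) + f (zz_21 g a 4) := by
  unfold Sp_21
  rw [Finset.sum_image]
  · simp [Finset.sum_range_succ]
  · intro i hi j hj hij
    have hi' := Finset.mem_range.1 hi
    have hj' := Finset.mem_range.1 hj
    rcases le_total i j with h | h
    · have := k.z_eq h hij
      omega
    · have := k.z_eq h hij.symm
      omega

theorem ip_shift (i j : ℕ) : ip (X r v (zz_21 g a (i + 1))) (X r v (zz_21 g a (j + 1))) =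
    ip (X r v (zz_21 g a i)) (X r v (zz_21 g a j)) := by
  rw [z_succ, z_succ, X_map, X_map, ip_act]

/-- the coefficients of a relation are constant -/
theorem const (k : Pent_21 p e r v m g a) (h5 : StFive) (hw : ∀ b ∈ t, IsWeil r b)
    (hb : Bal r t) (hs : ∀ b ∈ t, b ∈ m) : ∀ b ∈ Sp_21 g a, kk r t b = kk r t a := by
  have hrel : ∀ g', ∑ b ∈ Sp_21 g a, kk r t b * X r v b g' = 0 := by
    intro g'
    rw [← XS_half_21 k.h k.S_mem k.S_disj (fun b hb => k.m_or (hs b hb)) g']
    exact (bal_iff k.h.hr k.h.hp k.h.hv hw).1 hb g'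
  have hz : kk r t (zz_21 g a 0) • X r v (zz_21 g a 0) + kk r t (zz_21 g a 1) • X r v (zz_21 g a 1) +
      kk r t (zz_21 g a 2) • X r v (zz_21 g a 2) + kk r t (zz_21 g a 3) • X r v (zz_21 g a 3) +
      kk r t (zz_21 g a 4) • X r v (zz_21 g a 4) = 0 := by
    ext g'
    have h1 := hrel g'
    rw [k.sum_S] at h1
    simp only [Pi.add_apply, Pi.smul_apply, smul_eq_mul, Pi.zero_apply]
    exact h1
  have hj : ∀ j, kk r t (zz_21 g a 0) * ip (X r v (zz_21 g a 0)) (X r v (zz_21 g a j)) +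
      kk r t (zz_21 g a 1) * ip (X r v (zz_21 g a 1)) (X r v (zz_21 g a j)) +
      kk r t (zz_21 g a 2) * ip (X r v (zz_21 g a 2)) (X r v (zz_21 g a j)) +
      kk r t (zz_21 g a 3) * ip (X r v (zz_21 g a 3)) (X r v (zz_21 g a j)) +
      kk r t (zz_21 g a 4) * ip (X r v (zz_21 g a 4)) (X r v (zz_21 g a j)) = 0 := by
    intro j
    have h1 := congrArg (fun f => ip f (X r v (zz_21 g a j))) hz
    simp only [ip_add_left, ip_smul_left] at h1
    rw [h1]
    unfold ip
    simp
  have i11 : ip (X r v (zz_21 g a 1)) (X r v (zz_21 g a 1)) =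
    ip (X r v (zz_21 g a 0)) (X r v (zz_21 g a 0)) := ip_shift 0 0
  have i22 : ip (X r v (zz_21 g a 2)) (X r v (zz_21 g a 2)) =
    ip (X r v (zz_21 g a 1)) (X r v (zz_21 g a 1)) := ip_shift 1 1
  have i33 : ip (X r v (zz_21 g a 3)) (X r v (zz_21 g a 3)) =
    ip (X r v (zz_21 g a 2)) (X r v (zz_21 g a 2)) := ip_shift 2 2
  have i44 : ip (X r v (zz_21 g a 4)) (X r v (zz_21 g a 4)) =
    ip (X r v (zz_21 g a 3)) (X r v (zz_21 g a 3)) := ip_shift 3 3
  have i12 : ip (X r v (zz_21 g a 1)) (X r v (zz_21 g a 2)) =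
    ip (X r v (zz_21 g a 0)) (X r v (zz_21 g a 1)) := ip_shift 0 1
  have i23 : ip (X r v (zz_21 g a 2)) (X r v (zz_21 g a 3)) =
    ip (X r v (zz_21 g a 1)) (X r v (zz_21 g a 2)) := ip_shift 1 2
  have i34 : ip (X r v (zz_21 g a 3)) (X r v (zz_21 g a 4)) =
    ip (X r v (zz_21 g a 2)) (X r v (zz_21 g a 3)) := ip_shift 2 3
  have e5 : zz_21 g a 5 = zz_21 g a 0 := k.z_per 0
  have e6 : zz_21 g a 6 = zz_21 g a 1 := k.z_per 1
  have i40 : ip (X r v (zz_21 g a 4)) (X r v (zz_21 g a 0)) =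
      ip (X r v (zz_21 g a 3)) (X r v (zz_21 g a 4)) := by
    have h1 : ip (X r v (zz_21 g a 4)) (X r v (zz_21 g a 5)) =
      ip (X r v (zz_21 g a 3)) (X r v (zz_21 g a 4)) := ip_shift 3 4
    rwa [e5] at h1
  have i13 : ip (X r v (zz_21 g a 1)) (X r v (zz_21 g a 3)) =
    ip (X r v (zz_21 g a 0)) (X r v (zz_21 g a 2)) := ip_shift 0 2
  have i24 : ip (X r v (zz_21 g a 2)) (X r v (zz_21 g a 4)) =
    ip (X r v (zz_21 g a 1)) (X r v (zz_21 g a 3)) := ip_shift 1 3
  have i30 : ip (X r v (zz_21 g a 3)) (X r v (zz_21 g a 0)) =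
      ip (X r v (zz_21 g a 2)) (X r v (zz_21 g a 4)) := by
    have h1 : ip (X r v (zz_21 g a 3)) (X r v (zz_21 g a 5)) =
      ip (X r v (zz_21 g a 2)) (X r v (zz_21 g a 4)) := ip_shift 2 4
    rwa [e5] at h1
  have i41 : ip (X r v (zz_21 g a 4)) (X r v (zz_21 g a 1)) =
      ip (X r v (zz_21 g a 3)) (X r v (zz_21 g a 0)) := by
    have h1 : ip (X r v (zz_21 g a 4)) (X r v (zz_21 g a 6)) =
      ip (X r v (zz_21 g a 3)) (X r v (zz_21 g a 5)) := ip_shift 3 5
    rwa [e5, e6] at h1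
  have c : ∀ i j, ip (X r v (zz_21 g a i)) (X r v (zz_21 g a j)) =
    ip (X r v (zz_21 g a j)) (X r v (zz_21 g a i)) := fun i j => ip_comm _ _
  have f22 := i22.trans i11
  have f33 := i33.trans f22
  have f44 := i44.trans f33
  have f23 := i23.trans i12
  have f34 := i34.trans f23
  have f40 := i40.trans f34
  have f24 := i24.trans i13
  have f30 := i30.trans f24
  have f41 := i41.trans f30
  have f21 := (c 2 1).trans i12
  have f32 := (c 3 2).trans f23
  have f43 := (c 4 3).trans f34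
  have f04 := (c 0 4).trans f40
  have f31 := (c 3 1).trans i13
  have f42 := (c 4 2).trans f24
  have f03 := (c 0 3).trans f30
  have f14 := (c 1 4).trans f41
  have j0 := hj 0
  have j1 := hj 1
  have j2 := hj 2
  have j3 := hj 3
  have j4 := hj 4
  rw [c 1 0, c 2 0, f30, f40] at j0
  rw [i11, f21, f31, f41] at j1
  rw [i12, f22, f32, f42] at j2
  rw [f03, i13, f23, f33, f43] at j3
  rw [f04, f14, f24, f34, f44] at j4
  have key := h5 (ip (X r v (zz_21 g a 0)) (X r v (zz_21 g a 0)))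
    (ip (X r v (zz_21 g a 0)) (X r v (zz_21 g a 1)))
    (ip (X r v (zz_21 g a 0)) (X r v (zz_21 g a 2)))
    (kk r t (zz_21 g a 0)) (kk r t (zz_21 g a 1)) (kk r t (zz_21 g a 2)) (kk r t (zz_21 g a 3))
    (kk r t (zz_21 g a 4)) (by linear_combination j0) (by linear_combination j1)
    (by linear_combination j2) (by linear_combination j3) (by linear_combination j4)
  rcases key with ⟨n1, n2, n3, n4⟩ | ⟨c1, c2⟩
  · intro b hb
    unfold Sp_21 at hb
    obtain ⟨i, hi, rfl⟩ := Finset.mem_image.1 hb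
    have hi' := Finset.mem_range.1 hi
    have e0 : zz_21 g a 0 = a := rfl
    rw [e0] at n1
    interval_cases i
    · rw [e0]
    · omega
    · omega
    · omega
    · omega
  · exfalso
    have h1 : ip (X r v (zz_21 g a 0) - X r v (zz_21 g a 1))
        (X r v (zz_21 g a 0) - X r v (zz_21 g a 1)) = 0 := by
      rw [ip_sub_left, ip_sub_right, ip_sub_right, c 1 0, i11]
      omega
    have h2 := (ip_self_eq_zero _).1 h1
    have h3 := k.h.inj (k.z_mem 0) (k.z_mem 1) (sub_eq_zero.1 h2)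
    exact k.ne h3.symm

theorem main_pos (k : Pent_21 p e r v m g a) (h5 : StFive) (hR : Rel r m t) (hE : Even t.card)
    {C : Set (Multiset L)} (hC : CycleFamily r v C) (hn : 0 < kk r t a) : t ∈ C := by
  have hr := k.h.r_pos
  have hc := k.const h5 hR.red.weil hR.bal hR.sub
  obtain ⟨n, hn'⟩ := Int.eq_ofNat_of_zero_le hn.le
  have hcS : ∀ b ∈ Sp_21 g a, t.count b = n := by
    intro b hb
    have h1 := hc b hb
    have h2 := Ctx.red_or hr hR.red b
    rw [hn'] at h1 hn
    unfold kk at h1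
    omega
  have ht : t = n • (Sp_21 g a).val := by
    ext b
    rw [Multiset.count_nsmul]
    by_cases hb : b ∈ Sp_21 g a
    · rw [hcS b hb, Multiset.count_eq_one_of_mem (Sp_21 g a).nodup hb, mul_one]
    · rw [Multiset.count_eq_zero_of_notMem (s := (Sp_21 g a).val) hb, mul_zero]
      apply Multiset.count_eq_zero_of_notMem
      intro hbt
      rcases k.m_or (hR.sub b hbt) with h1 | h1
      · exact hb h1
      · have h2 := hcS _ h1
        have h3 : (r : L) ^ 2 / b ∈ t := by
          rw [← Multiset.count_pos, h2]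
          omega
        exact hR.red.bar_notMem hr hbt h3
  have hn1 : 0 < n := by omega
  have hle : (Sp_21 g a).val ≤ t := by
    rw [ht]
    obtain ⟨n', rfl⟩ : ∃ n', n = n' + 1 := ⟨n - 1, by omega⟩
    rw [succ_nsmul]
    exact Multiset.le_add_left _ _
  have hRS : Red r (Sp_21 g a).val := hR.red.mono hle
  have hbS : Bal r (Sp_21 g a).val := by
    rw [bal_iff k.h.hr k.h.hp k.h.hv hRS.weil]
    intro g'
    have h1 := (bal_iff k.h.hr k.h.hp k.h.hv hR.red.weil).1 hR.bal g'
    rw [ht, XS_nsmul] at h1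
    rcases mul_eq_zero.1 h1 with h2 | h2
    · omega
    · exact h2
  have hcard : (Sp_21 g a).val.card = 5 := k.S_card
  have hk := ktype_mem hr k.h.rho_pos hC hRS hbS (by rw [k.m_eq]; exact k.h.hA) (by omega) (by omega)
  have h1 := hk.2 (by omega)
  have h2 := hC.add _ _ h1 h1
  have h3 : (Sp_21 g a).val + {(r : L)} + ((Sp_21 g a).val + {(r : L)}) =
      ((Sp_21 g a).val + (Sp_21 g a).val) + {(r : L), (r : L)} := by
    rw [add_add_add_comm]
    rfl
  rw [h3] at h2
  have h4 := remove_rr hr hC h2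
  have hev : Even n := by
    rw [ht, Multiset.card_nsmul, hcard] at hE
    rcases (Nat.even_mul.1 hE) with h | h
    · exact h
    · exact absurd h (by decide)
  obtain ⟨q, hq⟩ := hev
  have h5' : t = q • ((Sp_21 g a).val + (Sp_21 g a).val) := by
    rw [ht, hq, add_nsmul, nsmul_add]
  rw [h5']
  exact nsmul_mem hC q h4

theorem bar (k : Pent_21 p e r v m g a) : Pent_21 p e r v m g ((r : L) ^ 2 / a) where
  h := k.h
  hc := k.hc
  ha := k.h.bar_mem k.ha
  h10 := by rw [Ctx.conjs_bar k.h k.ha, k.h10]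
  per := by rw [iter_bar_21, k.per]
  ne := by
    intro h
    rw [map_bar] at h
    exact k.ne (bar_injective k.h.r_pos h)

end Pent_21

theorem stB1_21 (hcyc : StCyc) (h5 : StFive) : StB1 := by
  intro L _ _ _ p e r v m t x h hc hx h10 hR hE C hC
  obtain ⟨g, hg5, y, hy, hgy⟩ := hcyc L x 5 (by norm_num) (by rw [h10]; norm_num)
  have hym : y ∈ m := by
    obtain ⟨k, rfl⟩ := Ctx.mem_conjs.1 hy
    exact h.hA.mem_map k hx
  have k : Pent_21 p e r v m g y :=
    ⟨h, hc, hym, by rw [conjs_eq hy, h10], by rw [← pow_iter_21]; exact hg5 y hy, hgy⟩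
  rcases lt_trichotomy 0 (kk r t y) with h1 | h1 | h1
  · exact k.main_pos h5 hR hE hC h1
  · have hc' := k.const h5 hR.red.weil hR.bal hR.sub
    have ht : t = 0 := by
      rw [Multiset.eq_zero_iff_forall_notMem]
      intro b hb
      have h2 := Ctx.red_or h.r_pos hR.red b
      have h3 := Multiset.count_pos.2 hb
      rcases k.m_or (hR.sub b hb) with h4 | h4
      · have h5 := hc' b h4
        unfold kk at h5 h1
        omega
      · have h5 := hc' _ h4
        unfold kk at h5 h1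
        rw [bb h.r_pos] at h5
        omega
    rw [ht]
    exact hC.zero
  · apply k.bar.main_pos h5 hR hE hC
    unfold kk at h1 ⊢
    rw [bb h.r_pos]
    omega

end Pool.Agent.Lib.MP81632f.Mk.P
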