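import Pool.Agent.Lib.MP_81632f_ag.Mk.P.Stmts2_34
import Pool.Agent.Lib.MP_81632f_ag.Mk.P.B1_21

/-! # (B1ODD) -/

namespace Pool.Agent.Lib.MP81632f.Mk.P

open NumberField IsDedekindDomain
open scoped Classical

variable {L : Type} [Field L] [NumberField L] [IsGalois ℚ L]
variable {p e r : ℕ} {v : HeightOneSpectrum (𝓞 L)} {m t : Multiset L} {g : L ≃ₐ[ℚ] L} {a : L}

namespace Pent_21

theorem main_odd_34 (k : Pent_21 p e r v m g a) (h5 : StFive) (hR : Rel r m t) (hE : ¬ Even t.card)
    {C : Set (Multiset L)} (hC : CycleFamily r v C) (hn : 0 < kk r t a) : t + {(r : L)} ∈ C := by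
  have hr := k.h.r_pos
  have hc := k.const h5 hR.red.weil hR.bal hR.sub
  obtain ⟨n, hn'⟩ := Int.eq_ofNat_of_zero_le hn.le
  have hcS : ∀ b ∈ Sp_21 g a, t.count b = n := by
    intro b hb
    have h1 := hc b hb
    have h2 := Ctx.red_or hr hR.red b
    rw [hn'] at h1 hn
    unfold kk at h1
    omega
  have ht : t = n • (Sp_21 g a).val := by
    ext b
    rw [Multiset.count_nsmul]
    by_cases hb : b ∈ Sp_21 g a
    · rw [hcS b hb, Multiset.count_eq_one_of_mem (Sp_21 g a).nodup hb, mul_one]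
    · rw [Multiset.count_eq_zero_of_notMem (s := (Sp_21 g a).val) hb, mul_zero]
      apply Multiset.count_eq_zero_of_notMem
      intro hbt
      rcases k.m_or (hR.sub b hbt) with h1 | h1
      · exact hb h1
      · have h2 := hcS _ h1
        have h3 : (r : L) ^ 2 / b ∈ t := by
          rw [← Multiset.count_pos, h2]
          omega
        exact hR.red.bar_notMem hr hbt h3
  have hn1 : 0 < n := by omega
  have hle : (Sp_21 g a).val ≤ t := by
    rw [ht]
    obtain ⟨n', rfl⟩ : ∃ n', n = n' + 1 := ⟨n - 1, by omega⟩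
    rw [succ_nsmul]
    exact Multiset.le_add_left _ _
  have hRS : Red r (Sp_21 g a).val := hR.red.mono hle
  have hbS : Bal r (Sp_21 g a).val := by
    rw [bal_iff k.h.hr k.h.hp k.h.hv hRS.weil]
    intro g'
    have h1 := (bal_iff k.h.hr k.h.hp k.h.hv hR.red.weil).1 hR.bal g'
    rw [ht, XS_nsmul] at h1
    rcases mul_eq_zero.1 h1 with h2 | h2
    · omega
    · exact h2
  have hcard : (Sp_21 g a).val.card = 5 := k.S_card
  have hk := ktype_mem hr k.h.rho_pos hC hRS hbS (by rw [k.m_eq]; exact k.h.hA) (by omega) (by omega)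
  have h1 := hk.2 (by omega)
  have h2 := hC.add _ _ h1 h1
  have h3 : (Sp_21 g a).val + {(r : L)} + ((Sp_21 g a).val + {(r : L)}) =
      ((Sp_21 g a).val + (Sp_21 g a).val) + {(r : L), (r : L)} := by
    rw [add_add_add_comm]
    rfl
  rw [h3] at h2
  have h4 := remove_rr hr hC h2
  have hev : ¬ Even n := by
    intro h
    apply hE
    rw [ht, Multiset.card_nsmul]
    exact h.mul_right _
  obtain ⟨q, hq⟩ := Nat.not_even_iff_odd.1 hev
  have h5' : t + {(r : L)} = q • ((Sp_21 g a).val + (Sp_21 g a).val) +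
      ((Sp_21 g a).val + {(r : L)}) := by
    rw [ht, hq, add_nsmul, one_nsmul, nsmul_add, mul_comm, mul_nsmul, two_nsmul]
    abel
  rw [h5']
  exact hC.add _ _ (nsmul_mem hC q h4) h1

end Pent_21

theorem stB1odd_34 (hcyc : StCyc) (h5 : StFive) : StB1odd := by
  intro L _ _ _ p e r v m t x h hc hx h10 hR hE C hC
  obtain ⟨g, hg5, y, hy, hgy⟩ := hcyc L x 5 (by norm_num) (by rw [h10]; norm_num)
  have hym : y ∈ m := by
    obtain ⟨k, rfl⟩ := Ctx.mem_conjs.1 hy
    exact h.hA.mem_map k hx
  have k : Pent_21 p e r v m g y :=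
    ⟨h, hc, hym, by rw [conjs_eq hy, h10], by rw [← pow_iter_21]; exact hg5 y hy, hgy⟩
  rcases lt_trichotomy 0 (kk r t y) with h1 | h1 | h1
  · exact k.main_odd_34 h5 hR hE hC h1
  · exfalso
    have hc' := k.const h5 hR.red.weil hR.bal hR.sub
    have ht : t = 0 := by
      rw [Multiset.eq_zero_iff_forall_notMem]
      intro b hb
      have h2 := Ctx.red_or h.r_pos hR.red b
      have h3 := Multiset.count_pos.2 hb
      rcases k.m_or (hR.sub b hb) with h4 | h4
      · have h5 := hc' b h4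
        unfold kk at h5 h1
        omega
      · have h5 := hc' _ h4
        unfold kk at h5 h1
        rw [bb h.r_pos] at h5
        omega
    apply hE
    rw [ht]
    simp
  · apply k.bar.main_odd_34 h5 hR hE hC
    unfold kk at h1 ⊢
    rw [bb h.r_pos]
    omega

end Pool.Agent.Lib.MP81632f.Mk.P
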