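import Pool.Agent.Lib.MP_81632f_ag.Mk.P.Aux34

/-! # (B2): four and six conjugates -/

namespace Pool.Agent.Lib.MP81632f.Mk.P

open NumberField IsDedekindDomain
open scoped Classical

variable {L : Type} [Field L] [NumberField L] [IsGalois ℚ L]
variable {p e r : ℕ} {v : HeightOneSpectrum (𝓞 L)} {m t : Multiset L}

/-! ## Sets without conjugate pairs -/

omit [NumberField L] [IsGalois ℚ L] in
theorem dbl57 {W : Finset L} (hb : ∀ a ∈ W, (r : L) ^ 2 / a ∉ W) :
    Disjoint W (W.image (fun a => (r : L) ^ 2 / a)) := by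
  rw [Finset.disjoint_left]
  intro a ha ha'
  obtain ⟨b, hbW, rfl⟩ := Finset.mem_image.1 ha'
  exact hb b hbW ha

omit [IsGalois ℚ L] in
theorem dbl_card57 (hr : 0 < r) {W : Finset L} (hb : ∀ a ∈ W, (r : L) ^ 2 / a ∉ W) :
    (W ∪ W.image (fun a => (r : L) ^ 2 / a)).card = 2 * W.card := by
  rw [Finset.card_union_of_disjoint (dbl57 hb), Finset.card_image_of_injective _ (bar_injective hr)]
  ring

theorem dbl_sum57 (h : Ctx p e r v m) {W : Finset L} (hW : ∀ a ∈ W, a ∈ m)
    (hb : ∀ a ∈ W, (r : L) ^ 2 / a ∉ W) (u : Multiset L) (g : L ≃ₐ[ℚ] L) :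
    ∑ a ∈ W ∪ W.image (fun a => (r : L) ^ 2 / a), (u.count a : ℤ) * X r v a g =
      ∑ a ∈ W, kk r u a * X r v a g := by
  rw [Finset.sum_union (dbl57 hb), Finset.sum_image (fun a _ b _ hab => bar_injective h.r_pos hab),
    ← Finset.sum_add_distrib]
  apply Finset.sum_congr rfl
  intro a ha
  rw [h.Xbar (hW a ha), Pi.neg_apply]
  unfold kk
  ring

omit [IsGalois ℚ L] in
theorem full57 (hr : 0 < r) {S W : Finset L} (hWS : ∀ a ∈ W, a ∈ S)
    (hbar : ∀ a ∈ W, (r : L) ^ 2 / a ∈ S) (hb : ∀ a ∈ W, (r : L) ^ 2 / a ∉ W)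
    (hc : S.card = 2 * W.card) : S = W ∪ W.image (fun a => (r : L) ^ 2 / a) := by
  symm
  apply Finset.eq_of_subset_of_card_le
  · intro a ha
    rcases Finset.mem_union.1 ha with h1 | h1
    · exact hWS a h1
    · obtain ⟨b, hbW, rfl⟩ := Finset.mem_image.1 h1
      exact hbar b hbW
  · rw [dbl_card57 hr hb, hc]

/-- the four conjugates -/
theorem four57 (h : Ctx p e r v m) {y w u : L} (hy : y ∈ m) (h4 : (conjs y).card = 4)
    (hw : w ∈ conjs y) (hu : u ∈ conjs y) (h1 : u ≠ w) (h2 : u ≠ (r : L) ^ 2 / w) :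
    (∀ a ∈ ({w, u} : Finset L), (r : L) ^ 2 / a ∉ ({w, u} : Finset L)) ∧
    conjs y = {w, u} ∪ ({w, u} : Finset L).image (fun a => (r : L) ^ 2 / a) := by
  have hmem : ∀ b ∈ conjs y, b ∈ m := by
    intro b hb
    obtain ⟨g, rfl⟩ := Ctx.mem_conjs.1 hb
    exact h.hA.mem_map g hy
  have hb : ∀ a ∈ ({w, u} : Finset L), (r : L) ^ 2 / a ∉ ({w, u} : Finset L) := by
    intro a ha
    rw [Finset.mem_insert, Finset.mem_singleton] at ha ⊢
    rcases ha with rfl | rfl
    · rintro (h' | h')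
      · exact h.bar_ne (hmem _ hw) h'
      · exact h2 h'.symm
    · rintro (h' | h')
      · exact h2 (by rw [← h', bb h.r_pos])
      · exact h.bar_ne (hmem _ hu) h'
  refine ⟨hb, full57 h.r_pos ?_ ?_ hb ?_⟩
  · intro a ha
    rw [Finset.mem_insert, Finset.mem_singleton] at ha
    rcases ha with rfl | rfl
    · exact hw
    · exact hu
  · intro a ha
    rw [Finset.mem_insert, Finset.mem_singleton] at ha
    rcases ha with rfl | rfl
    · exact (bar_mem_conjs h hy).2 hw
    · exact (bar_mem_conjs h hy).2 hu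
  · rw [Finset.card_pair h1.symm, h4]

/-- every element is one of the four -/
theorem four_or57 (h : Ctx p e r v m) {y w u x : L} (hy : y ∈ m) (h4 : (conjs y).card = 4)
    (hw : w ∈ conjs y) (hu : u ∈ conjs y) (h1 : u ≠ w) (h2 : u ≠ (r : L) ^ 2 / w)
    (hx : x ∈ conjs y) : x = w ∨ x = u ∨ x = (r : L) ^ 2 / w ∨ x = (r : L) ^ 2 / u := by
  rw [(four57 h hy h4 hw hu h1 h2).2, Finset.mem_union, Finset.mem_image] at hx
  rcases hx with hx | ⟨b, hb, rfl⟩
  · rw [Finset.mem_insert, Finset.mem_singleton] at hx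
    rcases hx with hx | hx
    · exact Or.inl hx
    · exact Or.inr (Or.inl hx)
  · rw [Finset.mem_insert, Finset.mem_singleton] at hb
    rcases hb with rfl | rfl
    · exact Or.inr (Or.inr (Or.inl rfl))
    · exact Or.inr (Or.inr (Or.inr rfl))

/-- the fourth power of an automorphism fixes the four conjugates -/
theorem pow4_57 (h : Ctx p e r v m) {y : L} (hy : y ∈ m) (h4 : (conjs y).card = 4)
    (g : L ≃ₐ[ℚ] L) {w : L} (hw : w ∈ conjs y) : g (g (g (g w))) = w := by
  have hr := h.r_pos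
  have key : g (g w) = w ∨ g (g w) = (r : L) ^ 2 / w := by
    by_cases h1 : g w = w
    · left
      rw [h1, h1]
    by_cases h2 : g w = (r : L) ^ 2 / w
    · left
      rw [h2, map_bar, h2, bb hr]
    have hu : g w ∈ conjs y := (mem_conjs_apply g y w).2 hw
    have hgu : g (g w) ∈ conjs y := (mem_conjs_apply g y (g w)).2 hu
    rcases four_or57 h hy h4 hw hu h1 h2 hgu with h3 | h3 | h3 | h3
    · exact Or.inl h3
    · exact absurd (g.injective h3) h1
    · exact Or.inr h3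
    · rw [← map_bar] at h3
      exact absurd (g.injective h3) h2
  rcases key with h3 | h3
  · rw [h3, h3]
  · rw [h3, map_bar, map_bar, h3, bb hr]

/-! ## Independence -/

theorem indep57 (h : Ctx p e r v m) {y z : L} (hy : y ∈ m) (hc : z ∈ conjs y) (h1 : z ≠ y)
    (h2 : z ≠ (r : L) ^ 2 / y) {α β : ℤ} (he : ∀ g, α * X r v y g + β * X r v z g = 0) :
    α = 0 ∧ β = 0 := by
  have hz : z ∈ m := by
    obtain ⟨k, rfl⟩ := Ctx.mem_conjs.1 hc
    exact h.hA.mem_map k hy
  have hN : ip (X r v z) (X r v z) = ip (X r v y) (X r v y) := by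
    obtain ⟨k, rfl⟩ := Ctx.mem_conjs.1 hc
    exact Ctx.norm_map k y
  have hpos : 0 < ip (X r v y) (X r v y) := ip_self_pos _ (h.Xne hy)
  have e1 : α • X r v y = (-β) • X r v z := by
    ext g
    have := he g
    simp only [Pi.smul_apply, smul_eq_mul]
    linarith
  have e2 : ip (α • X r v y) (α • X r v y) = α ^ 2 * ip (X r v y) (X r v y) := by
    rw [ip_smul_left, ip_smul_right]; ring
  have e3 : ip ((-β) • X r v z) ((-β) • X r v z) = β ^ 2 * ip (X r v y) (X r v y) := by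
    rw [ip_smul_left, ip_smul_right, hN]; ring
  rw [e1, e3] at e2
  have e4 : β ^ 2 = α ^ 2 := mul_right_cancel₀ hpos.ne' e2
  by_cases hα : α = 0
  · refine ⟨hα, ?_⟩
    rw [hα] at e4
    exact pow_eq_zero_iff (two_ne_zero) |>.1 (by simpa using e4)
  · exfalso
    rcases sq_eq_sq_iff_eq_or_eq_neg.1 e4 with e5 | e5
    · apply h2
      apply h.inj_bar hz hy
      ext g
      have h5 := he g
      rw [e5] at h5
      have h3 : α * (X r v y g + X r v z g) = 0 := by linarith
      have h4 := (mul_eq_zero.1 h3).resolve_left hα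
      rw [Pi.neg_apply]
      linarith
    · apply h1
      apply h.inj hz hy
      ext g
      have h5 := he g
      rw [e5] at h5
      have h3 : α * (X r v y g - X r v z g) = 0 := by linarith
      have h4 := (mul_eq_zero.1 h3).resolve_left hα
      linarith

/-! ## Six conjugates -/

theorem six57 (hCyc : StCyc) (h : Ctx p e r v m) {x : L} (hx : x ∈ m) (h6 : (conjs x).card = 6) :
    ∃ (g : L ≃ₐ[ℚ] L) (c₁ c₂ c₃ : L), c₁ ∈ conjs x ∧ c₂ ∈ conjs x ∧ c₃ ∈ conjs x ∧
      g c₁ = c₂ ∧ g c₂ = c₃ ∧ g c₃ = c₁ ∧ c₁ ≠ c₂ ∧ c₁ ≠ c₃ ∧ c₂ ≠ c₃ ∧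
      (∀ a ∈ ({c₁, c₂, c₃} : Finset L), (r : L) ^ 2 / a ∉ ({c₁, c₂, c₃} : Finset L)) ∧
      conjs x = {c₁, c₂, c₃} ∪ ({c₁, c₂, c₃} : Finset L).image (fun a => (r : L) ^ 2 / a) := by
  have hr := h.r_pos
  have hmem : ∀ b ∈ conjs x, b ∈ m := by
    intro b hb
    obtain ⟨g, rfl⟩ := Ctx.mem_conjs.1 hb
    exact h.hA.mem_map g hx
  obtain ⟨g, hg3, c, hc, hgc⟩ := hCyc L x 3 Nat.prime_three (by rw [h6]; decide)
  have e3 : g (g (g c)) = c := by
    have h1 := hg3 c hc
    rw [pow_three] at h1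
    exact h1
  have hc2 : g c ∈ conjs x := (mem_conjs_apply g x c).2 hc
  have hc3 : g (g c) ∈ conjs x := (mem_conjs_apply g x (g c)).2 hc2
  have n12 : c ≠ g c := fun h' => hgc h'.symm
  have n23 : g c ≠ g (g c) := fun h' => n12 (g.injective h')
  have n13 : c ≠ g (g c) := by
    intro h'
    have h1 : g (g (g c)) = g c := congrArg g h'.symm
    rw [e3] at h1
    exact n12 h1
  -- no conjugate pairs
  have b12 : g c ≠ (r : L) ^ 2 / c := by
    intro h'
    apply n13
    conv_rhs => rw [h', map_bar, h', bb hr]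
  have b23 : g (g c) ≠ (r : L) ^ 2 / g c := by
    intro h'
    rw [← map_bar] at h'
    exact b12 (g.injective h')
  have b31 : c ≠ (r : L) ^ 2 / g (g c) := by
    intro h'
    rw [← map_bar, ← map_bar] at h'
    conv_lhs at h' => rw [← e3]
    exact b12 (g.injective (g.injective h'))
  have hb : ∀ a ∈ ({c, g c, g (g c)} : Finset L),
      (r : L) ^ 2 / a ∉ ({c, g c, g (g c)} : Finset L) := by
    intro a ha
    simp only [Finset.mem_insert, Finset.mem_singleton] at ha ⊢
    rintro h'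
    rcases ha with ha | ha | ha
    · rw [ha] at h'
      rcases h' with h' | h' | h'
      · exact h.bar_ne (hmem _ hc) h'
      · exact b12 h'.symm
      · exact b31 (by rw [← h', bb hr])
    · rw [ha] at h'
      rcases h' with h' | h' | h'
      · have h3 := bb hr (g c)
        rw [h'] at h3
        exact b12 h3.symm
      · exact h.bar_ne (hmem _ hc2) h'
      · exact b23 h'.symm
    · rw [ha] at h'
      rcases h' with h' | h' | h'
      · exact b31 h'.symm
      · have h3 := bb hr (g (g c))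
        rw [h'] at h3
        exact b23 h3.symm
      · exact h.bar_ne (hmem _ hc3) h'
  refine ⟨g, c, g c, g (g c), hc, hc2, hc3, rfl, rfl, e3, n12, n13, n23, hb,
    full57 hr ?_ ?_ hb ?_⟩
  · intro a ha
    simp only [Finset.mem_insert, Finset.mem_singleton] at ha
    rcases ha with rfl | rfl | rfl
    · exact hc
    · exact hc2
    · exact hc3
  · intro a ha
    simp only [Finset.mem_insert, Finset.mem_singleton] at ha
    rcases ha with rfl | rfl | rfl
    · exact (bar_mem_conjs h hx).2 hc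
    · exact (bar_mem_conjs h hx).2 hc2
    · exact (bar_mem_conjs h hx).2 hc3
  · rw [h6, Finset.card_eq_three.2 ⟨c, g c, g (g c), n12, n13, n23, rfl⟩]

/-! ## The configuration -/

/-- the configuration: conjugates `y`, `z` and bars; `c₁`, `c₂`, `c₃` and bars -/
structure K57 (p e r : ℕ) (v : HeightOneSpectrum (𝓞 L)) (m : Multiset L) (y z c₁ c₂ c₃ : L) :
    Prop where
  h : Ctx p e r v m
  my : y ∈ m
  h4 : (conjs y).card = 4
  cy : m.count y = 1
  hz : z ∈ conjs y
  zy : z ≠ y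
  zy' : z ≠ (r : L) ^ 2 / y
  m1 : c₁ ∈ m
  m2 : c₂ ∈ m
  m3 : c₃ ∈ m
  n12 : c₁ ≠ c₂
  n13 : c₁ ≠ c₃
  n23 : c₂ ≠ c₃
  hb : ∀ a ∈ ({c₁, c₂, c₃} : Finset L), (r : L) ^ 2 / a ∉ ({c₁, c₂, c₃} : Finset L)
  hX : conjs c₁ = {c₁, c₂, c₃} ∪ ({c₁, c₂, c₃} : Finset L).image (fun a => (r : L) ^ 2 / a)
  e2 : c₂ ∈ conjs c₁
  e3 : c₃ ∈ conjs c₁
  exp : ∀ u : Multiset L, (∀ a ∈ u, a ∈ m) → ∀ g : L ≃ₐ[ℚ] L, XS r v u g =
    kk r u y * X r v y g + kk r u z * X r v z g + (kk r u c₁ * X r v c₁ g +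
      kk r u c₂ * X r v c₂ g + kk r u c₃ * X r v c₃ g)
  tau : ∃ τ : L ≃ₐ[ℚ] L, τ y = y ∧ τ z = z ∧ τ c₁ = c₂ ∧ τ c₂ = c₃ ∧ τ c₃ = c₁

theorem config57 (hCyc : StCyc) (h : Ctx p e r v m) (hc : m.card ≤ 10) {y x : L} (hy : y ∈ m)
    (hx : x ∈ m) (h4 : (conjs y).card = 4) (h6 : (conjs x).card = 6) :
    ∃ c₁ c₂ c₃ : L, conjs c₁ = conjs x ∧ ∀ z ∈ conjs y, z ≠ y → z ≠ (r : L) ^ 2 / y →
      K57 p e r v m y z c₁ c₂ c₃ := by
  have hr := h.r_pos
  have hxy : x ∉ conjs y := by
    intro h'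
    rw [conjs_eq h', h4] at h6
    exact absurd h6 (by decide)
  have hcnt := Ctx.conjs_count2 h hy hx hxy
  have hcy0 := Multiset.count_pos.2 hy
  have hcx0 := Multiset.count_pos.2 hx
  rw [h4, h6] at hcnt
  have hcy : m.count y = 1 := by omega
  have hcx : m.count x = 1 := by omega
  have hdis : Disjoint (conjs y) (conjs x) := by
    rw [Finset.disjoint_left]
    intro a ha ha'
    apply hxy
    rw [← conjs_eq ha, conjs_eq ha']
    exact self_conjs x
  have hall : m.toFinset = conjs y ∪ conjs x := by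
    ext w
    rw [Multiset.mem_toFinset, Finset.mem_union]
    constructor
    · intro hw
      by_contra hno
      push Not at hno
      have h1 := sum_count_le (m := m) (insert w (conjs y ∪ conjs x))
      rw [Finset.sum_insert (by rw [Finset.mem_union]; tauto), Finset.sum_union hdis,
        Finset.sum_congr rfl (fun b hb => Ctx.count_of_conjs h hb),
        Finset.sum_congr (s₁ := conjs x) rfl (fun b hb => Ctx.count_of_conjs h hb),
        Finset.sum_const, Finset.sum_const, h4, h6, hcy, hcx] at h1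
      have h2 := Multiset.count_pos.2 hw
      simp only [smul_eq_mul, mul_one] at h1
      omega
    · rintro (hw | hw)
      · obtain ⟨g, rfl⟩ := Ctx.mem_conjs.1 hw
        exact h.hA.mem_map g hy
      · obtain ⟨g, rfl⟩ := Ctx.mem_conjs.1 hw
        exact h.hA.mem_map g hx
  have hmem : ∀ b ∈ conjs x, b ∈ m := by
    intro b hb
    obtain ⟨g, rfl⟩ := Ctx.mem_conjs.1 hb
    exact h.hA.mem_map g hx
  have hmemy : ∀ b ∈ conjs y, b ∈ m := by
    intro b hb
    obtain ⟨g, rfl⟩ := Ctx.mem_conjs.1 hb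
    exact h.hA.mem_map g hy
  obtain ⟨g, c₁, c₂, c₃, k1, k2, k3, g1, g2, g3, n12, n13, n23, hb, hX⟩ := six57 hCyc h hx h6
  have hcc : conjs c₁ = conjs x := conjs_eq k1
  refine ⟨c₁, c₂, c₃, hcc, ?_⟩
  intro z hz zy zy'
  refine ⟨h, hy, h4, hcy, hz, zy, zy', hmem _ k1, hmem _ k2, hmem _ k3, n12, n13, n23, hb,
    hcc.trans hX, by rw [hcc]; exact k2, by rw [hcc]; exact k3, ?_, ?_⟩
  · intro u hu k
    obtain ⟨f1, f2⟩ := four57 h hy h4 (self_conjs y) hz zy zy'
    rw [Ctx.XS_count hu k, hall, Finset.sum_union hdis]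
    rw [f2, hX, dbl_sum57 h ?_ f1, dbl_sum57 h ?_ hb, Finset.sum_pair zy.symm,
      Finset.sum_insert, Finset.sum_pair n23]
    · ring
    · rw [Finset.mem_insert, Finset.mem_singleton]
      rintro (h' | h')
      · exact n12 h'
      · exact n13 h'
    · intro a ha
      simp only [Finset.mem_insert, Finset.mem_singleton] at ha
      rcases ha with rfl | rfl | rfl
      · exact hmem _ k1
      · exact hmem _ k2
      · exact hmem _ k3
    · intro a ha
      simp only [Finset.mem_insert, Finset.mem_singleton] at ha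
      rcases ha with rfl | rfl
      · exact hy
      · exact hmemy _ hz
  · refine ⟨g * (g * (g * g)), ?_, ?_, ?_, ?_, ?_⟩
    · show g (g (g (g y))) = y
      exact pow4_57 h hy h4 g (self_conjs y)
    · show g (g (g (g z))) = z
      exact pow4_57 h hy h4 g hz
    · show g (g (g (g c₁))) = c₂
      rw [g1, g2, g3, g1]
    · show g (g (g (g c₂))) = c₃
      rw [g2, g3, g1, g2]
    · show g (g (g (g c₃))) = c₁
      rw [g3, g1, g2, g3]

/-! ## The function of the three conjugates -/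

/-- the sum of the three slope functions -/
noncomputable def Psi57 (r : ℕ) (v : HeightOneSpectrum (𝓞 L)) (c₁ c₂ c₃ : L) (g : L ≃ₐ[ℚ] L) : ℤ :=
  ∑ a ∈ ({c₁, c₂, c₃} : Finset L), X r v a g

omit [Field L] [NumberField L] [IsGalois ℚ L] in
theorem sum_perm57 {V : Finset L} (F : L → L) (hF : Function.Injective F) (hV : ∀ a ∈ V, F a ∈ V)
    (f : L → ℤ) : ∑ a ∈ V, f (F a) = ∑ a ∈ V, f a := by
  have h1 : V.image F = V := by
    apply Finset.eq_of_subset_of_card_le
    · intro a ha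
      obtain ⟨b, hb, rfl⟩ := Finset.mem_image.1 ha
      exact hV b hb
    · rw [Finset.card_image_of_injective _ hF]
  conv_rhs => rw [← h1]
  rw [Finset.sum_image (fun a _ b _ hab => hF hab)]

omit [IsGalois ℚ L] in
theorem kk_map57 (u : Multiset L) (k : L ≃ₐ[ℚ] L) (a : L) : kk r (u.map k) (k a) = kk r u a := by
  unfold kk
  rw [← map_bar, Multiset.count_map_eq_count' _ _ k.injective,
    Multiset.count_map_eq_count' _ _ k.injective]

omit [IsGalois ℚ L] in
theorem kk_bar57 (hr : 0 < r) (u : Multiset L) (a : L) : kk r u ((r : L) ^ 2 / a) = -kk r u a := by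
  unfold kk
  rw [bb hr]
  ring

omit [IsGalois ℚ L] in
theorem kk_pos57 (hr : 0 < r) (hR : Red r t) {w : L} (hw : w ∈ t) : kk r t w ≠ 0 := by
  have h1 := Multiset.count_pos.2 hw
  have h2 := (Ctx.red_or hr hR w).resolve_left (by omega)
  unfold kk
  rw [h2]
  omega

namespace K57

variable {y z c₁ c₂ c₃ : L}

omit [IsGalois ℚ L] in
theorem psi (g : L ≃ₐ[ℚ] L) (h12 : c₁ ≠ c₂) (h13 : c₁ ≠ c₃) (h23 : c₂ ≠ c₃) :
    Psi57 r v c₁ c₂ c₃ g = X r v c₁ g + X r v c₂ g + X r v c₃ g := by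
  unfold Psi57
  rw [Finset.sum_insert (by
    rw [Finset.mem_insert, Finset.mem_singleton]
    rintro (h' | h')
    · exact h12 h'
    · exact h13 h'), Finset.sum_pair h23, add_assoc]

/-- balanced multisets are constant on the three -/
theorem const (k : K57 p e r v m y z c₁ c₂ c₃) {u : Multiset L} (hu : ∀ a ∈ u, a ∈ m)
    (hb : ∀ g, XS r v u g = 0) : kk r u c₁ = kk r u c₂ ∧ kk r u c₂ = kk r u c₃ := by
  obtain ⟨τ, ty, tz, t1, t2, t3⟩ := k.tau
  have sy : ∀ g, X r v y (g * τ) = X r v y g := fun g => by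
    conv_rhs => rw [← ty]
    rfl
  have sz : ∀ g, X r v z (g * τ) = X r v z g := fun g => by
    conv_rhs => rw [← tz]
    rfl
  have s1 : ∀ g, X r v c₁ (g * τ) = X r v c₂ g := fun g => by
    conv_rhs => rw [← t1]
    rfl
  have s2 : ∀ g, X r v c₂ (g * τ) = X r v c₃ g := fun g => by
    conv_rhs => rw [← t2]
    rfl
  have s3 : ∀ g, X r v c₃ (g * τ) = X r v c₁ g := fun g => by
    conv_rhs => rw [← t3]
    rfl
  have E0 : ∀ g, kk r u y * X r v y g + kk r u z * X r v z g + (kk r u c₁ * X r v c₁ g +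
      kk r u c₂ * X r v c₂ g + kk r u c₃ * X r v c₃ g) = 0 :=
    fun g => (k.exp u hu g).symm.trans (hb g)
  have E1 : ∀ g, kk r u y * X r v y g + kk r u z * X r v z g + (kk r u c₁ * X r v c₂ g +
      kk r u c₂ * X r v c₃ g + kk r u c₃ * X r v c₁ g) = 0 := by
    intro g
    have h1 := E0 (g * τ)
    rw [sy, sz, s1, s2, s3] at h1
    exact h1
  have E2 : ∀ g, kk r u y * X r v y g + kk r u z * X r v z g + (kk r u c₁ * X r v c₃ g +
      kk r u c₂ * X r v c₁ g + kk r u c₃ * X r v c₂ g) = 0 := by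
    intro g
    have h1 := E1 (g * τ)
    rw [sy, sz, s1, s2, s3] at h1
    exact h1
  generalize kk r u c₁ = n1 at *
  generalize kk r u c₂ = n2 at *
  generalize kk r u c₃ = n3 at *
  by_contra hno
  have hq : (n1 - n3) ^ 2 + (n1 - n3) * (n2 - n1) + (n2 - n1) ^ 2 ≠ 0 := by
    intro h0
    apply hno
    have h1 : (n2 - n1) ^ 2 = 0 := le_antisymm (by
      nlinarith [sq_nonneg (2 * (n1 - n3) + (n2 - n1)), sq_nonneg (n2 - n1)]) (sq_nonneg _)
    have h2 : (n1 - n3) ^ 2 = 0 := le_antisymm (by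
      nlinarith [sq_nonneg (2 * (n2 - n1) + (n1 - n3)), sq_nonneg (n1 - n3)]) (sq_nonneg _)
    have h3 := pow_eq_zero_iff (two_ne_zero) |>.1 h1
    have h4 := pow_eq_zero_iff (two_ne_zero) |>.1 h2
    constructor <;> linarith
  apply k.n13
  apply k.h.inj k.m1 k.m3
  ext g
  have h1 : ((n1 - n3) ^ 2 + (n1 - n3) * (n2 - n1) + (n2 - n1) ^ 2) *
      (X r v c₁ g - X r v c₃ g) = 0 := by
    linear_combination (n1 - n3) * (E0 g - E1 g) - (n2 - n1) * (E1 g - E2 g)
  have h2 := (mul_eq_zero.1 h1).resolve_left hq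
  linarith

theorem const_map (k : K57 p e r v m y z c₁ c₂ c₃) (hR : Rel r m t) (f : L ≃ₐ[ℚ] L) :
    kk r t (f c₁) = kk r t (f c₂) ∧ kk r t (f c₂) = kk r t (f c₃) := by
  obtain ⟨f', hf'⟩ : ∃ f' : L ≃ₐ[ℚ] L, ∀ a, f' (f a) = a :=
    ⟨f.symm, fun a => AlgEquiv.symm_apply_apply f a⟩
  have hu : ∀ a ∈ t.map f', a ∈ m := by
    intro a ha
    obtain ⟨b, hb, rfl⟩ := Multiset.mem_map.1 ha
    exact k.h.hA.mem_map f' (hR.sub b hb)
  have hb : ∀ g, XS r v (t.map f') g = 0 :=
    (bal_iff k.h.hr k.h.hp k.h.hv (fun a ha => k.h.weil (hu a ha))).1 (hR.bal.map f')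
  have e : ∀ a, kk r (t.map f') a = kk r t (f a) := by
    intro a
    have h1 := kk_map57 (r := r) t f' (f a)
    rwa [hf' a] at h1
  have h1 := k.const hu hb
  rw [e, e, e] at h1
  exact h1

/-- `V` is mapped to `V` or to its conjugate -/
theorem map_V (k : K57 p e r v m y z c₁ c₂ c₃) (hR : Rel r m t) (hne : ∃ w ∈ t, w ∈ conjs c₁)
    (f : L ≃ₐ[ℚ] L) : (∀ a ∈ ({c₁, c₂, c₃} : Finset L), f a ∈ ({c₁, c₂, c₃} : Finset L)) ∨
    (∀ a ∈ ({c₁, c₂, c₃} : Finset L), (r : L) ^ 2 / f a ∈ ({c₁, c₂, c₃} : Finset L)) := by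
  have hr := k.h.r_pos
  obtain ⟨a1, a2⟩ := k.const_map hR 1
  have a1' : kk r t c₁ = kk r t c₂ := a1
  have a2' : kk r t c₂ = kk r t c₃ := a2
  have hV : ∀ a ∈ ({c₁, c₂, c₃} : Finset L), kk r t a = kk r t c₁ := by
    intro a ha
    simp only [Finset.mem_insert, Finset.mem_singleton] at ha
    rcases ha with rfl | rfl | rfl
    · rfl
    · exact a1'.symm
    · rw [a1', a2']
  have hall : ∀ a ∈ conjs c₁, (a ∈ ({c₁, c₂, c₃} : Finset L) ∧ kk r t a = kk r t c₁) ∨
      ((r : L) ^ 2 / a ∈ ({c₁, c₂, c₃} : Finset L) ∧ kk r t a = -kk r t c₁) := by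
    intro a ha
    rw [k.hX, Finset.mem_union, Finset.mem_image] at ha
    rcases ha with ha | ⟨b, hb, rfl⟩
    · exact Or.inl ⟨ha, hV a ha⟩
    · right
      rw [bb hr, kk_bar57 hr, hV b hb]
      exact ⟨hb, rfl⟩
  have hl : kk r t c₁ ≠ 0 := by
    obtain ⟨w, hw, hwc⟩ := hne
    have h1 := kk_pos57 hr hR.red hw
    rcases hall w hwc with ⟨_, h2⟩ | ⟨_, h2⟩
    · rwa [h2] at h1
    · rw [h2] at h1
      exact fun h' => h1 (by rw [h', neg_zero])
  obtain ⟨b1, b2⟩ := k.const_map hR f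
  have d1 := hall (f c₁) (conjs_map c₁ f)
  have d2 := hall (f c₂) ((mem_conjs_apply f c₁ c₂).2 k.e2)
  have d3 := hall (f c₃) ((mem_conjs_apply f c₁ c₃).2 k.e3)
  rcases d1 with ⟨d1, d1'⟩ | ⟨d1, d1'⟩
  · left
    rcases d2 with ⟨d2, d2'⟩ | ⟨d2, d2'⟩
    · rcases d3 with ⟨d3, d3'⟩ | ⟨d3, d3'⟩
      · intro a ha
        simp only [Finset.mem_insert, Finset.mem_singleton] at ha
        rcases ha with rfl | rfl | rfl
        · exact d1
        · exact d2
        · exact d3
      · exfalso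
        apply hl
        omega
    · exfalso
      apply hl
      omega
  · right
    rcases d2 with ⟨d2, d2'⟩ | ⟨d2, d2'⟩
    · exfalso
      apply hl
      omega
    · rcases d3 with ⟨d3, d3'⟩ | ⟨d3, d3'⟩
      · exfalso
        apply hl
        omega
      · intro a ha
        simp only [Finset.mem_insert, Finset.mem_singleton] at ha
        rcases ha with rfl | rfl | rfl
        · exact d1
        · exact d2
        · exact d3

omit [IsGalois ℚ L] in
theorem mem_V (k : K57 p e r v m y z c₁ c₂ c₃) : ∀ a ∈ ({c₁, c₂, c₃} : Finset L), a ∈ m := by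
  intro a ha
  simp only [Finset.mem_insert, Finset.mem_singleton] at ha
  rcases ha with rfl | rfl | rfl
  · exact k.m1
  · exact k.m2
  · exact k.m3

theorem sign (k : K57 p e r v m y z c₁ c₂ c₃) (hR : Rel r m t) (hne : ∃ w ∈ t, w ∈ conjs c₁)
    (f : L ≃ₐ[ℚ] L) : (∀ g, Psi57 r v c₁ c₂ c₃ (g * f) = Psi57 r v c₁ c₂ c₃ g) ∨
    (∀ g, Psi57 r v c₁ c₂ c₃ (g * f) = -Psi57 r v c₁ c₂ c₃ g) := by
  rcases k.map_V hR hne f with h1 | h1
  · left
    intro g
    exact sum_perm57 (fun a => f a) f.injective h1 (fun a => X r v a g)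
  · right
    intro g
    have h2 := sum_perm57 (fun a => (r : L) ^ 2 / f a)
      (fun a b hab => f.injective (bar_injective k.h.r_pos hab)) h1 (fun a => X r v a g)
    unfold Psi57
    rw [← h2, ← Finset.sum_neg_distrib]
    apply Finset.sum_congr rfl
    intro a ha
    have h3 : f a ∈ m := k.h.hA.mem_map f (k.mem_V a ha)
    show X r v (f a) g = -X r v ((r : L) ^ 2 / f a) g
    rw [k.h.Xbar h3, Pi.neg_apply, neg_neg]

theorem psi_conj (k : K57 p e r v m y z c₁ c₂ c₃) {c : L ≃ₐ[ℚ] L}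
    (hc : ∀ a : L, IsWeil r a → c a = (r : L) ^ 2 / a) (g : L ≃ₐ[ℚ] L) :
    Psi57 r v c₁ c₂ c₃ (g * c) = -Psi57 r v c₁ c₂ c₃ g := by
  unfold Psi57
  rw [← Finset.sum_neg_distrib]
  apply Finset.sum_congr rfl
  intro a ha
  show X r v (c a) g = -X r v a g
  rw [hc a (k.h.weil (k.mem_V a ha)), k.h.Xbar (k.mem_V a ha), Pi.neg_apply]

omit [IsGalois ℚ L] in
theorem psi_dec {d : L ≃ₐ[ℚ] L} (hd : d ∈ decomp v) : 
    Psi57 r v c₁ c₂ c₃ (d * 1) = Psi57 r v c₁ c₂ c₃ 1 := by
  unfold Psi57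
  exact Finset.sum_congr rfl (fun a _ => X_dec hd a 1)

/-- the relation -/
theorem rel (k : K57 p e r v m y z c₁ c₂ c₃) (hR : Rel r m t) (g : L ≃ₐ[ℚ] L) :
    kk r t y * X r v y g + kk r t z * X r v z g + kk r t c₁ * Psi57 r v c₁ c₂ c₃ g = 0 := by
  have h1 := (bal_iff k.h.hr k.h.hp k.h.hv (fun a ha => k.h.weil (hR.sub a ha))).1 hR.bal
  obtain ⟨a1, a2⟩ := k.const hR.sub h1
  have h2 := (k.exp t hR.sub g).symm.trans (h1 g)
  rw [← a2, ← a1] at h2
  rw [psi g k.n12 k.n13 k.n23]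
  linear_combination h2

/-- one of the first two coefficients is not zero -/
theorem nz (k : K57 p e r v m y z c₁ c₂ c₃) (hR : Rel r m t) (hty : ∃ w ∈ t, w ∈ conjs y) :
    ¬ (kk r t y = 0 ∧ kk r t z = 0) := by
  rintro ⟨h1, h2⟩
  obtain ⟨w, hw, hwy⟩ := hty
  have hr := k.h.r_pos
  apply kk_pos57 hr hR.red hw
  rcases four_or57 k.h k.my k.h4 (self_conjs y) k.hz k.zy k.zy' hwy with h3 | h3 | h3 | h3
  · rw [h3, h1]
  · rw [h3, h2]
  · rw [h3, kk_bar57 hr, h1, neg_zero]
  · rw [h3, kk_bar57 hr, h2, neg_zero]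

theorem ind (k : K57 p e r v m y z c₁ c₂ c₃) {α β : ℤ}
    (he : ∀ g, α * X r v y g + β * X r v z g = 0) : α = 0 ∧ β = 0 :=
  indep57 k.h k.my k.hz k.zy k.zy' he

omit [IsGalois ℚ L] in
theorem mz (k : K57 p e r v m y z c₁ c₂ c₃) : z ∈ m := by
  obtain ⟨f, hf⟩ := Ctx.mem_conjs.1 k.hz
  rw [← hf]
  exact k.h.hA.mem_map f k.my

/-- the values at conjugates -/
theorem four (k : K57 p e r v m y z c₁ c₂ c₃) {x : L} (hx : x ∈ conjs y) :
    x = y ∨ x = z ∨ (∀ g, X r v x g = -X r v y g) ∨ (∀ g, X r v x g = -X r v z g) := by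
  rcases four_or57 k.h k.my k.h4 (self_conjs y) k.hz k.zy k.zy' hx with h3 | h3 | h3 | h3
  · exact Or.inl h3
  · exact Or.inr (Or.inl h3)
  · right; right; left
    intro g
    rw [h3, k.h.Xbar k.my, Pi.neg_apply]
  · right; right; right
    intro g
    rw [h3, k.h.Xbar k.mz, Pi.neg_apply]

/-- the final contradiction -/
theorem fin (k : K57 p e r v m y z c₁ c₂ c₃) (hR : Rel r m t) (hty : ∃ w ∈ t, w ∈ conjs y)
    (hne : ∃ w ∈ t, w ∈ conjs c₁) {f : L ≃ₐ[ℚ] L}
    (hf : ∀ g, Psi57 r v c₁ c₂ c₃ (g * f) = Psi57 r v c₁ c₂ c₃ g) (hfy : f y = z) : False := by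
  have hr := k.h.r_pos
  have rel := k.rel hR
  have nz := k.nz hR hty
  have sign := k.sign hR hne
  -- nonvanishing
  have hsg : ∀ g, Psi57 r v c₁ c₂ c₃ g = Psi57 r v c₁ c₂ c₃ 1 ∨
      Psi57 r v c₁ c₂ c₃ g = -Psi57 r v c₁ c₂ c₃ 1 := by
    intro g
    rcases sign g with h1 | h1
    · left
      have h2 := h1 1
      rwa [one_mul] at h2
    · right
      have h2 := h1 1
      rwa [one_mul] at h2
  have hP : Psi57 r v c₁ c₂ c₃ 1 ≠ 0 := by
    intro h0
    apply nz
    apply k.ind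
    intro g
    have h1 := rel g
    have h2 : Psi57 r v c₁ c₂ c₃ g = 0 := by
      rcases hsg g with h2 | h2 <;> rw [h2, h0]
      exact neg_zero
    rw [h2] at h1
    linarith
  -- the coefficients
  have hD : ∀ f' : L ≃ₐ[ℚ] L, (∀ g, Psi57 r v c₁ c₂ c₃ (g * f') = Psi57 r v c₁ c₂ c₃ g) →
      ∀ g, kk r t y * X r v (f' y) g + kk r t z * X r v (f' z) g =
        kk r t y * X r v y g + kk r t z * X r v z g := by
    intro f' hf' g
    have h1 := rel g
    have h2 : kk r t y * X r v (f' y) g + kk r t z * X r v (f' z) g +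
      kk r t c₁ * Psi57 r v c₁ c₂ c₃ (g * f') = 0 := rel (g * f')
    rw [hf' g] at h2
    linarith
  have hcz : ∀ f' : L ≃ₐ[ℚ] L, f' z ∈ conjs y := fun f' => (mem_conjs_apply f' y z).2 k.hz
  have hcy : ∀ f' : L ≃ₐ[ℚ] L, f' y ∈ conjs y := fun f' => conjs_map y f'
  have hαβ : kk r t z = kk r t y := by
    have h1 := hD f hf
    rw [hfy] at h1
    rcases k.four (hcz f) with h2 | h2 | h2 | h2
    · rw [h2] at h1
      have h3 := k.ind (α := kk r t z - kk r t y) (β := kk r t y - kk r t z)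
        (fun g => by linear_combination h1 g)
      linarith [h3.1]
    · exact absurd (f.injective (hfy.trans h2.symm)).symm k.zy
    · exfalso
      have h3 := k.ind (α := -kk r t z - kk r t y) (β := kk r t y - kk r t z)
        (fun g => by
          have h4 := h1 g
          rw [h2 g] at h4
          linear_combination h4)
      apply nz
      constructor <;> linarith [h3.1, h3.2]
    · exfalso
      -- f z = bar z = f (bar y)
      have h3 := k.ind (α := -kk r t y) (β := kk r t y - 2 * kk r t z)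
        (fun g => by
          have h4 := h1 g
          rw [h2 g] at h4
          linear_combination h4)
      apply nz
      constructor <;> linarith [h3.1, h3.2]
  have hα : kk r t y ≠ 0 := fun h' => nz ⟨h', hαβ.trans h'⟩
  have hS : ∀ f' : L ≃ₐ[ℚ] L, (∀ g, Psi57 r v c₁ c₂ c₃ (g * f') = Psi57 r v c₁ c₂ c₃ g) →
      ∀ g, X r v (f' y) g + X r v (f' z) g = X r v y g + X r v z g := by
    intro f' hf' g
    have h1 := hD f' hf' g
    rw [hαβ] at h1
    apply mul_left_cancel₀ hα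
    linarith
  -- the pair is stable
  have hW : ∀ f' : L ≃ₐ[ℚ] L, (∀ g, Psi57 r v c₁ c₂ c₃ (g * f') = Psi57 r v c₁ c₂ c₃ g) →
      (f' y = y ∧ f' z = z) ∨ (f' y = z ∧ f' z = y) := by
    intro f' hf'
    have h1 := hS f' hf'
    rcases k.four (hcy f') with h2 | h2 | h2 | h2
    · left
      rw [h2] at h1
      refine ⟨h2, k.h.inj (k.h.hA.mem_map f' k.mz) k.mz ?_⟩
      ext g
      linarith [h1 g]
    · right
      rw [h2] at h1
      refine ⟨h2, k.h.inj (k.h.hA.mem_map f' k.mz) k.my ?_⟩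
      ext g
      linarith [h1 g]
    · exfalso
      rcases k.four (hcz f') with h3 | h3 | h3 | h3
      · rw [h3] at h1
        have h4 := k.ind (α := 1) (β := 1) (fun g => by linarith [h1 g, h2 g])
        exact absurd h4.1 one_ne_zero
      · rw [h3] at h1
        have h4 := k.ind (α := 2) (β := 0) (fun g => by linarith [h1 g, h2 g])
        exact absurd h4.1 two_ne_zero
      · have h4 := k.ind (α := 3) (β := 1) (fun g => by linarith [h1 g, h2 g, h3 g])
        exact absurd h4.2 one_ne_zero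
      · have h4 := k.ind (α := 2) (β := 2) (fun g => by linarith [h1 g, h2 g, h3 g])
        exact absurd h4.1 two_ne_zero
    · exfalso
      rcases k.four (hcz f') with h3 | h3 | h3 | h3
      · rw [h3] at h1
        have h4 := k.ind (α := 0) (β := 2) (fun g => by linarith [h1 g, h2 g])
        exact absurd h4.2 two_ne_zero
      · rw [h3] at h1
        have h4 := k.ind (α := 1) (β := 1) (fun g => by linarith [h1 g, h2 g])
        exact absurd h4.1 one_ne_zero
      · have h4 := k.ind (α := 2) (β := 2) (fun g => by linarith [h1 g, h2 g, h3 g])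
        exact absurd h4.1 two_ne_zero
      · have h4 := k.ind (α := 1) (β := 3) (fun g => by linarith [h1 g, h2 g, h3 g])
        exact absurd h4.1 one_ne_zero
  have hdec : ∀ d ∈ decomp v, ∀ g, Psi57 r v c₁ c₂ c₃ (g * d) = Psi57 r v c₁ c₂ c₃ g := by
    intro d hd
    rcases sign d with h1 | h1
    · exact h1
    · exfalso
      have h2 := h1 1
      have h3 := psi_dec (r := r) (c₁ := c₁) (c₂ := c₂) (c₃ := c₃) hd
      rw [one_mul] at h2
      rw [mul_one] at h3
      apply hP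
      linarith
  -- integrality
  have hdvd : ord v ((r : L) ^ 2) ∣ ord v y + ord v z := by
    have hWm : ∀ a ∈ ({y, z} : Finset L), a ∈ m := by
      intro a ha
      rw [Finset.mem_insert, Finset.mem_singleton] at ha
      rcases ha with rfl | rfl
      · exact k.my
      · exact k.mz
    have horb : ∀ a ∈ ({y, z} : Finset L), ∀ b ∈ orb v a, b ∈ ({y, z} : Finset L) := by
      intro a ha b hb
      obtain ⟨d, hd, rfl⟩ := (mem_orb v).1 hb
      rw [Finset.mem_insert, Finset.mem_singleton] at ha ⊢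
      rcases hW d (hdec d hd) with ⟨h1, h2⟩ | ⟨h1, h2⟩
      · rcases ha with rfl | rfl
        · exact Or.inl h1
        · exact Or.inr h2
      · rcases ha with rfl | rfl
        · exact Or.inr h1
        · exact Or.inl h2
    have h1 := sum_dvd v (ord v ((r : L) ^ 2)) (fun a => m.count a) _ {y, z} rfl horb
      (fun a _ b hb => by
        obtain ⟨d, _, rfl⟩ := (mem_orb v).1 hb
        exact k.h.hA.count_map d a)
      (fun a ha => k.h.hA.integral a (hWm a ha))
    rw [Finset.sum_pair k.zy.symm] at h1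
    have h2 : m.count z = 1 := (Ctx.count_of_conjs k.h k.hz).trans k.cy
    rw [k.cy, h2] at h1
    simpa using h1
  -- the values
  have hQ := k.h.q_pos
  have hy1 : X r v y 1 = 2 * ord v y - ord v ((r : L) ^ 2) := rfl
  have hz1 : X r v z 1 = 2 * ord v z - ord v ((r : L) ^ 2) := rfl
  have hrel1 : ∀ g, kk r t y * (X r v y g + X r v z g) = -(kk r t c₁ * Psi57 r v c₁ c₂ c₃ g) := by
    intro g
    have h1 := rel g
    rw [hαβ] at h1
    linarith
  have hl : kk r t c₁ * Psi57 r v c₁ c₂ c₃ 1 ≠ 0 := by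
    intro h0
    have h1 : ∀ g, kk r t y * X r v y g + kk r t y * X r v z g = 0 := by
      intro g
      have h2 := hrel1 g
      have h3 : kk r t c₁ * Psi57 r v c₁ c₂ c₃ g = 0 := by
        rcases hsg g with h3 | h3 <;> rw [h3]
        · exact h0
        · rw [mul_neg, h0, neg_zero]
      rw [h3] at h2
      linarith
    exact hα (k.ind h1).1
  have hS1 : X r v y 1 + X r v z 1 ≠ 0 := by
    intro h0
    have h1 := hrel1 1
    rw [h0, mul_zero] at h1
    apply hl
    linarith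
  have hb1 := abs_le.1 (abs_X_le (v := v) hr (k.h.weil k.my) 1)
  have hb2 := abs_le.1 (abs_X_le (v := v) hr (k.h.weil k.mz) 1)
  obtain ⟨n, hn⟩ := hdvd
  have hval : X r v y 1 + X r v z 1 = 2 * ord v ((r : L) ^ 2) ∨
      X r v y 1 + X r v z 1 = -(2 * ord v ((r : L) ^ 2)) := by
    have h1 : X r v y 1 + X r v z 1 = 2 * (ord v ((r : L) ^ 2) * (n - 1)) := by
      rw [hy1, hz1]
      linear_combination 2 * hn
    have h2 : n ≤ 2 := by
      by_contra h'
      push Not at h'
      nlinarith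
    have h3 : 0 ≤ n := by
      by_contra h'
      push Not at h'
      nlinarith
    have h4 : n ≠ 1 := by
      rintro rfl
      apply hS1
      rw [h1]
      ring
    have h5 : n = 0 ∨ n = 2 := by omega
    rcases h5 with rfl | rfl
    · right
      rw [h1]
      ring
    · left
      rw [h1]
      ring
  apply k.zy
  apply k.h.inj k.mz k.my
  ext g
  have c1 := abs_le.1 (abs_X_le (v := v) hr (k.h.weil k.my) g)
  have c2 := abs_le.1 (abs_X_le (v := v) hr (k.h.weil k.mz) g)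
  have c3 : X r v y g + X r v z g = X r v y 1 + X r v z 1 ∨
      X r v y g + X r v z g = -(X r v y 1 + X r v z 1) := by
    have h1 := hrel1 g
    have h2 := hrel1 1
    rcases hsg g with h3 | h3
    · left
      rw [h3, ← h2] at h1
      exact mul_left_cancel₀ hα h1
    · right
      rw [h3, mul_neg, ← h2] at h1
      apply mul_left_cancel₀ hα
      rw [h1]
      ring
  rcases c3 with c3 | c3 <;> rcases hval with hval | hval <;> rw [hval] at c3 <;>
    linarith [c1.1, c1.2, c2.1, c2.2]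

end K57

theorem stB2_57 (hCyc : StCyc) : StB2 := by
  intro L _ _ _ p e r v m t y x h hc hy hx h4 h6 hR hty htx
  have hr := h.r_pos
  obtain ⟨c₁, c₂, c₃, hcc, hcfg⟩ := config57 hCyc h hc hy hx h4 h6
  have htx' : ∃ w ∈ t, w ∈ conjs c₁ := by rwa [hcc]
  obtain ⟨z0, hz0, z0y, z0y'⟩ : ∃ z ∈ conjs y, z ≠ y ∧ z ≠ (r : L) ^ 2 / y := by
    by_contra hno
    push Not at hno
    have h1 : conjs y ⊆ {y, (r : L) ^ 2 / y} := by
      intro z hz
      rw [Finset.mem_insert, Finset.mem_singleton]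
      by_cases h2 : z = y
      · exact Or.inl h2
      · exact Or.inr (hno z hz h2)
    have h2 := (Finset.card_le_card h1).trans Finset.card_le_two
    omega
  have hsign := (hcfg z0 hz0 z0y z0y').sign hR htx'
  obtain ⟨c, hcw⟩ := exists_conj (L := L) hr
  have hpc := (hcfg z0 hz0 z0y z0y').psi_conj hcw
  obtain ⟨z, hz, zy, zy', f, hf, hfy⟩ : ∃ z ∈ conjs y, z ≠ y ∧ z ≠ (r : L) ^ 2 / y ∧
      ∃ f : L ≃ₐ[ℚ] L, (∀ g, Psi57 r v c₁ c₂ c₃ (g * f) = Psi57 r v c₁ c₂ c₃ g) ∧ f y = z := by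
    obtain ⟨f0, hf0⟩ := Ctx.mem_conjs.1 hz0
    rcases hsign f0 with h1 | h1
    · exact ⟨z0, hz0, z0y, z0y', f0, h1, hf0⟩
    · refine ⟨(r : L) ^ 2 / z0, (bar_mem_conjs h hy).2 hz0, ?_, ?_, c * f0, ?_, ?_⟩
      · intro h'
        exact z0y' (by rw [← h', bb hr])
      · intro h'
        exact z0y (bar_injective hr h')
      · intro g
        have h2 := h1 (g * c)
        rw [hpc g, neg_neg] at h2
        rw [← mul_assoc]
        exact h2
      · show c (f0 y) = (r : L) ^ 2 / z0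
        rw [hf0]
        apply hcw
        rw [← hf0]
        exact (h.weil hy).map f0
  exact (hcfg z hz zy zy').fin hR hty htx' hf hfy

end Pool.Agent.Lib.MP81632f.Mk.P
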