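import Pool.Agent.Lib.MP_81632f_ag.Mk.P.Stmts34

/-! # Modules (1) StRed and StSix -/

namespace Pool.Agent.Lib.MP81632f.Mk.P

open NumberField IsDedekindDomain
open scoped Classical

theorem kk_add50 {L : Type} [Field L] [NumberField L] (r : ℕ) (s t : Multiset L) (a : L) :
    kk r (s + t) a = kk r s a + kk r t a := by
  unfold kk
  rw [Multiset.count_add, Multiset.count_add]
  push_cast
  ring

theorem kk_zero50 {L : Type} [Field L] [NumberField L] (r : ℕ) (a : L) :
    kk r (0 : Multiset L) a = 0 := by
  unfold kk
  simp

theorem kk_nsmul50 {L : Type} [Field L] [NumberField L] (r n : ℕ) (s : Multiset L) (a : L) :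
    kk r (n • s) a = n * kk r s a := by
  unfold kk
  rw [Multiset.count_nsmul, Multiset.count_nsmul]
  push_cast
  ring

theorem stRed_50 : StRed := by
  intro L _ _ _ p e r v m h
  have key : ∀ n : ℕ, ∀ u : Multiset L, u.card = n → (∀ a ∈ u, a ∈ m) →
      ∃ w : Multiset L, w ≤ u ∧ Red r w ∧ (∀ b : L, kk r w b = kk r u b) ∧
        (Bal r u → Bal r w) ∧ (∀ C : Set (Multiset L), CycleFamily r v C → (u ∈ C ↔ w ∈ C)) ∧
        ∃ j : ℕ, u.card = w.card + 2 * j := by
    intro n
    induction n using Nat.strong_induction_on with
    | _ n ih =>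
      intro u hn hu
      by_cases hp : ∃ a b : L, {a, b} ≤ u ∧ Bal r {a, b}
      · obtain ⟨a, b, hab, hb⟩ := hp
        obtain ⟨u', hu'⟩ := Multiset.le_iff_exists_add.1 hab
        have ha : a ∈ u := Multiset.mem_of_le hab (by simp)
        have hbu : b ∈ u := Multiset.mem_of_le hab (by simp)
        have hX : X r v b = -X r v a := by
          ext g
          have h1 := hb.XS_eq_zero (v := v) h.r_pos
            (fun x hx => h.ne_zero (hu x (Multiset.mem_of_le hab hx))) g
          rw [Multiset.insert_eq_cons, XS_cons, XS_singleton] at h1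
          rw [Pi.neg_apply]
          linarith
        have hbar : b = (r : L) ^ 2 / a := h.inj_bar (hu b hbu) (hu a ha) hX
        have hkk : ∀ x, kk r ({a, b} : Multiset L) x = 0 := by
          intro x
          have e : ({a, b} : Multiset L) = {a} + bars r {a} := by
            rw [hbar]
            simp only [bars, Multiset.map_singleton, Multiset.insert_eq_cons,
              Multiset.singleton_add]
          rw [e, kk_add50, Ctx.kk_bars h.r_pos]
          ring
        have hcard : u.card = u'.card + 2 := by
          rw [hu', Multiset.card_add, Multiset.insert_eq_cons, Multiset.card_cons,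
            Multiset.card_singleton]
          ring
        have hle : u' ≤ u := by
          rw [hu']
          exact Multiset.le_add_left _ _
        obtain ⟨w, w1, w2, w3, w4, w5, j, w6⟩ := ih u'.card (by omega) u' rfl
          (fun x hx => hu x (Multiset.mem_of_le hle hx))
        refine ⟨w, w1.trans hle, w2, fun x => ?_, fun hbu => ?_, fun C hC => ?_, j + 1, by omega⟩
        · rw [w3 x, hu', kk_add50, hkk x, zero_add]
        · apply w4
          apply Bal.of_add h.r_pos _ hb
          rw [add_comm, ← hu']
          exact hbu
        · rw [← w5 C hC]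
          constructor
          · intro h1
            apply hC.remove u' a b (h.weil (hu a ha)) (h.weil (hu b hbu)) hb
            rw [add_comm, ← hu']
            exact h1
          · intro h1
            rw [hu']
            exact hC.add _ _ (hC.pair a b (h.weil (hu a ha)) (h.weil (hu b hbu)) hb) h1
      · refine ⟨u, le_rfl, ⟨fun a ha => h.weil (hu a ha), fun a ha => h.hss a (hu a ha),
          fun a b hab hb => hp ⟨a, b, hab, hb⟩⟩, fun _ => rfl, fun hb => hb,
          fun C _ => Iff.rfl, 0, by omega⟩
  intro u hu
  exact key u.card u rfl hu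

theorem stSix_50 : StSix := by
  intro L _ _ _ r v C hr hv hC T hR hb hA hg hd h6
  have hne : T ≠ bars r T := by
    intro he
    have hpos : 0 < T.card := by omega
    obtain ⟨a, ha⟩ := Multiset.card_pos_iff_exists_mem.1 hpos
    exact hR.notMem_bars hr ha (he ▸ ha)
  have hk := isKType hr hR hg hne
  have hhalf := half_eq hr hR
  obtain ⟨φ, hφ, _⟩ := exists_lift hr hv hA hk
  have hcard : (T + bars r T).card = 2 * T.card := by
    rw [Multiset.card_add, card_bars]; ring
  have hsp' : ∀ d ∈ decomp v, chi hr T hg hne d = 1 := by
    intro d hd'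
    show (if T.map d = T then (1 : ℤˣ) else -1) = 1
    rw [if_pos (hd d hd')]
  have h2 := sig_split hA hr hv hk hφ hsp' (by rw [hhalf]; exact hb)
  rw [hhalf] at h2
  have h5 := hC.weil (T + bars r T) (chi hr T hg hne) (kap T) φ 0 0 hA hk hφ le_rfl
        (fun h' => absurd h' (lt_irrefl 0)) (Or.inr ⟨by omega, by omega⟩)
  rw [hhalf, Multiset.replicate_zero, add_zero] at h5
  exact h5

end Pool.Agent.Lib.MP81632f.Mk.P
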