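import Pool.Agent.Lib.MP_81632f_ag.Mk.P.Stmts2_34
import Pool.Agent.Lib.MP_81632f_ag.Mk.P.A4a_40

/-! # (T1), (T2) -/

namespace Pool.Agent.Lib.MP81632f.Mk.P

open NumberField IsDedekindDomain A3h40 A4ah40
open scoped Classical

section

variable {L : Type} [Field L] [NumberField L] [IsGalois ℚ L]
variable {p e r : ℕ} {v : HeightOneSpectrum (𝓞 L)} {m : Multiset L}

theorem bal_three (h : Ctx p e r v m) {x y z : L} (hx : x ∈ m) (hy : y ∈ m) (hz : z ∈ m)
    (hs : ∀ g, X r v x g + X r v y g + X r v z g = 0) : Bal r {x, y, z} := by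
  apply bal_of_XS h.hr h.hp h.hv
  · intro w hw
    simp only [Multiset.insert_eq_cons, Multiset.mem_cons, Multiset.mem_singleton] at hw
    rcases hw with rfl | rfl | rfl
    · exact h.weil hx
    · exact h.weil hy
    · exact h.weil hz
  · intro g
    simp only [Multiset.insert_eq_cons, XS_cons, XS_singleton]
    have := hs g
    omega

theorem stT1_34 : StT1 := by
  intro L _ _ _ p e r v m a U μ α β k hodd
  rw [card_TT] at hodd
  have ht := k.tab
  have hrows : (U.card = 1 ∧ α = 1 ∧ β = 2) ∨ (U.card = 1 ∧ α = 2 ∧ β = 1) ∨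
      (U.card = 2 ∧ α = 1 ∧ β = 1) := by
    unfold Tab at ht
    rcases ht with h | h | h | h | h | h | h
    · exact absurd ⟨2, by rw [h.2.2.2.2.1, h.2.2.2.2.2, h.1]⟩ hodd
    · exact Or.inl ⟨h.1, h.2.2.2.1, h.2.2.2.2⟩
    · exact absurd ⟨2, by rw [h.2.2.2.2.1, h.2.2.2.2.2, h.1]⟩ hodd
    · exact Or.inr (Or.inl ⟨h.1, h.2.2.2.1, h.2.2.2.2⟩)
    · exact Or.inr (Or.inr ⟨h.1, h.2.2.2.1, h.2.2.2.2⟩)
    · exact absurd ⟨2, by rw [h.2.2.2.2.1, h.2.2.2.2.2, h.1]⟩ hodd
    · exact absurd ⟨3, by rw [h.2.2.2.1, h.2.2.2.2, h.1]⟩ hodd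
  have h2 : (conjs a).card ≤ 4 := by rw [k.h2]; norm_num
  rcases hrows with ⟨h1, rfl, rfl⟩ | ⟨h1, rfl, rfl⟩ | ⟨h1, rfl, rfl⟩
  · obtain ⟨x, rfl⟩ := Finset.card_eq_one.1 h1
    have hx := k.blk.mem x (Finset.mem_singleton_self x)
    refine ⟨x, hx, a, k.ha, 1, ?_, h2⟩
    apply bal_three k.h hx (k.h.hA.mem_map 1 hx) k.ha
    intro g
    have h3 := k.rel g
    rw [Finset.sum_singleton] at h3
    have h4 : X r v ((1 : L ≃ₐ[ℚ] L) x) g = X r v x g := rfl
    rw [h4]
    push_cast at h3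
    omega
  · obtain ⟨x, rfl⟩ := Finset.card_eq_one.1 h1
    have hx := k.blk.mem x (Finset.mem_singleton_self x)
    refine ⟨a, k.ha, x, hx, 1, ?_, ?_⟩
    · apply bal_three k.h k.ha (k.h.hA.mem_map 1 k.ha) hx
      intro g
      have h3 := k.rel g
      rw [Finset.sum_singleton] at h3
      have h4 : X r v ((1 : L ≃ₐ[ℚ] L) a) g = X r v a g := rfl
      rw [h4]
      push_cast at h3
      omega
    · have hsub : conjs x ⊆ {x, (r : L) ^ 2 / x} := by
        intro z hz
        obtain ⟨g, rfl⟩ := Ctx.mem_conjs.1 hz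
        rw [Finset.mem_insert, Finset.mem_singleton]
        by_cases hg : g a = a
        · exact Or.inl (Finset.mem_singleton.1 (k.blk.fix g hg x (Finset.mem_singleton_self x)))
        · right
          have h5 := Finset.mem_singleton.1 (k.blk.flip g hg x (Finset.mem_singleton_self x))
          calc g x = (r : L) ^ 2 / ((r : L) ^ 2 / g x) := (bb k.h.r_pos _).symm
            _ = (r : L) ^ 2 / x := by rw [h5]
      exact (Finset.card_le_card hsub).trans ((Finset.card_le_two).trans (by norm_num))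
  · obtain ⟨x, y, hxy, hU⟩ := Finset.card_eq_two.1 h1
    have hx : x ∈ U := by rw [hU]; simp
    have hy : y ∈ U := by rw [hU]; simp
    obtain ⟨g, _, hgy⟩ := k.blk.trans x hx y hy
    refine ⟨x, k.blk.mem x hx, a, k.ha, g, ?_, h2⟩
    rw [hgy]
    apply bal_three k.h (k.blk.mem x hx) (k.blk.mem y hy) k.ha
    intro g'
    have h3 := k.rel g'
    rw [hU, Finset.sum_pair hxy] at h3
    push_cast at h3
    omega

theorem stT2_34 : StT2 := by
  intro L _ _ _ p e r v m w a U μ ν S k hU4 hw hwS hν hS4 hSU hSU2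
  have hr := k.h.r_pos
  have hSw : ∀ b ∈ S, b ∈ w := by
    intro b hb
    rw [hwS, ← Multiset.count_pos, Multiset.count_nsmul,
      Multiset.count_eq_one_of_mem S.nodup hb]
    omega
  -- the sum over S
  have hsumS : ∀ g : L ≃ₐ[ℚ] L, ∑ b ∈ S, X r v b g = 0 := by
    intro g
    have h1 := (bal_iff k.h.hr k.h.hp k.h.hv hw.red.weil).1 hw.bal g
    rw [hwS, XS_nsmul, XS_val] at h1
    rcases mul_eq_zero.1 h1 with h2 | h2
    · omega
    · exact h2
  obtain ⟨x, y, hxy, hI⟩ := Finset.card_eq_two.1 hSU2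
  have hx : x ∈ S ∩ U := by rw [hI]; simp
  have hy : y ∈ S ∩ U := by rw [hI]; simp
  have hxU := (Finset.mem_inter.1 hx).2
  have hyU := (Finset.mem_inter.1 hy).2
  -- the other two elements
  have himg : (S \ U).image (fun b => (r : L) ^ 2 / b) = U \ S := by
    apply Finset.eq_of_subset_of_card_le
    · intro z hz
      obtain ⟨b, hb, rfl⟩ := Finset.mem_image.1 hz
      rw [Finset.mem_sdiff] at hb ⊢
      have hbm := hw.sub b (hSw b hb.1)
      refine ⟨(hSU b hb.1).resolve_left hb.2, fun h' => ?_⟩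
      exact hw.red.bar_notMem hr (hSw b hb.1) (hSw _ h')
    · rw [Finset.card_image_of_injective _ (bar_injective hr)]
      have h1 := Finset.card_sdiff_add_card_inter S U
      have h2 := Finset.card_sdiff_add_card_inter U S
      rw [Finset.inter_comm U S] at h2
      omega
  have hsum : ∀ g : L ≃ₐ[ℚ] L, X r v x g + X r v y g + X r v a g = 0 := by
    intro g
    have h1 := hsumS g
    have h2 := k.rel g
    have e1 : ∑ b ∈ S ∩ U, X r v b g = X r v x g + X r v y g := by
      rw [hI, Finset.sum_pair hxy]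
    have e2 : ∑ b ∈ U \ S, X r v b g = -∑ b ∈ S \ U, X r v b g := by
      rw [← himg, Finset.sum_image (fun _ _ _ _ h => bar_injective hr h),
        ← Finset.sum_neg_distrib]
      apply Finset.sum_congr rfl
      intro b hb
      rw [k.h.Xbar (hw.sub b (hSw b (Finset.mem_sdiff.1 hb).1)), Pi.neg_apply]
    have e3 : ∑ b ∈ S, X r v b g = ∑ b ∈ S \ U, X r v b g + ∑ b ∈ S ∩ U, X r v b g := by
      rw [← Finset.sum_sdiff (Finset.inter_subset_left : S ∩ U ⊆ S), Finset.sdiff_inter_self_left]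
    have e4 : ∑ b ∈ U, X r v b g = ∑ b ∈ U \ S, X r v b g + ∑ b ∈ S ∩ U, X r v b g := by
      rw [← Finset.sum_sdiff (Finset.inter_subset_right : S ∩ U ⊆ U), Finset.sdiff_inter_self_right]
    rw [e3, e1] at h1
    rw [e4, e1, e2] at h2
    push_cast at h2
    omega
  obtain ⟨g, _, hgy⟩ := k.blk.trans x hxU y hyU
  refine ⟨x, k.blk.mem x hxU, a, k.ha, g, ?_, by rw [k.h2]; norm_num⟩
  rw [hgy]
  exact bal_three k.h (k.blk.mem x hxU) (k.blk.mem y hyU) k.ha hsum

end

end Pool.Agent.Lib.MP81632f.Mk.P
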