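import Pool.Agent.Lib.MP_81632f_ag.Mk.P.Stmts2_34
import Pool.Agent.Lib.MP_81632f_ag.Mk.P.A4a_40

/-! # (T3) -/

namespace Pool.Agent.Lib.MP81632f.Mk.P

open NumberField IsDedekindDomain A3h40 A4ah40
open scoped Classical

theorem stT3_34 (hA3 : StA3) : StT3 := by
  intro L _ _ _ p e r v m t a U μ α β h hT hat hk
  have k : Bk p e r v m a U := ⟨h.h, h.ha, h.h2, h.blk⟩
  have hr := h.h.r_pos
  obtain ⟨hrel, _⟩ := hA3 L p e r v m a U μ α β h
  obtain ⟨hk0, hα0⟩ := tab_pos h.tab
  obtain ⟨b, hb⟩ := Finset.card_pos.1 hk0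
  -- the multiplicity
  have hdvd : α ∣ t.count a := by
    apply tab_dvd h.tab
    have h1 := hk b
    have h2 : kk r (TT a U α β) b = β := by
      unfold kk
      rw [count_TT_b k.not hb]
      have h3 : (TT a U α β).count ((r : L) ^ 2 / b) = 0 := by
        apply Multiset.count_eq_zero_of_notMem
        intro h'
        rcases mem_TT h' with h4 | h4
        · apply k.not'
          rw [← h4, bb hr]
          exact hb
        · exact k.blk.disj b hb h4
      rw [h3]
      simp
    rw [h2] at h1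
    have h3 : (α : ℤ) ∣ (t.count a * β : ℕ) := ⟨kk r t b, by push_cast; rw [h1]⟩
    exact_mod_cast h3
  obtain ⟨n, hn⟩ := hdvd
  have heq : t = n • TT a U α β := by
    have hsub : ∀ x ∈ n • TT a U α β, x ∈ m := fun x hx => hrel.sub x (mem_of_nsmul hx)
    apply Ctx.eq_of_kk h.h hT.red _ hT.sub hsub
    · intro x _
      rw [kk_nsmul]
      have h1 := hk x
      rw [hn] at h1
      push_cast at h1
      have hα : (α : ℤ) ≠ 0 := by exact_mod_cast hα0.ne'
      apply mul_left_cancel₀ hα
      rw [h1]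
      ring
    · rw [nsmul_TT]
      exact k.red _ _
  refine ⟨n, ?_⟩
  conv_lhs => rw [heq]
  exact Multiset.card_nsmul _ _

end Pool.Agent.Lib.MP81632f.Mk.P
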