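import Pool.Agent.Lib.MP_81632f_ag.Mk.P.Fin2_34
import Pool.Agent.Lib.MP_81632f_ag.Mk.P.A1_21
import Pool.Agent.Lib.MP_81632f_ag.Mk.P.A2_67
import Pool.Agent.Lib.MP_81632f_ag.Mk.P.A3_40
import Pool.Agent.Lib.MP_81632f_ag.Mk.P.A4a_40
import Pool.Agent.Lib.MP_81632f_ag.Mk.P.A4b33
import Pool.Agent.Lib.MP_81632f_ag.Mk.P.A4c50
import Pool.Agent.Lib.MP_81632f_ag.Mk.P.B1_21
import Pool.Agent.Lib.MP_81632f_ag.Mk.P.B2_57
import Pool.Agent.Lib.MP_81632f_ag.Mk.P.CycFive97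
import Pool.Agent.Lib.MP_81632f_ag.Mk.P.RedSix50
import Pool.Agent.Lib.MP_81632f_ag.Mk.P.T12_34
import Pool.Agent.Lib.MP_81632f_ag.Mk.P.T3_34
import Pool.Agent.Lib.MP_81632f_ag.Mk.P.B1odd34

/-! # All modules together -/

namespace Pool.Agent.Lib.MP81632f.Mk.P

theorem stA3_all34 : StA3 := stA3_40 stSix_50

theorem stB2_all34 : StB2 := stB2_57 stCyc_97

theorem stA_all34 : StA :=
  stA_34 stRed_50 stA1_21 stA2_67 stA3_all34 (stA4a_40 stA3_all34) stA4b_33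
    (stA4c_50 stRed_50 stA3_all34)

theorem stAodd_all34 : StAodd :=
  stAodd_34 stRed_50 stA1_21 stA2_67 stA3_all34 stA4b_33 stT1_34 stT2_34 (stT3_34 stA3_all34)

theorem stMainS_all34 : StMainS :=
  stMainS_34 stRed_50 stA_all34 (stB_34 (stB1_21 stCyc_97 stFive_97) stB2_all34) stAodd_all34
    (stBodd_34 (stB1odd_34 stCyc_97 stFive_97) stB2_all34)

end Pool.Agent.Lib.MP81632f.Mk.P
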