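import Pool.Agent.Lib.MP_81632f_ag.Mk.P.Aux34

/-! # Assembly -/

namespace Pool.Agent.Lib.MP81632f.Mk.P

open NumberField IsDedekindDomain
open scoped Classical

section count

variable {L : Type} [Field L] [NumberField L]
variable {p e r : ℕ} {v : HeightOneSpectrum (𝓞 L)} {m t : Multiset L}

omit [NumberField L] in
theorem count_TT (a : L) (U : Finset L) (α β : ℕ) (b : L) :
    (TT a U α β).count b = (if b = a then α else 0) + β * (if b ∈ U then 1 else 0) := by
  unfold TT
  rw [Multiset.count_add, Multiset.count_nsmul, Multiset.count_replicate]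
  congr 1
  · by_cases h : a = b
    · rw [if_pos h, if_pos h.symm]
    · rw [if_neg h, if_neg (fun h' => h h'.symm)]
  · congr 1
    by_cases h : b ∈ U
    · rw [if_pos h]
      exact Multiset.count_eq_one_of_mem U.nodup h
    · rw [if_neg h]
      exact Multiset.count_eq_zero_of_notMem h

/-- the part of `m` given by the conjugates of one element -/
theorem card_filter_conjs (h : Ctx p e r v m) {a : L} (ha : a ∈ m) :
    (m.filter (fun b => b ∈ conjs a)).card = (conjs a).card * m.count a := by
  rw [← Multiset.toFinset_sum_count_eq]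
  have h1 : (m.filter (fun b => b ∈ conjs a)).toFinset = conjs a := by
    ext x
    rw [Multiset.mem_toFinset, Multiset.mem_filter]
    constructor
    · exact fun hx => hx.2
    · intro hx
      refine ⟨?_, hx⟩
      obtain ⟨g, rfl⟩ := Ctx.mem_conjs.1 hx
      exact h.hA.mem_map g ha
  rw [h1]
  have h2 : ∀ x ∈ conjs a, (m.filter (fun b => b ∈ conjs a)).count x = m.count a := by
    intro x hx
    rw [Multiset.count_filter, if_pos hx]
    exact h.count_of_conjs hx
  rw [Finset.sum_congr rfl h2, Finset.sum_const, smul_eq_mul]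

end count

theorem stA_34 (hRed : StRed) (hA1 : StA1) (hA2 : StA2) (hA3 : StA3) (hA4a : StA4a)
    (hA4b : StA4b) (hA4c : StA4c) : StA := by
  intro L _ _ _ p e r v m t a h hc hex hR hev ha h2 C hC
  obtain ⟨U₀, hUne, hU₀⟩ := hA1 L p e r v m t a h hR ha h2
  have ham := hR.sub a ha
  obtain ⟨U, μ, α, β, _, hBT⟩ := hA2 L p e r v m a U₀ h hc ham h2 hUne hU₀
  obtain ⟨hT, _⟩ := hA3 L p e r v m a U μ α β hBT
  have hsub : ∀ b ∈ α • t + t.count a • bars r (TT a U α β), b ∈ m := by
    intro b hb
    rcases Multiset.mem_add.1 hb with hb | hb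
    · exact hR.sub b (mem_of_nsmul hb)
    · have h1 := mem_of_nsmul hb
      rw [mem_bars h.r_pos] at h1
      have h3 := h.bar_mem (hT.sub _ h1)
      rwa [bb h.r_pos] at h3
  obtain ⟨w, hwu, hwR, hwk, hwB, _, _⟩ := hRed L p e r v m h _ hsub
  have hbal : Bal r (α • t + t.count a • bars r (TT a U α β)) :=
    (bal_nsmul α hR.bal).add (bal_nsmul _ (hT.bal.conj h.r_pos (fun b hb => h.ne_zero (hT.sub b hb))))
  have hk : ∀ b, kk r w b = α * kk r t b - t.count a * kk r (TT a U α β) b := by
    intro b
    rw [hwk b, kk_add, kk_nsmul, kk_nsmul, Ctx.kk_bars h.r_pos]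
    ring
  by_cases hw : w = 0
  · apply hA4a L p e r v m t a U μ α β hBT hR ha hev _ C hC
    intro b
    have h1 := hk b
    rw [hw] at h1
    have h3 : kk r (0 : Multiset L) b = 0 := by simp [kk]
    rw [h3] at h1
    linarith
  · have hwRel : Rel r m w := ⟨hwR, hwB hbal, fun x hx => hsub x (Multiset.mem_of_le hwu hx)⟩
    have haU : a ∉ U := fun h' => hBT.blk.ne a h' (self_conjs a)
    have haU' : (r : L) ^ 2 / a ∉ U := fun h' =>
      hBT.blk.ne _ h' (KCtx.bar_conj h ham (self_conjs a))
    have hkT : kk r (TT a U α β) a = α := by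
      unfold kk
      rw [count_TT, count_TT, if_pos rfl, if_neg haU, if_neg (h.bar_ne ham), if_neg haU']
      push_cast
      ring
    have hkt : kk r t a = t.count a := by
      unfold kk
      rw [Multiset.count_eq_zero_of_notMem (hR.red.bar_notMem h.r_pos ha)]
      push_cast
      ring
    have hwa : ∀ b ∈ w, b ∉ conjs a := by
      have h1 := hk a
      rw [hkT, hkt] at h1
      have h3 : kk r w a = 0 := by rw [h1]; ring
      have h4 := Ctx.red_or h.r_pos hwR a
      unfold kk at h3
      intro b hb hba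
      obtain ⟨g, rfl⟩ := Ctx.mem_conjs.1 hba
      have h5 := Multiset.count_pos.2 hb
      rcases conjs_two h ham h2 g with h6 | h6
      · rw [h6] at h5
        omega
      · rw [h6] at h5
        omega
    obtain ⟨hU4, ν, S, hwS, hS4, hν, hSU, hSU2, hSC⟩ := hA4b L p e r v m w a U μ α β hBT hex hwRel hw hwa
    have hαβ : α = 2 ∧ β = 1 := by
      have h1 := hBT.tab
      unfold Tab at h1
      rw [hU4] at h1
      omega
    obtain ⟨rfl, rfl⟩ := hαβ
    have hSle : S.val ≤ w := by
      rw [hwS, Multiset.le_iff_count]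
      intro x
      rw [Multiset.count_nsmul]
      exact Nat.le_mul_of_pos_left _ hν
    apply hA4c L p e r v m t a U μ ν S hBT hU4 hR ha hev hS4 hSU hSU2 (hwR.mono hSle) _ C hC
      (hSC C hC.old)
    intro b
    have h1 := hk b
    rw [hwS, kk_nsmul] at h1
    push_cast at h1
    linarith

theorem stB_34 (hB1 : StB1) (hB2 : StB2) : StB := by
  intro L _ _ _ p e r v m t h hc hex hR hev hn C hC
  have key : ∀ P : L → Prop, (∀ (g : L ≃ₐ[ℚ] L) (a : L), P (g a) ↔ P a) → (∀ a ∈ t, P a) →
      (m.filter P).card ≤ 8 → t ∈ C := by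
    intro P hP hPt hcard
    exact tate_powers_aux (ctx_filter h P hP) hC.old hcard
      (fun h' => hex (exc_mono (fun a ha => (Multiset.mem_filter.1 ha).1) h')) t.card t rfl
      (fun a ha => Or.inl (Multiset.mem_filter.2 ⟨hR.sub a ha, hPt a ha⟩)) ⟨hev, hR.bal⟩
  by_cases ht0 : t = 0
  · rw [ht0]; exact hC.zero
  have four : ∀ b ∈ t, ∃ j, (conjs b).card = 4 + 2 * j := by
    intro b hb
    have h1 := even_conjs h (hR.sub b hb)
    have h2 := hn b hb
    have h3 := two_le_conjs h (hR.sub b hb)
    obtain ⟨j, hj⟩ := h1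
    exact ⟨j - 2, by omega⟩
  have cpos : ∀ b ∈ t, 1 ≤ m.count b := fun b hb => Multiset.count_pos.2 (hR.sub b hb)
  obtain ⟨a, ha⟩ := Multiset.exists_mem_of_ne_zero ht0
  have ham := hR.sub a ha
  obtain ⟨ja, hja⟩ := four a ha
  have ca := cpos a ha
  have ac := h.conjs_count ham
  by_cases hall : ∀ b ∈ t, b ∈ conjs a
  · by_cases h10 : (conjs a).card = 10
    · exact hB1 L p e r v m t a h hc ham h10 hR hev C hC.old
    · have h6 : (m.filter (fun b => b ∈ conjs a)).card ≤ 8 := by
        rw [card_filter_conjs h ham, hja]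
        rw [hja] at ac h10
        have hj3 : ja < 3 := by
          by_contra hj
          have h5 : (4 + 2 * ja) * 1 ≤ (4 + 2 * ja) * m.count a := Nat.mul_le_mul_left _ ca
          omega
        interval_cases ja <;> omega
      apply key (fun b => b ∈ conjs a) (fun g b => mem_conjs_apply g a b) hall
      convert h6
  · push Not at hall
    obtain ⟨z, hz, hza⟩ := hall
    have hzm := hR.sub z hz
    obtain ⟨jz, hjz⟩ := four z hz
    have cz := cpos z hz
    have h2 := h.conjs_count2 ham hzm hza
    rw [hja, hjz] at h2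
    have b1 : (4 + 2 * ja) * 1 ≤ (4 + 2 * ja) * m.count a := Nat.mul_le_mul_left _ ca
    have b2 : (4 + 2 * jz) * 1 ≤ (4 + 2 * jz) * m.count z := Nat.mul_le_mul_left _ cz
    have hcases : (ja = 0 ∧ jz = 0) ∨ (ja = 0 ∧ jz = 1) ∨ (ja = 1 ∧ jz = 0) := by omega
    rcases hcases with ⟨rfl, rfl⟩ | ⟨rfl, rfl⟩ | ⟨rfl, rfl⟩
    · -- two orbits of four
      have h6 : (m.filter (fun b => b ∈ conjs a ∨ b ∈ conjs z)).card ≤ 8 := by
        have h5 := congrArg Multiset.card
          (Multiset.filter_add_filter (fun b => b ∈ conjs a) (fun b => b ∈ conjs z) m)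
        rw [Multiset.card_add, Multiset.card_add, card_filter_conjs h ham,
          card_filter_conjs h hzm, hja, hjz] at h5
        omega
      apply key (fun b => b ∈ conjs a ∨ b ∈ conjs z)
        (fun g b => by rw [mem_conjs_apply, mem_conjs_apply])
      · intro b hb
        by_contra hcon
        push Not at hcon
        obtain ⟨jb, hjb⟩ := four b hb
        have cb := cpos b hb
        have hs := sum_count_le (m := m) ((conjs a ∪ conjs z) ∪ conjs b)
        have d1 : Disjoint (conjs a) (conjs z) := by
          rw [Finset.disjoint_left]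
          intro x hx hx'
          apply hza
          rw [← conjs_eq hx]
          exact mem_conjs_symm hx'
        have d2 : Disjoint (conjs a ∪ conjs z) (conjs b) := by
          rw [Finset.disjoint_left]
          intro x hx hx'
          rcases Finset.mem_union.1 hx with hx | hx
          · apply hcon.1
            rw [← conjs_eq hx]
            exact mem_conjs_symm hx'
          · apply hcon.2
            rw [← conjs_eq hx]
            exact mem_conjs_symm hx'
        rw [Finset.sum_union d2, Finset.sum_union d1,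
          Finset.sum_congr rfl (fun x hx => h.count_of_conjs hx),
          Finset.sum_congr (s₁ := conjs z) rfl (fun x hx => h.count_of_conjs hx),
          Finset.sum_congr (s₁ := conjs b) rfl (fun x hx => h.count_of_conjs hx),
          Finset.sum_const, Finset.sum_const, Finset.sum_const, smul_eq_mul, smul_eq_mul,
          smul_eq_mul, hja, hjz, hjb] at hs
        have b3 : (4 + 2 * jb) * 1 ≤ (4 + 2 * jb) * m.count b := Nat.mul_le_mul_left _ cb
        omega
      · convert h6
    · exact (hB2 L p e r v m t a z h hc ham hzm hja hjz hR ⟨a, ha, self_conjs a⟩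
        ⟨z, hz, self_conjs z⟩).elim
    · exact (hB2 L p e r v m t z a h hc hzm ham hjz hja hR ⟨z, hz, self_conjs z⟩
        ⟨a, ha, self_conjs a⟩).elim

theorem stMain_34 (hRed : StRed) (hA : StA) (hB : StB) : StMain := by
  intro L _ _ _ p e r v m s h hc hex hs hT C hC
  obtain ⟨w, hwu, hwR, _, hwB, hwC, j, hj⟩ := hRed L p e r v m h s hs
  rw [hwC C hC.old]
  have hRel : Rel r m w := ⟨hwR, hwB hT.2, fun x hx => hs x (Multiset.mem_of_le hwu hx)⟩
  have hev : Even w.card := by
    obtain ⟨i, hi⟩ := hT.1
    exact ⟨i - j, by omega⟩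
  by_cases h2 : ∃ a ∈ w, (conjs a).card = 2
  · obtain ⟨a, ha, h2⟩ := h2
    exact hA L p e r v m w a h hc hex hRel hev ha h2 C hC
  · push Not at h2
    exact hB L p e r v m w h hc hex hRel hev h2 C hC

end Pool.Agent.Lib.MP81632f.Mk.P
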