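import Pool.Agent.Lib.MP_81632f_ag.Mk.P.Stmts2_34
import Pool.Agent.Lib.MP_81632f_ag.Mk.P.Asm34

/-! # Assembly with supersingular factors -/

namespace Pool.Agent.Lib.MP81632f.Mk.P

open NumberField IsDedekindDomain
open scoped Classical

theorem stAodd_34 (hRed : StRed) (hA1 : StA1) (hA2 : StA2) (hA3 : StA3)
    (hA4b : StA4b) (hT1 : StT1) (hT2 : StT2) (hT3 : StT3) : StAodd := by
  intro L _ _ _ p e r v m t a h hc hex htrip hR ha h2
  obtain ⟨U₀, hUne, hU₀⟩ := hA1 L p e r v m t a h hR ha h2
  have ham := hR.sub a ha
  obtain ⟨U, μ, α, β, _, hBT⟩ := hA2 L p e r v m a U₀ h hc ham h2 hUne hU₀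
  obtain ⟨hT, _⟩ := hA3 L p e r v m a U μ α β hBT
  have hsub : ∀ b ∈ α • t + t.count a • bars r (TT a U α β), b ∈ m := by
    intro b hb
    rcases Multiset.mem_add.1 hb with hb | hb
    · exact hR.sub b (mem_of_nsmul hb)
    · have h1 := mem_of_nsmul hb
      rw [mem_bars h.r_pos] at h1
      have h3 := h.bar_mem (hT.sub _ h1)
      rwa [bb h.r_pos] at h3
  obtain ⟨w, hwu, hwR, hwk, hwB, _, _⟩ := hRed L p e r v m h _ hsub
  have hbal : Bal r (α • t + t.count a • bars r (TT a U α β)) :=
    (bal_nsmul α hR.bal).add (bal_nsmul _ (hT.bal.conj h.r_pos (fun b hb => h.ne_zero (hT.sub b hb))))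
  have hk : ∀ b, kk r w b = α * kk r t b - t.count a * kk r (TT a U α β) b := by
    intro b
    rw [hwk b, kk_add, kk_nsmul, kk_nsmul, Ctx.kk_bars h.r_pos]
    ring
  by_cases hw : w = 0
  · obtain ⟨n, hn⟩ := hT3 L p e r v m t a U μ α β hBT hR ha (by
      intro b
      have h1 := hk b
      rw [hw] at h1
      have h3 : kk r (0 : Multiset L) b = 0 := by simp [kk]
      rw [h3] at h1
      linarith)
    have hev : Even (TT a U α β).card := by
      by_contra hodd
      exact htrip (hT1 L p e r v m a U μ α β hBT hodd)
    rw [hn]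
    exact hev.mul_left n
  · exfalso
    have hwRel : Rel r m w := ⟨hwR, hwB hbal, fun x hx => hsub x (Multiset.mem_of_le hwu hx)⟩
    have haU : a ∉ U := fun h' => hBT.blk.ne a h' (self_conjs a)
    have haU' : (r : L) ^ 2 / a ∉ U := fun h' =>
      hBT.blk.ne _ h' (KCtx.bar_conj h ham (self_conjs a))
    have hkT : kk r (TT a U α β) a = α := by
      unfold kk
      rw [count_TT, count_TT, if_pos rfl, if_neg haU, if_neg (h.bar_ne ham), if_neg haU']
      push_cast
      ring
    have hkt : kk r t a = t.count a := by
      unfold kk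
      rw [Multiset.count_eq_zero_of_notMem (hR.red.bar_notMem h.r_pos ha)]
      push_cast
      ring
    have hwa : ∀ b ∈ w, b ∉ conjs a := by
      have h1 := hk a
      rw [hkT, hkt] at h1
      have h3 : kk r w a = 0 := by rw [h1]; ring
      have h4 := Ctx.red_or h.r_pos hwR a
      unfold kk at h3
      intro b hb hba
      obtain ⟨g, rfl⟩ := Ctx.mem_conjs.1 hba
      have h5 := Multiset.count_pos.2 hb
      rcases conjs_two h ham h2 g with h6 | h6
      · rw [h6] at h5
        omega
      · rw [h6] at h5
        omega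
    obtain ⟨hU4, ν, S, hwS, hS4, hν, hSU, hSU2, _⟩ := hA4b L p e r v m w a U μ α β hBT hex hwRel hw hwa
    have hαβ : α = 2 ∧ β = 1 := by
      have h1 := hBT.tab
      unfold Tab at h1
      rw [hU4] at h1
      omega
    obtain ⟨rfl, rfl⟩ := hαβ
    exact htrip (hT2 L p e r v m w a U μ ν S hBT hU4 hwRel hwS hν hS4 hSU hSU2)

theorem stBodd_34 (hB1 : StB1odd) (hB2 : StB2) : StBodd := by
  intro L _ _ _ p e r v m t h hc hex hR hodd hn C hC
  have key : ∀ P : L → Prop, (∀ (g : L ≃ₐ[ℚ] L) (a : L), P (g a) ↔ P a) → (∀ a ∈ t, P a) →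
      (m.filter P).card ≤ 8 → t + {(r : L)} ∈ C := by
    intro P hP hPt hcard
    apply tate_powers_aux (ctx_filter h P hP) hC.old hcard
      (fun h' => hex (exc_mono (fun a ha => (Multiset.mem_filter.1 ha).1) h')) _ _ rfl
    · intro a ha
      rcases Multiset.mem_add.1 ha with ha | ha
      · exact Or.inl (Multiset.mem_filter.2 ⟨hR.sub a ha, hPt a ha⟩)
      · rw [Multiset.mem_singleton] at ha
        rw [ha]
        exact Or.inr ⟨weil_r h.r_pos, ss_r⟩
    · refine ⟨?_, hR.bal.add (bal_singleton.2 ss_r)⟩
      rw [Multiset.card_add, Multiset.card_singleton]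
      exact (Nat.not_even_iff_odd.1 hodd).add_one
  have ht0 : t ≠ 0 := by
    rintro rfl
    exact hodd (by simp)
  have four : ∀ b ∈ t, ∃ j, (conjs b).card = 4 + 2 * j := by
    intro b hb
    have h1 := even_conjs h (hR.sub b hb)
    have h2 := hn b hb
    have h3 := two_le_conjs h (hR.sub b hb)
    obtain ⟨j, hj⟩ := h1
    exact ⟨j - 2, by omega⟩
  have cpos : ∀ b ∈ t, 1 ≤ m.count b := fun b hb => Multiset.count_pos.2 (hR.sub b hb)
  obtain ⟨a, ha⟩ := Multiset.exists_mem_of_ne_zero ht0
  have ham := hR.sub a ha
  obtain ⟨ja, hja⟩ := four a ha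
  have ca := cpos a ha
  have ac := h.conjs_count ham
  by_cases hall : ∀ b ∈ t, b ∈ conjs a
  · by_cases h10 : (conjs a).card = 10
    · exact hB1 L p e r v m t a h hc ham h10 hR hodd C hC.old
    · have h6 : (m.filter (fun b => b ∈ conjs a)).card ≤ 8 := by
        rw [card_filter_conjs h ham, hja]
        rw [hja] at ac h10
        have hj3 : ja < 3 := by
          by_contra hj
          have h5 : (4 + 2 * ja) * 1 ≤ (4 + 2 * ja) * m.count a := Nat.mul_le_mul_left _ ca
          omega
        interval_cases ja <;> omega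
      apply key (fun b => b ∈ conjs a) (fun g b => mem_conjs_apply g a b) hall
      convert h6
  · push Not at hall
    obtain ⟨z, hz, hza⟩ := hall
    have hzm := hR.sub z hz
    obtain ⟨jz, hjz⟩ := four z hz
    have cz := cpos z hz
    have h2 := h.conjs_count2 ham hzm hza
    rw [hja, hjz] at h2
    have b1 : (4 + 2 * ja) * 1 ≤ (4 + 2 * ja) * m.count a := Nat.mul_le_mul_left _ ca
    have b2 : (4 + 2 * jz) * 1 ≤ (4 + 2 * jz) * m.count z := Nat.mul_le_mul_left _ cz
    have hcases : (ja = 0 ∧ jz = 0) ∨ (ja = 0 ∧ jz = 1) ∨ (ja = 1 ∧ jz = 0) := by omega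
    rcases hcases with ⟨rfl, rfl⟩ | ⟨rfl, rfl⟩ | ⟨rfl, rfl⟩
    · -- two orbits of four
      have h6 : (m.filter (fun b => b ∈ conjs a ∨ b ∈ conjs z)).card ≤ 8 := by
        have h5 := congrArg Multiset.card
          (Multiset.filter_add_filter (fun b => b ∈ conjs a) (fun b => b ∈ conjs z) m)
        rw [Multiset.card_add, Multiset.card_add, card_filter_conjs h ham,
          card_filter_conjs h hzm, hja, hjz] at h5
        omega
      apply key (fun b => b ∈ conjs a ∨ b ∈ conjs z)
        (fun g b => by rw [mem_conjs_apply, mem_conjs_apply])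
      · intro b hb
        by_contra hcon
        push Not at hcon
        obtain ⟨jb, hjb⟩ := four b hb
        have cb := cpos b hb
        have hs := sum_count_le (m := m) ((conjs a ∪ conjs z) ∪ conjs b)
        have d1 : Disjoint (conjs a) (conjs z) := by
          rw [Finset.disjoint_left]
          intro x hx hx'
          apply hza
          rw [← conjs_eq hx]
          exact mem_conjs_symm hx'
        have d2 : Disjoint (conjs a ∪ conjs z) (conjs b) := by
          rw [Finset.disjoint_left]
          intro x hx hx'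
          rcases Finset.mem_union.1 hx with hx | hx
          · apply hcon.1
            rw [← conjs_eq hx]
            exact mem_conjs_symm hx'
          · apply hcon.2
            rw [← conjs_eq hx]
            exact mem_conjs_symm hx'
        rw [Finset.sum_union d2, Finset.sum_union d1,
          Finset.sum_congr rfl (fun x hx => h.count_of_conjs hx),
          Finset.sum_congr (s₁ := conjs z) rfl (fun x hx => h.count_of_conjs hx),
          Finset.sum_congr (s₁ := conjs b) rfl (fun x hx => h.count_of_conjs hx),
          Finset.sum_const, Finset.sum_const, Finset.sum_const, smul_eq_mul, smul_eq_mul,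
          smul_eq_mul, hja, hjz, hjb] at hs
        have b3 : (4 + 2 * jb) * 1 ≤ (4 + 2 * jb) * m.count b := Nat.mul_le_mul_left _ cb
        omega
      · convert h6
    · exact (hB2 L p e r v m t a z h hc ham hzm hja hjz hR ⟨a, ha, self_conjs a⟩
        ⟨z, hz, self_conjs z⟩).elim
    · exact (hB2 L p e r v m t z a h hc hzm ham hjz hja hR ⟨z, hz, self_conjs z⟩
        ⟨a, ha, self_conjs a⟩).elim

/-- multisets of supersingular numbers -/
theorem ss_mem {L : Type} [Field L] [NumberField L] {r : ℕ} {v : HeightOneSpectrum (𝓞 L)}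
    {C : Set (Multiset L)} (hC : CycleFamily r v C) (n : ℕ) :
    ∀ z : Multiset L, z.card = 2 * n → (∀ a ∈ z, IsWeil r a ∧ IsSS r a) → z ∈ C := by
  induction n with
  | zero =>
    intro z hz _
    rw [Multiset.card_eq_zero.1 (by omega : z.card = 0)]
    exact hC.zero
  | succ n ih =>
    intro z hz hs
    obtain ⟨a, b, hab⟩ := exists_pair (z := z) (by omega)
    obtain ⟨u, rfl⟩ := Multiset.le_iff_exists_add.1 hab
    have ha := hs a (Multiset.mem_of_le hab (by simp))
    have hb := hs b (Multiset.mem_of_le hab (by simp))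
    apply hC.add _ _ (hC.pair a b ha.1 hb.1 (bal_ss ha.2 hb.2))
    apply ih u _ (fun x hx => hs x (Multiset.mem_add.2 (Or.inr hx)))
    rw [Multiset.card_add, Multiset.insert_eq_cons, Multiset.card_cons,
      Multiset.card_singleton] at hz
    omega

/-- removing conjugate pairs -/
theorem remove_bars {L : Type} [Field L] [NumberField L] [IsGalois ℚ L] {r : ℕ}
    {v : HeightOneSpectrum (𝓞 L)} {C : Set (Multiset L)} (hr : 0 < r) (hC : CycleFamily r v C)
    (w : Multiset L) : ∀ x : Multiset L, (∀ b ∈ w, IsWeil r b) → x + (w + bars r w) ∈ C → x ∈ C := by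
  induction w using Multiset.induction_on with
  | empty =>
    intro x _ hx
    simpa [bars] using hx
  | cons b w ih =>
    intro x hw hx
    have hb := hw b (Multiset.mem_cons_self b w)
    have e : bars r (b ::ₘ w) = ((r : L) ^ 2 / b) ::ₘ bars r w := Multiset.map_cons _ _ _
    have e2 : x + (b ::ₘ w + bars r (b ::ₘ w)) = (x + (w + bars r w)) + {b, (r : L) ^ 2 / b} := by
      rw [e, Multiset.insert_eq_cons, ← Multiset.singleton_add, ← Multiset.singleton_add,
        ← Multiset.singleton_add]
      abel
    rw [e2] at hx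
    exact ih x (fun c hc => hw c (Multiset.mem_cons_of_mem hc))
      (hC.remove _ _ _ hb (hb.conj hr) (bal_bar hr (hb.ne_zero hr)) hx)

theorem stMainS_34 (hRed : StRed) (hA : StA) (hB : StB) (hAo : StAodd) (hBo : StBodd) :
    StMainS := by
  intro L _ _ _ p e r v m s h hc hex hs htr hT C hC
  by_cases hall : ∀ a ∈ s, a ∈ m
  · exact stMain_34 hRed hA hB L p e r v m s h hc hex hall hT C hC
  have hntr : ¬ Trip r m := fun h' => hall (htr h')
  set z := s.filter (fun a => ¬ NSS r a) with hz
  set t := s.filter (fun a => NSS r a) with htdef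
  have hsplit : t + z = s := Multiset.filter_add_not (fun a => NSS r a) s
  have hzss : ∀ a ∈ z, IsWeil r a ∧ IsSS r a := fun a ha => by
    have h1 := Multiset.mem_filter.1 ha
    have h2 := h1.2
    unfold NSS at h2
    have h3 := not_not.1 h2
    rcases hs a h1.1 with h4 | h4
    · exact ⟨h.weil h4, h3⟩
    · exact h4
  have htm : ∀ a ∈ t, a ∈ m := by
    intro a ha
    have h1 := Multiset.mem_filter.1 ha
    rcases hs a h1.1 with h2 | h2
    · exact h2
    · exact absurd h2.2 h1.2
  have hzbal : Bal r z := by
    have : ∀ u : Multiset L, (∀ a ∈ u, IsWeil r a ∧ IsSS r a) → Bal r u := by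
      intro u
      induction u using Multiset.induction_on with
      | empty => exact fun _ => bal_zero
      | cons a u ih =>
        intro hu
        rw [← Multiset.singleton_add]
        exact (bal_singleton.2 (hu a (Multiset.mem_cons_self a u)).2).add
          (ih (fun b hb => hu b (Multiset.mem_cons_of_mem hb)))
    exact this z hzss
  have htbal : Bal r t := by
    apply Bal.of_add h.r_pos _ hzbal
    rw [hsplit]
    exact hT.2
  obtain ⟨w, hwu, hwR, hwk, hwB, hwC, j, hj⟩ := hRed L p e r v m h t htm
  have hRel : Rel r m w := ⟨hwR, hwB htbal, fun x hx => htm x (Multiset.mem_of_le hwu hx)⟩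
  have hcard : t.card + z.card = s.card := by rw [← hsplit, Multiset.card_add]
  obtain ⟨i, hi⟩ := hT.1
  by_cases hev : Even w.card
  · have hwin : w ∈ C := by
      by_cases h2 : ∃ a ∈ w, (conjs a).card = 2
      · obtain ⟨a, ha, h2⟩ := h2
        exact hA L p e r v m w a h hc hex hRel hev ha h2 C hC
      · push Not at h2
        exact hB L p e r v m w h hc hex hRel hev h2 C hC
    have htin : t ∈ C := (hwC C hC.old).2 hwin
    rw [← hsplit]
    apply hC.add _ _ htin
    obtain ⟨k, hk⟩ := hev
    exact ss_mem hC.old (i - k - j) z (by omega) hzss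
  · have hwin : w + {(r : L)} ∈ C := by
      by_cases h2 : ∃ a ∈ w, (conjs a).card = 2
      · obtain ⟨a, ha, h2⟩ := h2
        exact absurd (hAo L p e r v m w a h hc hex hntr hRel ha h2) hev
      · push Not at h2
        exact hBo L p e r v m w h hc hex hRel hev h2 C hC
    have hwm : ∀ b ∈ w, b ∈ m := fun b hb => htm b (Multiset.mem_of_le hwu hb)
    -- the pairs taken away
    have hpair : t + bars r w ∈ C := by
      have hsub : ∀ b ∈ t + bars r w, b ∈ m := by
        intro b hb
        rcases Multiset.mem_add.1 hb with hb | hb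
        · exact htm b hb
        · rw [mem_bars h.r_pos] at hb
          have h3 := h.bar_mem (hwm _ hb)
          rwa [bb h.r_pos] at h3
      obtain ⟨w', hw'u, hw'R, hw'k, _, hw'C, _⟩ := hRed L p e r v m h _ hsub
      rw [hw'C C hC.old]
      have h0 : w' = 0 := by
        apply Ctx.eq_of_kk h hw'R (w := 0)
        · exact ⟨fun a ha => absurd ha (Multiset.notMem_zero a),
            fun a ha => absurd ha (Multiset.notMem_zero a), fun a b hab _ => by
              have := Multiset.card_le_card hab
              rw [Multiset.insert_eq_cons, Multiset.card_cons, Multiset.card_singleton,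
                Multiset.card_zero] at this
              omega⟩
        · exact fun a ha => hsub a (Multiset.mem_of_le hw'u ha)
        · exact fun a ha => absurd ha (Multiset.notMem_zero a)
        · intro a _
          rw [hw'k a, kk_add, Ctx.kk_bars h.r_pos, hwk a]
          simp [kk]
      rw [h0]
      exact hC.old.zero
    have htin : t + {(r : L)} ∈ C := by
      apply remove_bars h.r_pos hC.old w _ (fun b hb => h.weil (hwm b hb))
      have h3 := hC.add _ _ hpair hwin
      have e3 : t + bars r w + (w + {(r : L)}) = t + {(r : L)} + (w + bars r w) := by abel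
      rwa [e3] at h3
    obtain ⟨k, hk⟩ := Nat.not_even_iff_odd.1 hev
    have hzr : z + {(r : L)} ∈ C := by
      apply ss_mem hC.old (i - k - j) _ _ _
      · rw [Multiset.card_add, Multiset.card_singleton]
        omega
      · intro a ha
        rcases Multiset.mem_add.1 ha with ha | ha
        · exact hzss a ha
        · rw [Multiset.mem_singleton] at ha
          rw [ha]
          exact ⟨weil_r h.r_pos, ss_r⟩
    apply remove_rr h.r_pos hC.old
    have h8 := hC.add _ _ htin hzr
    have e1 : t + {(r : L)} + (z + {(r : L)}) = s + {(r : L), (r : L)} := by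
      rw [← hsplit, Multiset.insert_eq_cons, ← Multiset.singleton_add]
      abel
    rw [e1] at h8
    exact h8

end Pool.Agent.Lib.MP81632f.Mk.P
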