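import Pool.Agent.Lib.MP_81632f_ag.Mk.P.Stmts34

/-! # An element of prime order, circulant relations of length five -/

namespace Pool.Agent.Lib.MP81632f.Mk.P

open NumberField IsDedekindDomain
open scoped Classical

theorem stCyc_97 : StCyc := by
  intro L _ _ x q hq hdvd
  set G := L ≃ₐ[ℚ] L with hG
  let O : Type := {y : L // y ∈ conjs x}
  have hmem : ∀ (g : G) (y : L), y ∈ conjs x → g y ∈ conjs x := by
    intro g y hy
    obtain ⟨k, rfl⟩ := Ctx.mem_conjs.1 hy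
    exact Ctx.mem_conjs.2 ⟨g * k, rfl⟩
  let act : MulAction G O :=
    { smul := fun g y => ⟨g y.1, hmem g y.1 y.2⟩
      one_smul := fun y => Subtype.ext rfl
      mul_smul := fun g k y => Subtype.ext rfl }
  have hsm : ∀ (g : G) (y : O), (g • y).1 = g y.1 := fun g y => rfl
  let f : G →* Equiv.Perm O := MulAction.toPermHom G O
  let R : Subgroup (Equiv.Perm O) := f.range
  have hx : x ∈ conjs x := Ctx.mem_conjs.2 ⟨1, rfl⟩
  let x0 : O := ⟨x, hx⟩
  have htrans : MulAction.orbit R x0 = Set.univ := by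
    ext y
    simp only [Set.mem_univ, iff_true]
    obtain ⟨g, hg⟩ := Ctx.mem_conjs.1 y.2
    refine ⟨⟨f g, ⟨g, rfl⟩⟩, ?_⟩
    apply Subtype.ext
    exact hg
  have hcard : Nat.card O ∣ Nat.card R := by
    have h1 := MulAction.card_orbit_mul_card_stabilizer_eq_card_group R x0
    have h2 : Nat.card (MulAction.orbit R x0) = Nat.card O := by
      rw [htrans]
      exact Nat.card_congr (Equiv.Set.univ O)
    rw [← h2]
    rw [Nat.card_eq_fintype_card, Nat.card_eq_fintype_card]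
    exact Dvd.intro _ h1
  have hO : Nat.card O = (conjs x).card := by
    rw [Nat.card_eq_fintype_card]
    exact Fintype.card_coe _
  have : Fact q.Prime := ⟨hq⟩
  obtain ⟨σ, hσ⟩ := exists_prime_orderOf_dvd_card' (G := R) q ((hO ▸ hdvd).trans hcard)
  obtain ⟨g, hg⟩ := σ.2
  refine ⟨g, ?_, ?_⟩
  · intro y hy
    have h1 : σ ^ q = 1 := by rw [← hσ]; exact pow_orderOf_eq_one σ
    have h2 : f (g ^ q) = 1 := by
      rw [map_pow, hg]
      have := congrArg Subtype.val h1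
      simpa using this
    have h3 := congrArg (fun e : Equiv.Perm O => (e ⟨y, hy⟩).1) h2
    exact h3
  · by_contra hcon
    push Not at hcon
    have h2 : f g = 1 := by
      ext y
      exact hcon y.1 y.2
    have h3 : σ = 1 := by
      apply Subtype.ext
      rw [← hg, h2]
      rfl
    rw [h3, orderOf_one] at hσ
    exact hq.one_lt.ne hσ

theorem sq5 {x y : ℤ} (h : x ^ 2 = 5 * y ^ 2) : y = 0 := by
  by_contra hy
  have hirr : Irrational (Real.sqrt 5) := by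
    have := Nat.Prime.irrational_sqrt (p := 5) (by norm_num)
    simpa using this
  apply hirr
  refine ⟨|(x : ℚ) / y|, ?_⟩
  have hyR : (y : ℝ) ≠ 0 := by exact_mod_cast hy
  have h1 : ((x : ℝ) / y) ^ 2 = 5 := by
    have : (x : ℝ) ^ 2 = 5 * (y : ℝ) ^ 2 := by exact_mod_cast h
    rw [div_pow, this]
    field_simp
  have h2 : Real.sqrt 5 = |(x : ℝ) / y| := by
    rw [← h1, Real.sqrt_sq_eq_abs]
  rw [h2]
  push_cast
  rfl

theorem stFive_97 : StFive := by
  intro c₀ c₁ c₂ n₀ n₁ n₂ n₃ n₄ e0 e1 e2 e3 e4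
  set A : ℤ := (n₀ ^ 2 + n₁ ^ 2 + n₂ ^ 2 + n₃ ^ 2 + n₄ ^ 2) -
    (n₀ * n₂ + n₁ * n₃ + n₂ * n₄ + n₃ * n₀ + n₄ * n₁) with hA
  set B : ℤ := (n₀ * n₁ + n₁ * n₂ + n₂ * n₃ + n₃ * n₄ + n₄ * n₀) -
    (n₀ * n₂ + n₁ * n₃ + n₂ * n₄ + n₃ * n₀ + n₄ * n₁) with hB
  have h1 : A * (c₀ - c₂) + B * (c₁ - c₂) = 0 := by
    rw [hA, hB]
    linear_combination (n₀ - n₂) * e0 + (n₁ - n₃) * e1 + (n₂ - n₄) * e2 + (n₃ - n₀) * e3 +
      (n₄ - n₁) * e4
  have h2 : B * (c₀ - c₂) + (A - B) * (c₁ - c₂) = 0 := by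
    rw [hA, hB]
    linear_combination (n₁ - n₂) * e0 + (n₂ - n₃) * e1 + (n₃ - n₄) * e2 + (n₄ - n₀) * e3 +
      (n₀ - n₁) * e4
  by_cases hd : A ^ 2 - A * B - B ^ 2 = 0
  · left
    have hB0 : B = 0 := sq5 (x := 2 * A - B) (by linear_combination 4 * hd)
    have hA0 : A = 0 := by
      rw [hB0] at hd
      have : A ^ 2 = 0 := by linear_combination hd
      exact pow_eq_zero_iff (two_ne_zero) |>.1 this
    have hs : (n₀ - n₁) ^ 2 + (n₁ - n₂) ^ 2 + (n₂ - n₃) ^ 2 + (n₃ - n₄) ^ 2 + (n₄ - n₀) ^ 2 = 0 := by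
      have h3 : A - B = 0 := by rw [hA0, hB0]; ring
      rw [hA, hB] at h3
      linear_combination 2 * h3
    have q0 : n₀ - n₁ = 0 := by
      have : (n₀ - n₁) ^ 2 = 0 := le_antisymm (by
        linarith only [hs, sq_nonneg (n₀ - n₁), sq_nonneg (n₁ - n₂), sq_nonneg (n₂ - n₃),
          sq_nonneg (n₃ - n₄), sq_nonneg (n₄ - n₀)]) (sq_nonneg _)
      exact pow_eq_zero_iff (two_ne_zero) |>.1 this
    have q1 : n₁ - n₂ = 0 := by
      have : (n₁ - n₂) ^ 2 = 0 := le_antisymm (by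
        linarith only [hs, sq_nonneg (n₀ - n₁), sq_nonneg (n₁ - n₂), sq_nonneg (n₂ - n₃),
          sq_nonneg (n₃ - n₄), sq_nonneg (n₄ - n₀)]) (sq_nonneg _)
      exact pow_eq_zero_iff (two_ne_zero) |>.1 this
    have q2 : n₂ - n₃ = 0 := by
      have : (n₂ - n₃) ^ 2 = 0 := le_antisymm (by
        linarith only [hs, sq_nonneg (n₀ - n₁), sq_nonneg (n₁ - n₂), sq_nonneg (n₂ - n₃),
          sq_nonneg (n₃ - n₄), sq_nonneg (n₄ - n₀)]) (sq_nonneg _)
      exact pow_eq_zero_iff (two_ne_zero) |>.1 this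
    have q3 : n₃ - n₄ = 0 := by
      have : (n₃ - n₄) ^ 2 = 0 := le_antisymm (by
        linarith only [hs, sq_nonneg (n₀ - n₁), sq_nonneg (n₁ - n₂), sq_nonneg (n₂ - n₃),
          sq_nonneg (n₃ - n₄), sq_nonneg (n₄ - n₀)]) (sq_nonneg _)
      exact pow_eq_zero_iff (two_ne_zero) |>.1 this
    exact ⟨by omega, by omega, by omega, by omega⟩
  · right
    have hS : (A ^ 2 - A * B - B ^ 2) * (c₀ - c₂) = 0 := by
      linear_combination (A - B) * h1 - B * h2
    have hT : (A ^ 2 - A * B - B ^ 2) * (c₁ - c₂) = 0 := by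
      linear_combination A * h2 - B * h1
    have s0 : c₀ - c₂ = 0 := (mul_eq_zero.1 hS).resolve_left hd
    have t0 : c₁ - c₂ = 0 := (mul_eq_zero.1 hT).resolve_left hd
    exact ⟨by omega, by omega⟩

end Pool.Agent.Lib.MP81632f.Mk.P
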