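import Pool.Agent.Lib.MP_81632f_ag.Mk.Gen

/-! # Cycle families with the Weil classes of all sixfolds of Weil type -/

namespace Pool.Agent.Lib.MP81632f.Mk

open NumberField IsDedekindDomain
open scoped Classical

variable {L : Type} [Field L] [NumberField L]

/-- Families of multisets of Weil numbers with the closure properties of the algebraic classes:
`0`; divisor classes (Tate); products; removing a divisor class; and the Weil classes on
`B × E₁ × .. × E_k`, `B` with CM type `φ`, `j` of the `k` elliptic curves `E_i` with CM by `K` of the first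
type and the others of the second type, `p` not split in `K` if `k > 0` (so that the `E_i` have
supersingular reduction, with eigenvalues `r, r` over `F_q`), of total dimension `4` and signature
`(2, 2)`, or of dimension `6` and signature `(3, 3)` (Markman; abelian varieties with complex
multiplication and of Weil type have polarisations of every possible discriminant). -/
structure CycleFamily6 (r : ℕ) (v : HeightOneSpectrum (𝓞 L)) (C : Set (Multiset L)) : Prop where
  zero : 0 ∈ C
  pair : ∀ a b : L, IsWeil r a → IsWeil r b → Bal r {a, b} → {a, b} ∈ C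
  add : ∀ s t : Multiset L, s ∈ C → t ∈ C → s + t ∈ C
  remove : ∀ (s : Multiset L) (a b : L), IsWeil r a → IsWeil r b → Bal r {a, b} →
    s + {a, b} ∈ C → s ∈ C
  weil : ∀ (m : Multiset L) (χ : (L ≃ₐ[ℚ] L) →* ℤˣ) (κ : L → ℤˣ) (φ : L → ℕ) (k j : ℕ),
    IsAV r v m → IsKType r m χ κ → IsLift r v m φ → j ≤ k →
    (0 < k → ∃ d ∈ decomp v, χ d ≠ 1) →
    (m.card + 2 * k = 8 ∧ sig m κ φ + j = 2 ∨ m.card + 2 * k = 12 ∧ sig m κ φ + j = 3) →
    half m κ + Multiset.replicate k (r : L) ∈ C

theorem CycleFamily6.old {r : ℕ} {v : HeightOneSpectrum (𝓞 L)} {C : Set (Multiset L)}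
    (h : CycleFamily6 r v C) : CycleFamily r v C where
  zero := h.zero
  pair := h.pair
  add := h.add
  remove := h.remove
  weil m χ κ φ k j h1 h2 h3 h4 h5 h6 := h.weil m χ κ φ k j h1 h2 h3 h4 h5 (by
    rcases h6 with h6 | h6
    · exact Or.inl h6
    · exact Or.inr ⟨h6.1, h6.2.2⟩)

/-- `Gen6 v r s`: the classes with the multiset `s` of Frobenius eigenvalues over the field with `r ^ 2`
elements are generated by divisor classes and Weil classes.  Divisor classes are the pairs with
balanced product (Tate).  Weil classes live on `B × E₁ × .. × E_k`, `B` given by `m`, with an action of an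
imaginary quadratic field `K` (`χ`, `κ`) and a lift to characteristic zero with CM type `φ`, the `E_i`
elliptic curves with CM by `K`, `j` of them of the first type and `k - j` of the second, `p` not split in
`K` if `k > 0` (so that the `E_i` are supersingular, with eigenvalues `r`, `r`); the total dimension is
`4` and the signature `(2, 2)`, or they are `6` and `(3, 3)`.  The other rules are products,
removing a divisor class, and extension of the base field. -/
inductive Gen6 (v : HeightOneSpectrum (𝓞 L)) : ℕ → Multiset L → Prop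
  | zero (r : ℕ) : Gen6 v r 0
  | pair (r : ℕ) (a b : L) : IsWeil r a → IsWeil r b → Bal r {a, b} → Gen6 v r {a, b}
  | weil (r : ℕ) (m : Multiset L) (χ : (L ≃ₐ[ℚ] L) →* ℤˣ) (κ : L → ℤˣ) (φ : L → ℕ) (k j : ℕ) :
      IsAV r v m → IsKType r m χ κ → IsLift r v m φ → j ≤ k →
      (0 < k → ∃ d ∈ decomp v, χ d ≠ 1) →
      (m.card + 2 * k = 8 ∧ sig m κ φ + j = 2 ∨ m.card + 2 * k = 12 ∧ sig m κ φ + j = 3) →
      Gen6 v r (half m κ + Multiset.replicate k (r : L))
  | add (r : ℕ) (s t : Multiset L) : Gen6 v r s → Gen6 v r t → Gen6 v r (s + t)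
  | remove (r : ℕ) (s : Multiset L) (a b : L) : IsWeil r a → IsWeil r b → Bal r {a, b} →
      Gen6 v r (s + {a, b}) → Gen6 v r s
  | base (r N : ℕ) (s : Multiset L) : 0 < N → Gen6 v (r ^ N) (s.map (fun a => a ^ N)) → Gen6 v r s

theorem Gen6.family (v : HeightOneSpectrum (𝓞 L)) (r : ℕ) : CycleFamily6 r v {s | Gen6 v r s} where
  zero := Gen6.zero r
  pair a b ha hb h := Gen6.pair r a b ha hb h
  add s t hs ht := Gen6.add r s t hs ht
  remove s a b ha hb h hs := Gen6.remove r s a b ha hb h hs
  weil m χ κ φ k j h1 h2 h3 h4 h5 h6 := Gen6.weil r m χ κ φ k j h1 h2 h3 h4 h5 h6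

/-- the old classes -/
theorem Gen.to6 {v : HeightOneSpectrum (𝓞 L)} {r : ℕ} {s : Multiset L} (h : Gen v r s) :
    Gen6 v r s := by
  induction h with
  | zero r => exact Gen6.zero r
  | pair r a b ha hb h => exact Gen6.pair r a b ha hb h
  | weil r m χ κ φ k j h1 h2 h3 h4 h5 h6 =>
    refine Gen6.weil r m χ κ φ k j h1 h2 h3 h4 h5 ?_
    rcases h6 with h6 | h6
    · exact Or.inl h6
    · exact Or.inr ⟨h6.1, h6.2.2⟩
  | add r s t _ _ h1 h2 => exact Gen6.add r s t h1 h2
  | remove r s a b ha hb h _ h1 => exact Gen6.remove r s a b ha hb h h1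
  | base r N s hN _ h1 => exact Gen6.base r N s hN h1

end Pool.Agent.Lib.MP81632f.Mk
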