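import Pool.Agent.Lib.MP_81632f_ag.Mk.Fin
import Pool.Agent.Lib.MP_81632f_ag.Mk.P.Asm2_34

/-! # Powers of abelian varieties of dimension at most five: the theorem -/

namespace Pool.Agent.Lib.MP81632f.Mk

open NumberField IsDedekindDomain
open scoped Classical

variable {L : Type} [Field L] [NumberField L]

/-- The exceptional abelian varieties: some eigenvalues `y`, `g y`, `b` have balanced product, where
some power of `b` has at most four conjugates, and all powers of `y` and of `b` have at least `n`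
conjugates. -/
def IsTriple (r n : ℕ) (m : Multiset L) : Prop :=
  ∃ y ∈ m, ∃ b ∈ m, ∃ g : L ≃ₐ[ℚ] L, Bal r {y, g y, b} ∧
    (∃ N : ℕ, 0 < N ∧ (Finset.univ.image (fun h : L ≃ₐ[ℚ] L => h (b ^ N))).card ≤ 4) ∧
    ∀ N : ℕ, 0 < N →
      n ≤ (Finset.univ.image (fun h : L ≃ₐ[ℚ] L => h (y ^ N))).card ∧
      n ≤ (Finset.univ.image (fun h : L ≃ₐ[ℚ] L => h (b ^ N))).card

namespace P

variable {p e r : ℕ} {v : HeightOneSpectrum (𝓞 L)} {m s : Multiset L}

/-- triples after base change -/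
theorem triple_base {N n : ℕ} (hN : 0 < N) (hsep : ∀ a ∈ m, ∀ b ∈ m,
    (∃ M : ℕ, 0 < M ∧ a ^ M = b ^ M) → a ^ N = b ^ N) (hg : ∀ g : L ≃ₐ[ℚ] L, m.map g = m)
    {y' b' : L} (hy' : y' ∈ pw N m) (hb' : b' ∈ pw N m) (g : L ≃ₐ[ℚ] L)
    (hbal : Bal (r ^ N) {y', g y', b'}) (h4 : (conjs b').card ≤ 4) (hn : n ≤ (conjs y').card)
    (hn' : n ≤ (conjs b').card) : IsTriple r n m := by
  obtain ⟨y, hy, rfl⟩ := mem_pw.1 hy'
  obtain ⟨b, hb, rfl⟩ := mem_pw.1 hb'
  have hmem : ∀ (k : L ≃ₐ[ℚ] L) {x : L}, x ∈ m → k x ∈ m := by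
    intro k x hx
    have := Multiset.mem_map_of_mem k hx
    rwa [hg k] at this
  refine ⟨y, hy, b, hb, g, ?_, ⟨N, hN, h4⟩, ?_⟩
  · obtain ⟨M, hM, h1⟩ := hbal
    refine ⟨N * M, Nat.mul_pos hN hM, ?_⟩
    simp only [Multiset.insert_eq_cons, Multiset.prod_cons, Multiset.prod_singleton,
      Multiset.card_cons, Multiset.card_singleton] at h1 ⊢
    push_cast at h1
    rw [map_pow] at h1
    calc (y * (g y * b)) ^ (N * M) = (y ^ N * (g y ^ N * b ^ N)) ^ M := by ring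
      _ = _ := by rw [h1]; ring
  · intro K hK
    have k1 := conjs_pow_le (y := y) (fun g k => hsep _ (hmem g hy) _ (hmem k hy)) hN hK
    have k2 := conjs_pow_le (y := b) (fun g k => hsep _ (hmem g hb) _ (hmem k hb)) hN hK
    exact ⟨hn.trans k1, hn'.trans k2⟩

variable [IsGalois ℚ L]

/-- two supersingular elements, or none -/
theorem ss_count (hr : 0 < r) (hv : 0 < ord v (r : L)) (hA : IsAV r v m) {z : L} (hz : z ∈ m)
    (hss : IsSS r z) : (m.filter (fun a => NSS r a)).card + 2 ≤ m.card := by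
  have h1 : (m.filter (fun a => NSS r a)).card + (m.filter (fun a => ¬ NSS r a)).card = m.card := by
    rw [← Multiset.card_add, Multiset.filter_add_not]
  have h2 : 2 ≤ (m.filter (fun a => ¬ NSS r a)).card := by
    have hzf : z ∈ m.filter (fun a => ¬ NSS r a) :=
      Multiset.mem_filter.2 ⟨hz, fun h' => h' hss⟩
    by_cases hb : (r : L) ^ 2 / z = z
    · have h3 := real_even hr hv hA hz hb
      have h4 : (m.filter (fun a => ¬ NSS r a)).count z = m.count z :=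
        Multiset.count_filter_of_pos (fun h' => h' hss)
      have h5 := Multiset.count_le_card z (m.filter (fun a => ¬ NSS r a))
      omega
    · have hbf : (r : L) ^ 2 / z ∈ m.filter (fun a => ¬ NSS r a) :=
        Multiset.mem_filter.2 ⟨hA.mem_bar hr hz, fun h' => h' (isSS_bar hr hss)⟩
      have h3 : ({(r : L) ^ 2 / z, z} : Multiset L) ≤ m.filter (fun a => ¬ NSS r a) := by
        rw [Multiset.insert_eq_cons, Multiset.cons_le_of_notMem]
        · exact ⟨hbf, Multiset.singleton_le.2 hzf⟩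
        · rw [Multiset.mem_singleton]
          exact hb
      have h4 := Multiset.card_le_card h3
      rw [Multiset.insert_eq_cons, Multiset.card_cons, Multiset.card_singleton] at h4
      exact h4
  omega

/-- **Tate classes on all powers, dimension at most five** -/
theorem gen_five_powers (hMain : StMainS) (hp : p.Prime) (he : 0 < e) (hv : (p : 𝓞 L) ∈ v.asIdeal)
    (hA : IsAV (p ^ e) v m) (hc : m.card ≤ 10)
    (hs : ∀ a ∈ s, a ∈ m ∨ (IsWeil (p ^ e) a ∧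
      ∃ N : ℕ, 0 < N ∧ a ^ N = ((p ^ e : ℕ) : L) ^ N))
    (hex : IsTriple (p ^ e) 4 m → s ≤ m ∧ (8 < m.card →
      ∀ z ∈ m, ∀ N : ℕ, 0 < N → z ^ N ≠ ((p ^ e : ℕ) : L) ^ N))
    (hex2 : IsTriple (p ^ e) 2 m → 8 < m.card → ∀ a ∈ s, a ∈ m)
    (hT : IsTate (p ^ e) s) : Gen6 v (p ^ e) s := by
  have hr0 : 0 < p ^ e := pow_pos hp.pos e
  by_cases hE : IsTriple (p ^ e) 4 m
  · obtain ⟨hsm, hss⟩ := hex hE
    apply Gen.to6
    exact gen_five hp he hv hA hc (fun h8 ⟨z, hz, N, hN, hzN⟩ _ => hss h8 z hz N hN hzN) hsm hT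
  obtain ⟨N, hN, hsep⟩ := exists_sep m
  apply Gen6.base (p ^ e) N s hN
  have hrN : (p ^ e) ^ N = p ^ (e * N) := (pow_mul p e N).symm
  have heN : 0 < e * N := Nat.mul_pos he hN
  have hrN0 : 0 < (p ^ e) ^ N := pow_pos hr0 N
  have hv0 : 0 < ord v (((p ^ e) ^ N : ℕ) : L) := by
    rw [hrN]
    exact ord_r_pos v hp heN hv
  have hA1 : IsAV ((p ^ e) ^ N) v (pw N m) := hA.pw hr0 hN
  have hE1 : ¬ Exc ((p ^ e) ^ N) (pw N m) := by
    rintro ⟨y, hy, b, hb, g, _, _, hbal, h4, h4'⟩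
    exact hE (triple_base hN hsep hA.galois hy hb g hbal h4'.le h4.ge h4'.ge)
  have hsep1 : ∀ a ∈ pw N m, ∀ b ∈ pw N m, (∃ M : ℕ, 0 < M ∧ a ^ M = b ^ M) → a = b := by
    intro a ha b hb hab
    obtain ⟨x, hx, rfl⟩ := mem_pw.1 ha
    obtain ⟨y, hy, rfl⟩ := mem_pw.1 hb
    obtain ⟨M, hM, h1⟩ := hab
    exact hsep x hx y hy ⟨N * M, Nat.mul_pos hN hM, by rw [pow_mul, pow_mul, h1]⟩
  have hT1 := isTate_pw (N := N) hT
  have hs1 : ∀ a ∈ pw N s, a ∈ pw N m ∨ (IsWeil ((p ^ e) ^ N) a ∧ IsSS ((p ^ e) ^ N) a) := by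
    intro a ha
    obtain ⟨x, hx, rfl⟩ := mem_pw.1 ha
    rcases hs x hx with h1 | h1
    · exact Or.inl (mem_pw.2 ⟨x, h1, rfl⟩)
    · exact Or.inr ⟨h1.1.pw N, (isSS_pw hN).2 h1.2⟩
  by_cases h8 : m.card ≤ 8
  · exact tate_powers (m := pw N m) hrN heN hp hv (Gen6.family v _).old hA1
      (by rw [card_pw]; exact h8) hsep1 hE1 _ hs1 hT1
  by_cases hz : ∃ z ∈ pw N m, IsSS ((p ^ e) ^ N) z
  · obtain ⟨z, hz, hss⟩ := hz
    have hcard := ss_count hrN0 hv0 hA1 hz hss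
    rw [card_pw] at hcard
    have hA' : IsAV ((p ^ e) ^ N) v ((pw N m).filter (fun a => NSS ((p ^ e) ^ N) a)) :=
      hA1.filter _ (fun g a => by
        unfold NSS
        rw [isSS_map_iff])
    have h : Ctx p (e * N) ((p ^ e) ^ N) v ((pw N m).filter (fun a => NSS ((p ^ e) ^ N) a)) :=
      ⟨hrN, heN, hp, hv, hA', fun a ha => (Multiset.mem_filter.1 ha).2, fun a ha b hb =>
        hsep1 a (Multiset.mem_filter.1 ha).1 b (Multiset.mem_filter.1 hb).1⟩
    apply tate_powers_aux h (Gen6.family v _).old (by omega)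
      (fun h' => hE1 (exc_mono (fun a ha => (Multiset.mem_filter.1 ha).1) h')) _ _ rfl _ hT1
    intro a ha
    by_cases hss : IsSS ((p ^ e) ^ N) a
    · right
      rcases hs1 a ha with h1 | h1
      · exact ⟨hA1.weil a h1, hss⟩
      · exact h1
    · left
      rcases hs1 a ha with h1 | h1
      · exact Multiset.mem_filter.2 ⟨h1, hss⟩
      · exact absurd h1.2 hss
  · push Not at hz
    have h : Ctx p (e * N) ((p ^ e) ^ N) v (pw N m) := ⟨hrN, heN, hp, hv, hA1, hz, hsep1⟩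
    apply hMain L p (e * N) ((p ^ e) ^ N) v (pw N m) (pw N s) h (by rw [card_pw]; exact hc) hE1 hs1
      _ hT1 _ (Gen6.family v _)
    rintro ⟨y, hy, b, hb, g, hbal, h4⟩ a ha
    have h2 := hex2 (triple_base hN hsep hA.galois hy hb g hbal h4 (two_le_conjs h hy)
      (two_le_conjs h hb)) (by omega)
    obtain ⟨x, hx, rfl⟩ := mem_pw.1 ha
    exact mem_pw.2 ⟨x, h2 x hx, rfl⟩

end P

end Pool.Agent.Lib.MP81632f.Mk
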