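import Pool.Agent.Lib.MP_81632f_ag.Mk.P.Fin2_34

/-! # Products of powers of abelian varieties of dimension at most five: the theorem -/

namespace Pool.Agent.Lib.MP81632f.Mk

open NumberField IsDedekindDomain
open scoped Classical

variable {L : Type} [Field L] [NumberField L]

/-- The slope functions of `a` and of `b` are orthogonal. -/
def Orth (r : ℕ) (v : HeightOneSpectrum (𝓞 L)) (a b : L) : Prop :=
  ∑ g : L ≃ₐ[ℚ] L, (2 * ord v (g a) - ord v ((r : L) ^ 2)) * (2 * ord v (g b) - ord v ((r : L) ^ 2)) = 0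

/-- The elements of `s` which are in `m` and not supersingular. -/
noncomputable def npart (r : ℕ) (m s : Multiset L) : Multiset L :=
  s.filter (fun a => a ∈ m ∧ ∀ N : ℕ, 0 < N → a ^ N ≠ (r : L) ^ N)

namespace P

variable {p e r : ℕ} {v : HeightOneSpectrum (𝓞 L)} {s : Multiset L}

theorem nss_iff {a : L} : (∀ N : ℕ, 0 < N → a ^ N ≠ (r : L) ^ N) ↔ ¬ IsSS r a := by
  unfold IsSS
  push Not
  exact Iff.rfl

theorem mem_npart {m : Multiset L} {a : L} : a ∈ npart r m s ↔ a ∈ s ∧ a ∈ m ∧ ¬ IsSS r a := by
  unfold npart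
  rw [Multiset.mem_filter, nss_iff]

theorem ip_XS_zero34 {s t : Multiset L} (h : ∀ a ∈ s, ∀ b ∈ t, ip (X r v a) (X r v b) = 0) :
    ip (XS r v s) (XS r v t) = 0 := by
  have h1 : ∀ (f : (L ≃ₐ[ℚ] L) → ℤ) (t : Multiset L), (∀ b ∈ t, ip f (X r v b) = 0) →
      ip f (XS r v t) = 0 := by
    intro f t
    induction t using Multiset.induction_on with
    | empty =>
      intro _
      unfold ip
      apply Finset.sum_eq_zero
      intro g _
      rw [XS_zero, mul_zero]
    | cons b t ih =>
      intro hb
      have e1 : XS r v (b ::ₘ t) = X r v b + XS r v t := by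
        ext g
        rw [XS_cons, Pi.add_apply]
      rw [e1, ip_add_right, hb b (by simp), ih (fun c hc => hb c (by simp [hc])), add_zero]
  apply h1
  intro b hb
  rw [ip_comm]
  apply h1
  intro a ha
  rw [ip_comm]
  exact h a ha b hb

/-- pairs of supersingular numbers -/
theorem ss_mem34 {C : Set (Multiset L)} (hC : CycleFamily r v C) : ∀ (k : ℕ) (t : Multiset L),
    t.card = 2 * k → (∀ a ∈ t, IsWeil r a ∧ IsSS r a) → t ∈ C := by
  intro k
  induction k with
  | zero =>
    intro t ht _
    have h0 : t = 0 := Multiset.card_eq_zero.1 (by omega)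
    rw [h0]
    exact hC.zero
  | succ k ih =>
    intro t ht h
    obtain ⟨a, ha⟩ := Multiset.card_pos_iff_exists_mem.1 (show 0 < t.card by omega)
    obtain ⟨t1, rfl⟩ := Multiset.exists_cons_of_mem ha
    rw [Multiset.card_cons] at ht
    obtain ⟨b, hb⟩ := Multiset.card_pos_iff_exists_mem.1 (show 0 < t1.card by omega)
    obtain ⟨t2, rfl⟩ := Multiset.exists_cons_of_mem hb
    rw [Multiset.card_cons] at ht
    have e1 : a ::ₘ b ::ₘ t2 = t2 + {a, b} := by
      rw [add_comm, Multiset.insert_eq_cons, Multiset.cons_add, Multiset.singleton_add]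
    have ha := h a (by simp)
    have hb := h b (by simp)
    rw [e1]
    exact hC.add _ _ (ih t2 (by omega) (fun x hx => h x (by simp [hx])))
      (hC.pair a b ha.1 hb.1 (bal_ss ha.2 hb.2))

/-- removing many pairs of `r` -/
theorem remove_rs {C : Set (Multiset L)} (hr : 0 < r) (hC : CycleFamily r v C) (u : Multiset L) :
    ∀ k : ℕ, u + Multiset.replicate (2 * k) (r : L) ∈ C → u ∈ C := by
  have hw : IsWeil r (r : L) := weil_r hr
  have hb : Bal r {(r : L), (r : L)} := bal_ss ⟨1, one_pos, rfl⟩ ⟨1, one_pos, rfl⟩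
  intro k
  induction k with
  | zero =>
    intro h
    simpa using h
  | succ k ih =>
    intro h
    apply ih
    apply hC.remove _ _ _ hw hw hb
    have e1 : 2 * (k + 1) = 2 * k + 2 := by ring
    rw [e1, Multiset.replicate_add, ← add_assoc] at h
    exact h

theorem triple_mono {n : ℕ} {m m' : Multiset L} (hm : ∀ a ∈ m', a ∈ m) (h : IsTriple r n m') :
    IsTriple r n m := by
  obtain ⟨y, hy, b, hb, g, h⟩ := h
  exact ⟨y, hm y hy, b, hm b hb, g, h⟩

variable [IsGalois ℚ L]

/-- balanced multisets of elements of one pair -/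
theorem pair_part (hr : r = p ^ e) (hp : p.Prime) (hv : (p : 𝓞 L) ∈ v.asIdeal)
    {C : Set (Multiset L)} (hC : CycleFamily r v C) {a : L} (ha : IsWeil r a) (hss : ¬ IsSS r a)
    {t : Multiset L} (ht : ∀ x ∈ t, x = a ∨ x = (r : L) ^ 2 / a) (hX : XS r v t = 0) :
    t ∈ C ∧ Even t.card := by
  have hr0 : 0 < r := by rw [hr]; exact pow_pos hp.pos e
  have ha0 : a ≠ 0 := ha.ne_zero hr0
  have hne : (r : L) ^ 2 / a ≠ a := fun h => hss (self_ss h ha0)
  have hdec : t = Multiset.replicate (t.count a) a +
      Multiset.replicate (t.count ((r : L) ^ 2 / a)) ((r : L) ^ 2 / a) := by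
    ext x
    rw [Multiset.count_add, Multiset.count_replicate, Multiset.count_replicate]
    by_cases h1 : a = x
    · rw [← h1, if_pos rfl, if_neg hne, add_zero]
    · by_cases h2 : (r : L) ^ 2 / a = x
      · rw [← h2, if_neg (fun h => hne h.symm), if_pos rfl, zero_add]
      · rw [if_neg h1, if_neg h2]
        apply Multiset.count_eq_zero_of_notMem
        intro h3
        rcases ht x h3 with h4 | h4
        · exact h1 h4.symm
        · exact h2 h4.symm
  have hrep : ∀ (n : ℕ) (x : L) (g : L ≃ₐ[ℚ] L),
      XS r v (Multiset.replicate n x) g = n * X r v x g := by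
    intro n x g
    unfold XS
    rw [Multiset.map_replicate, Multiset.sum_replicate, nsmul_eq_mul]
  have hXa : X r v a ≠ 0 := fun h => hss ((ss_iff hr hp hv ha).2 h)
  obtain ⟨g, hg⟩ : ∃ g, X r v a g ≠ 0 := by
    by_contra h
    push Not at h
    exact hXa (funext h)
  have h1 := congrFun hX g
  rw [hdec, XS_add, hrep, hrep, X_bar hr0 ha0, Pi.neg_apply, Pi.zero_apply] at h1
  have h2 : ((t.count a : ℤ) - (t.count ((r : L) ^ 2 / a) : ℤ)) * X r v a g = 0 := by linarith
  have h3 : (t.count a : ℤ) = (t.count ((r : L) ^ 2 / a) : ℤ) := by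
    rcases mul_eq_zero.1 h2 with h | h
    · linarith
    · exact absurd h hg
  have h4 : t.count ((r : L) ^ 2 / a) = t.count a := by exact_mod_cast h3.symm
  have h5 : t = t.count a • ({a, (r : L) ^ 2 / a} : Multiset L) := by
    conv_lhs => rw [hdec, h4]
    rw [Multiset.insert_eq_cons, ← Multiset.singleton_add, nsmul_add, Multiset.nsmul_singleton,
      Multiset.nsmul_singleton]
  constructor
  · rw [h5]
    exact nsmul_mem hC _ (hC.pair a _ ha (ha.conj hr0) (bal_bar hr0 ha0))
  · rw [h5, Multiset.card_nsmul]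
    simp

/-- **Products of powers, dimension at most five** -/
theorem gen_products {ι : Type} [Fintype ι] {m : ι → Multiset L} (hMain : StMainS)
    (hp : p.Prime) (he : 0 < e) (hv : (p : 𝓞 L) ∈ v.asIdeal)
    (hm : ∀ i, (IsAV (p ^ e) v (m i) ∧ (m i).card ≤ 10) ∨
      ∃ a, IsWeil (p ^ e) a ∧ m i = {a, ((p ^ e : ℕ) : L) ^ 2 / a})
    (hO : ∀ i j, i ≠ j → ∀ a ∈ m i, ∀ b ∈ m j, Orth (p ^ e) v a b)
    (hs : ∀ a ∈ s, (∃ i, a ∈ m i) ∨ (IsWeil (p ^ e) a ∧
      ∃ N : ℕ, 0 < N ∧ a ^ N = ((p ^ e : ℕ) : L) ^ N))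
    (hex : ∀ i, IsTriple (p ^ e) 4 (m i) →
      npart (p ^ e) (m i) s ≤ m i ∧ Even (npart (p ^ e) (m i) s).card)
    (hex' : ∀ i, IsTriple (p ^ e) 2 (m i) → 8 < (npart (p ^ e) (m i) (m i)).card →
      Even (npart (p ^ e) (m i) s).card)
    (hT : IsTate (p ^ e) s) : Gen6 v (p ^ e) s := by
  have hr0 : 0 < p ^ e := pow_pos hp.pos e
  have hW : ∀ i, ∀ a ∈ m i, IsWeil (p ^ e) a := by
    intro i a ha
    rcases hm i with h | ⟨b, hb, h⟩
    · exact h.1.weil a ha
    · rw [h] at ha
      simp only [Multiset.insert_eq_cons, Multiset.mem_cons, Multiset.mem_singleton] at ha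
      rcases ha with rfl | rfl
      · exact hb
      · exact hb.conj hr0
  have hWs : ∀ a ∈ s, IsWeil (p ^ e) a := by
    intro a ha
    rcases hs a ha with ⟨i, hi⟩ | h
    · exact hW i a hi
    · exact h.1
  have hip : ∀ i j, i ≠ j → ∀ a ∈ m i, ∀ b ∈ m j, ip (X (p ^ e) v a) (X (p ^ e) v b) = 0 :=
    fun i j hij a ha b hb => hO i j hij a ha b hb
  have hdis : ∀ i j, i ≠ j → ∀ a ∈ m i, a ∈ m j → IsSS (p ^ e) a := by
    intro i j hij a ha ha'
    have h1 := hip i j hij a ha a ha'
    rw [ip_self_eq_zero] at h1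
    exact (ss_iff (r := p ^ e) rfl hp hv (hW i a ha)).2 h1
  set P : ι → Multiset L := fun i => npart (p ^ e) (m i) s with hP
  have hPm : ∀ i, ∀ a ∈ P i, a ∈ s ∧ a ∈ m i ∧ ¬ IsSS (p ^ e) a := fun i a ha => mem_npart.1 ha
  set s0 := s.filter (fun a => IsSS (p ^ e) a) with hs0
  have hdec : s = ∑ i, P i + s0 := by
    ext x
    rw [Multiset.count_add, Multiset.count_sum']
    by_cases hx : IsSS (p ^ e) x
    · rw [Finset.sum_eq_zero, zero_add, hs0, Multiset.count_filter_of_pos hx]
      intro i _
      apply Multiset.count_eq_zero_of_notMem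
      intro h
      exact (hPm i x h).2.2 hx
    · have h0 : s0.count x = 0 := by
        rw [hs0]
        exact Multiset.count_filter_of_neg hx
      rw [h0, add_zero]
      by_cases hxs : x ∈ s
      · obtain ⟨i, hi⟩ := (hs x hxs).resolve_right (fun h => hx h.2)
        rw [Finset.sum_eq_single_of_mem i (Finset.mem_univ i)]
        · simp only [hP]
          unfold npart
          rw [Multiset.count_filter_of_pos]
          exact ⟨hi, nss_iff.2 hx⟩
        · intro j _ hj
          apply Multiset.count_eq_zero_of_notMem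
          intro h
          exact hx (hdis j i hj x (hPm j x h).2.1 hi)
      · rw [Multiset.count_eq_zero_of_notMem hxs, Finset.sum_eq_zero]
        intro i _
        apply Multiset.count_eq_zero_of_notMem
        intro h
        exact hxs (hPm i x h).1
  have hss : ∀ a ∈ s0, IsWeil (p ^ e) a ∧ IsSS (p ^ e) a := by
    intro a ha
    rw [hs0, Multiset.mem_filter] at ha
    exact ⟨hWs a ha.1, ha.2⟩
  have hXS0 : XS (p ^ e) v s0 = 0 := by
    ext g
    unfold XS
    apply Multiset.sum_eq_zero
    intro x hx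
    obtain ⟨a, ha, rfl⟩ := Multiset.mem_map.1 hx
    rw [(ss_iff (r := p ^ e) rfl hp hv (hss a ha).1).1 (hss a ha).2]
    rfl
  have hsum : ∀ T : Finset ι, XS (p ^ e) v (∑ i ∈ T, P i) = ∑ i ∈ T, XS (p ^ e) v (P i) := by
    intro T
    induction T using Finset.induction_on with
    | empty =>
      ext g
      rw [Finset.sum_empty, Finset.sum_empty, XS_zero]
      rfl
    | insert i T hi ih =>
      rw [Finset.sum_insert hi, Finset.sum_insert hi, ← ih]
      ext g
      rw [XS_add, Pi.add_apply]
  have hall : ∑ i, XS (p ^ e) v (P i) = 0 := by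
    rw [← hsum]
    ext g
    have h1 := hT.2.XS_eq_zero (v := v) hr0 (fun a ha => (hWs a ha).ne_zero hr0) g
    rw [hdec, XS_add, hXS0] at h1
    simpa using h1
  have hzero : ∀ i, XS (p ^ e) v (P i) = 0 := by
    intro i
    rw [← ip_self_eq_zero]
    have h1 : ip (XS (p ^ e) v (P i)) (∑ j, XS (p ^ e) v (P j)) = 0 := by
      rw [hall]
      unfold ip
      simp
    have h2 : ∀ (T : Finset ι) (f : (L ≃ₐ[ℚ] L) → ℤ) (F : ι → (L ≃ₐ[ℚ] L) → ℤ),
        ip f (∑ j ∈ T, F j) = ∑ j ∈ T, ip f (F j) := by
      intro T f F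
      induction T using Finset.induction_on with
      | empty =>
        unfold ip
        simp
      | insert j T hj ih => rw [Finset.sum_insert hj, Finset.sum_insert hj, ip_add_right, ih]
    rw [h2, Finset.sum_eq_single_of_mem i (Finset.mem_univ i)] at h1
    · exact h1
    · intro j _ hj
      apply ip_XS_zero34
      intro a ha b hb
      exact hip i j hj.symm a (hPm i a ha).2.1 b (hPm j b hb).2.1
  -- the parts, completed by `r` if odd
  set k : ι → ℕ := fun i => if Even (P i).card then 0 else 1 with hk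
  have hkev : ∀ i, Even ((P i).card + k i) := by
    intro i
    simp only [hk]
    split
    · simpa
    · rename_i h
      exact (Nat.not_even_iff_odd.1 h).add_one
  have hrW : IsWeil (p ^ e) ((p ^ e : ℕ) : L) := weil_r hr0
  have hrS : IsSS (p ^ e) ((p ^ e : ℕ) : L) := ⟨1, one_pos, rfl⟩
  have hgen : ∀ i, Gen6 v (p ^ e) (P i + Multiset.replicate (k i) ((p ^ e : ℕ) : L)) := by
    intro i
    have hX : ∀ g, XS (p ^ e) v (P i + Multiset.replicate (k i) ((p ^ e : ℕ) : L)) g = 0 := by
      intro g
      rw [XS_add, hzero i, Pi.zero_apply, zero_add]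
      unfold XS
      rw [Multiset.map_replicate, Multiset.sum_replicate,
        (ss_iff (r := p ^ e) rfl hp hv hrW).1 hrS, Pi.zero_apply, smul_zero]
    have hTi : IsTate (p ^ e) (P i + Multiset.replicate (k i) ((p ^ e : ℕ) : L)) := by
      refine ⟨by rw [Multiset.card_add, Multiset.card_replicate]; exact hkev i,
        bal_of_XS rfl hp hv ?_ hX⟩
      intro a ha
      rcases Multiset.mem_add.1 ha with h | h
      · exact hWs a (hPm i a h).1
      · rw [Multiset.eq_of_mem_replicate h]
        exact hrW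
    rcases hm i with ⟨hA, hc⟩ | ⟨a, ha, hma⟩
    · have hA' : IsAV (p ^ e) v ((m i).filter (fun a => NSS (p ^ e) a)) :=
        hA.filter _ (fun g a => by
          unfold NSS
          rw [isSS_map_iff])
      have hmem : ∀ a ∈ (m i).filter (fun a => NSS (p ^ e) a), a ∈ m i :=
        fun a ha => (Multiset.mem_filter.1 ha).1
      have hcle := Multiset.card_le_card (Multiset.filter_le (fun a => NSS (p ^ e) a) (m i))
      have hPmem : ∀ a ∈ P i, a ∈ (m i).filter (fun a => NSS (p ^ e) a) := fun a ha =>
        Multiset.mem_filter.2 ⟨(hPm i a ha).2.1, (hPm i a ha).2.2⟩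
      apply gen_five_powers hMain hp he hv hA' (hcle.trans hc) _ _ _ hTi
      · intro a ha
        rcases Multiset.mem_add.1 ha with h | h
        · exact Or.inl (hPmem a h)
        · rw [Multiset.eq_of_mem_replicate h]
          exact Or.inr ⟨hrW, hrS⟩
      · intro hE
        obtain ⟨h1, h2⟩ := hex i (triple_mono hmem hE)
        have hk0 : k i = 0 := by
          simp only [hk]
          exact if_pos h2
        rw [hk0, Multiset.replicate_zero, add_zero]
        refine ⟨?_, fun _ z hz N hN h => (Multiset.mem_filter.1 hz).2 ⟨N, hN, h⟩⟩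
        rw [Multiset.le_filter]
        exact ⟨h1, fun a ha => (hPm i a ha).2.2⟩
      · intro hE h8 a ha
        have h3 : npart (p ^ e) (m i) (m i) = (m i).filter (fun a => NSS (p ^ e) a) := by
          unfold npart
          apply Multiset.filter_congr
          intro x hx
          rw [nss_iff]
          exact ⟨fun h => h.2, fun h => ⟨hx, h⟩⟩
        have h2 := hex' i (triple_mono hmem hE) (by rw [h3]; exact h8)
        have hk0 : k i = 0 := by
          simp only [hk]
          exact if_pos h2
        rw [hk0, Multiset.replicate_zero, add_zero] at ha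
        exact hPmem a ha
    · by_cases hsa : IsSS (p ^ e) a
      · have hP0 : P i = 0 := by
          rw [Multiset.eq_zero_iff_forall_notMem]
          intro x hx
          obtain ⟨_, h1, h2⟩ := hPm i x hx
          rw [hma] at h1
          simp only [Multiset.insert_eq_cons, Multiset.mem_cons, Multiset.mem_singleton] at h1
          rcases h1 with rfl | rfl
          · exact h2 hsa
          · exact h2 (isSS_bar hr0 hsa)
        have hk0 : k i = 0 := by
          simp only [hk]
          apply if_pos
          rw [hP0]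
          simp
        rw [hP0, hk0]
        exact Gen6.zero _
      · have h1 := pair_part (r := p ^ e) rfl hp hv (Gen6.family v (p ^ e)).old ha hsa (t := P i)
          (by
            intro x hx
            obtain ⟨_, h1, _⟩ := hPm i x hx
            rw [hma] at h1
            simpa using h1) (hzero i)
        have hk0 : k i = 0 := by
          simp only [hk]
          exact if_pos h1.2
        rw [hk0, Multiset.replicate_zero, add_zero]
        exact h1.1
  have hgsum : ∀ T : Finset ι,
      Gen6 v (p ^ e) (∑ i ∈ T, P i + Multiset.replicate (∑ i ∈ T, k i) ((p ^ e : ℕ) : L)) ∧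
      Even ((∑ i ∈ T, P i).card + ∑ i ∈ T, k i) := by
    intro T
    induction T using Finset.induction_on with
    | empty => exact ⟨Gen6.zero _, by simp⟩
    | insert i T hi ih =>
      rw [Finset.sum_insert hi, Finset.sum_insert hi, Multiset.card_add, Multiset.replicate_add]
      refine ⟨?_, ?_⟩
      · have h1 := Gen6.add _ _ _ (hgen i) ih.1
        have e1 : P i + ∑ j ∈ T, P j + (Multiset.replicate (k i) ((p ^ e : ℕ) : L) +
            Multiset.replicate (∑ j ∈ T, k j) ((p ^ e : ℕ) : L)) =
            P i + Multiset.replicate (k i) ((p ^ e : ℕ) : L) + (∑ j ∈ T, P j +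
            Multiset.replicate (∑ j ∈ T, k j) ((p ^ e : ℕ) : L)) := by
          abel
        rw [e1]
        exact h1
      · have h1 := (hkev i).add ih.2
        have e1 : (P i).card + (∑ j ∈ T, P j).card + (k i + ∑ j ∈ T, k j) =
            (P i).card + k i + ((∑ j ∈ T, P j).card + ∑ j ∈ T, k j) := by ring
        rw [e1]
        exact h1
  obtain ⟨hG, hE⟩ := hgsum Finset.univ
  set K := ∑ i, k i with hK
  have hs0K : s0 + Multiset.replicate K ((p ^ e : ℕ) : L) ∈ {s | Gen6 v (p ^ e) s} := by
    have h1 := hT.1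
    rw [hdec, Multiset.card_add] at h1
    have h2 : Even (s0.card + K) := by
      have h3 := h1.add hE
      have e1 : (∑ i, P i).card + s0.card + ((∑ i, P i).card + K) =
          2 * (∑ i, P i).card + (s0.card + K) := by ring
      rw [e1] at h3
      exact (Nat.even_add.1 h3).1 (even_two_mul _)
    obtain ⟨n, hn⟩ := h2
    apply ss_mem34 (Gen6.family v (p ^ e)).old n
    · rw [Multiset.card_add, Multiset.card_replicate]
      omega
    · intro a ha
      rcases Multiset.mem_add.1 ha with h | h
      · exact hss a h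
      · rw [Multiset.eq_of_mem_replicate h]
        exact ⟨hrW, hrS⟩
  apply remove_rs hr0 (Gen6.family v (p ^ e)).old s K
  have h1 := Gen6.add _ _ _ hG hs0K
  have e1 : s + Multiset.replicate (2 * K) ((p ^ e : ℕ) : L) =
      ∑ i, P i + Multiset.replicate K ((p ^ e : ℕ) : L) +
        (s0 + Multiset.replicate K ((p ^ e : ℕ) : L)) := by
    rw [two_mul, Multiset.replicate_add]
    conv_lhs => rw [hdec]
    abel
  rw [Set.mem_ofPred_eq, e1]
  exact h1

end P

end Pool.Agent.Lib.MP81632f.Mk
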