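import Pool.Agent.Lib.MP_81632f_ag.Mk.P.Aux34

/-! # All powers, with supersingular factors: statements of the additional modules -/

namespace Pool.Agent.Lib.MP81632f.Mk.P

open NumberField IsDedekindDomain
open scoped Classical

/-- a balanced triple `y`, `g y`, `b`, where `b` has at most four conjugates -/
def Trip {L : Type} [Field L] [NumberField L] (r : ℕ) (m : Multiset L) : Prop :=
  ∃ y ∈ m, ∃ b ∈ m, ∃ g : L ≃ₐ[ℚ] L, Bal r {y, g y, b} ∧ (conjs b).card ≤ 4

/-- (T1) a block with an odd relation gives a triple -/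
def StT1 : Prop := ∀ (L : Type) [Field L] [NumberField L] [IsGalois ℚ L] (p e r : ℕ)
  (v : HeightOneSpectrum (𝓞 L)) (m : Multiset L) (a : L) (U : Finset L) (μ α β : ℕ),
  BT p e r v m a U μ α β → ¬ Even (TT a U α β).card → Trip r m

/-- (T2) the last case over `a` gives a triple -/
def StT2 : Prop := ∀ (L : Type) [Field L] [NumberField L] [IsGalois ℚ L] (p e r : ℕ)
  (v : HeightOneSpectrum (𝓞 L)) (m w : Multiset L) (a : L) (U : Finset L) (μ ν : ℕ) (S : Finset L),
  BT p e r v m a U μ 2 1 → U.card = 4 → Rel r m w → w = ν • S.val → 0 < ν → S.card = 4 →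
  (∀ b ∈ S, b ∈ U ∨ (r : L) ^ 2 / b ∈ U) → (S ∩ U).card = 2 → Trip r m

/-- (T3) multiples of the relation of a block -/
def StT3 : Prop := ∀ (L : Type) [Field L] [NumberField L] [IsGalois ℚ L] (p e r : ℕ)
  (v : HeightOneSpectrum (𝓞 L)) (m t : Multiset L) (a : L) (U : Finset L) (μ α β : ℕ),
  BT p e r v m a U μ α β → Rel r m t → a ∈ t →
  (∀ b : L, (α : ℤ) * kk r t b = (t.count a : ℤ) * kk r (TT a U α β) b) →
  ∃ n : ℕ, t.card = n * (TT a U α β).card

/-- (AODD) with an element with two conjugates and without triples: even -/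
def StAodd : Prop := ∀ (L : Type) [Field L] [NumberField L] [IsGalois ℚ L] (p e r : ℕ)
  (v : HeightOneSpectrum (𝓞 L)) (m t : Multiset L) (a : L), Ctx p e r v m → m.card ≤ 10 →
  ¬ Exc r m → ¬ Trip r m → Rel r m t → a ∈ t → (conjs a).card = 2 → Even t.card

/-- (B1ODD) ten conjugates, odd -/
def StB1odd : Prop := ∀ (L : Type) [Field L] [NumberField L] [IsGalois ℚ L] (p e r : ℕ)
  (v : HeightOneSpectrum (𝓞 L)) (m t : Multiset L) (x : L), Ctx p e r v m → m.card ≤ 10 →
  x ∈ m → (conjs x).card = 10 → Rel r m t → ¬ Even t.card →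
  ∀ C : Set (Multiset L), CycleFamily r v C → t + {(r : L)} ∈ C

/-- (BODD) no element with two conjugates, odd -/
def StBodd : Prop := ∀ (L : Type) [Field L] [NumberField L] [IsGalois ℚ L] (p e r : ℕ)
  (v : HeightOneSpectrum (𝓞 L)) (m t : Multiset L), Ctx p e r v m → m.card ≤ 10 →
  ¬ Exc r m → Rel r m t → ¬ Even t.card → (∀ a ∈ t, (conjs a).card ≠ 2) →
  ∀ C : Set (Multiset L), CycleFamily6 r v C → t + {(r : L)} ∈ C

/-- (MAINS) all Tate classes on powers in dimension five times supersingular -/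
def StMainS : Prop := ∀ (L : Type) [Field L] [NumberField L] [IsGalois ℚ L] (p e r : ℕ)
  (v : HeightOneSpectrum (𝓞 L)) (m s : Multiset L), Ctx p e r v m → m.card ≤ 10 →
  ¬ Exc r m → (∀ a ∈ s, a ∈ m ∨ (IsWeil r a ∧ IsSS r a)) → (Trip r m → ∀ a ∈ s, a ∈ m) →
  IsTate r s → ∀ C : Set (Multiset L), CycleFamily6 r v C → s ∈ C

end Pool.Agent.Lib.MP81632f.Mk.P
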