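import Pool.Agent.Lib.MP_81632f_ag.Mk.P.Defs34
import Pool.Agent.Lib.MP_81632f_ag.Mk.Pow10

/-! # All powers of abelian varieties of dimension at most five: statements of the modules

Every `St..` is proved in its own file `P/<Name><seat>.lean`. -/

namespace Pool.Agent.Lib.MP81632f.Mk.P

open NumberField IsDedekindDomain
open scoped Classical

/-- a relation: reduced, balanced, supported on `m` -/
structure Rel {L : Type} [Field L] [NumberField L] (r : ℕ) (m t : Multiset L) : Prop where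
  red : Red r t
  bal : Bal r t
  sub : ∀ x ∈ t, x ∈ m

/-- a block over `a` (`a` has the two conjugates `a`, `bar a`): an orbit of the stabiliser of `a` with
nonzero sum of slopes -/
structure Blk {L : Type} [Field L] [NumberField L] (r : ℕ) (v : HeightOneSpectrum (𝓞 L))
    (m : Multiset L) (a : L) (U : Finset L) : Prop where
  mem : ∀ b ∈ U, b ∈ m
  ne : ∀ b ∈ U, b ∉ conjs a
  fix : ∀ g : L ≃ₐ[ℚ] L, g a = a → ∀ b ∈ U, g b ∈ U
  flip : ∀ g : L ≃ₐ[ℚ] L, g a ≠ a → ∀ b ∈ U, (r : L) ^ 2 / g b ∈ U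
  disj : ∀ b ∈ U, (r : L) ^ 2 / b ∉ U
  trans : ∀ b ∈ U, ∀ b' ∈ U, ∃ g : L ≃ₐ[ℚ] L, g a = a ∧ g b = b'
  sum : ∑ b ∈ U, X r v b 1 ≠ 0

/-- the numerical table: `c = m.count a`, `k = U.card`, `μ = m.count b` on `U`, relation
`α * X a + β * ∑ b ∈ U, X b = 0` -/
def Tab (c k μ α β : ℕ) : Prop :=
  (k = 1 ∧ μ = 3 ∧ 1 ≤ c ∧ c ≤ 2 ∧ α = 1 ∧ β = 3) ∨ (k = 1 ∧ μ = 4 ∧ c = 1 ∧ α = 1 ∧ β = 2) ∨
  (k = 1 ∧ 1 ≤ μ ∧ μ ≤ 2 ∧ c = 3 ∧ α = 3 ∧ β = 1) ∨ (k = 1 ∧ μ = 1 ∧ c = 4 ∧ α = 2 ∧ β = 1) ∨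
  (k = 2 ∧ μ = 2 ∧ c = 1 ∧ α = 1 ∧ β = 1) ∨ (k = 3 ∧ μ = 1 ∧ 1 ≤ c ∧ c ≤ 2 ∧ α = 1 ∧ β = 1) ∨
  (k = 4 ∧ μ = 1 ∧ c = 1 ∧ α = 2 ∧ β = 1)

/-- a block with its relation -/
structure BT {L : Type} [Field L] [NumberField L] [IsGalois ℚ L] (p e r : ℕ)
    (v : HeightOneSpectrum (𝓞 L)) (m : Multiset L) (a : L) (U : Finset L) (μ α β : ℕ) : Prop where
  h : Ctx p e r v m
  hc : m.card ≤ 10
  ha : a ∈ m
  h2 : (conjs a).card = 2
  blk : Blk r v m a U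
  cnt : ∀ b ∈ U, m.count b = μ
  tab : Tab (m.count a) U.card μ α β
  rel : ∀ g : L ≃ₐ[ℚ] L, (α : ℤ) * X r v a g + (β : ℤ) * ∑ b ∈ U, X r v b g = 0

/-- the multiset of the relation -/
noncomputable def TT {L : Type} (a : L) (U : Finset L) (α β : ℕ) : Multiset L :=
  Multiset.replicate α a + β • U.val

/-- (RED) removing pairs -/
def StRed : Prop := ∀ (L : Type) [Field L] [NumberField L] [IsGalois ℚ L] (p e r : ℕ)
  (v : HeightOneSpectrum (𝓞 L)) (m : Multiset L), Ctx p e r v m → ∀ u : Multiset L,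
  (∀ a ∈ u, a ∈ m) → ∃ w : Multiset L, w ≤ u ∧ Red r w ∧ (∀ b : L, kk r w b = kk r u b) ∧
    (Bal r u → Bal r w) ∧ (∀ C : Set (Multiset L), CycleFamily r v C → (u ∈ C ↔ w ∈ C)) ∧
    ∃ j : ℕ, u.card = w.card + 2 * j

/-- (SIX) Weil classes of degree six in the split case -/
def StSix : Prop := ∀ (L : Type) [Field L] [NumberField L] [IsGalois ℚ L] (r : ℕ)
  (v : HeightOneSpectrum (𝓞 L)) (C : Set (Multiset L)), 0 < r → 0 < ord v (r : L) →
  CycleFamily6 r v C → ∀ T : Multiset L, Red r T → Bal r T → IsAV r v (T + bars r T) →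
  (∀ g : L ≃ₐ[ℚ] L, T.map g = T ∨ T.map g = bars r T) → (∀ d ∈ decomp v, T.map d = T) →
  T.card = 6 → T ∈ C

/-- (CYC) an element of prime order -/
def StCyc : Prop := ∀ (L : Type) [Field L] [NumberField L] (x : L) (q : ℕ), q.Prime →
  q ∣ (conjs x).card → ∃ g : L ≃ₐ[ℚ] L, (∀ y ∈ conjs x, (g ^ q) y = y) ∧ ∃ y ∈ conjs x, g y ≠ y

/-- (FIVE) circulant relations of length five -/
def StFive : Prop := ∀ c₀ c₁ c₂ n₀ n₁ n₂ n₃ n₄ : ℤ,
  n₀ * c₀ + (n₁ + n₄) * c₁ + (n₂ + n₃) * c₂ = 0 →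
  n₁ * c₀ + (n₂ + n₀) * c₁ + (n₃ + n₄) * c₂ = 0 →
  n₂ * c₀ + (n₃ + n₁) * c₁ + (n₄ + n₀) * c₂ = 0 →
  n₃ * c₀ + (n₄ + n₂) * c₁ + (n₀ + n₁) * c₂ = 0 →
  n₄ * c₀ + (n₀ + n₃) * c₁ + (n₁ + n₂) * c₂ = 0 →
  (n₀ = n₁ ∧ n₁ = n₂ ∧ n₂ = n₃ ∧ n₃ = n₄) ∨ (c₀ = c₁ ∧ c₁ = c₂)

/-- (A1) a relation containing `a` gives a block -/
def StA1 : Prop := ∀ (L : Type) [Field L] [NumberField L] [IsGalois ℚ L] (p e r : ℕ)
  (v : HeightOneSpectrum (𝓞 L)) (m t : Multiset L) (a : L), Ctx p e r v m → Rel r m t → a ∈ t →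
  (conjs a).card = 2 → ∃ U : Finset L, U.Nonempty ∧ Blk r v m a U

/-- (A2) the numerical classification of blocks -/
def StA2 : Prop := ∀ (L : Type) [Field L] [NumberField L] [IsGalois ℚ L] (p e r : ℕ)
  (v : HeightOneSpectrum (𝓞 L)) (m : Multiset L) (a : L) (U : Finset L), Ctx p e r v m →
  m.card ≤ 10 → a ∈ m → (conjs a).card = 2 → U.Nonempty → Blk r v m a U →
  ∃ (U' : Finset L) (μ α β : ℕ), (U' = U ∨ U' = U.image (fun b => (r : L) ^ 2 / b)) ∧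
    BT p e r v m a U' μ α β

/-- (A3) the relation of a block is algebraic -/
def StA3 : Prop := ∀ (L : Type) [Field L] [NumberField L] [IsGalois ℚ L] (p e r : ℕ)
  (v : HeightOneSpectrum (𝓞 L)) (m : Multiset L) (a : L) (U : Finset L) (μ α β : ℕ),
  BT p e r v m a U μ α β → Rel r m (TT a U α β) ∧
    ∀ C : Set (Multiset L), CycleFamily6 r v C → TT a U α β + TT a U α β ∈ C ∧
      (Even (TT a U α β).card → TT a U α β ∈ C)

/-- (A4a) multiples of the relation of a block -/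
def StA4a : Prop := ∀ (L : Type) [Field L] [NumberField L] [IsGalois ℚ L] (p e r : ℕ)
  (v : HeightOneSpectrum (𝓞 L)) (m t : Multiset L) (a : L) (U : Finset L) (μ α β : ℕ),
  BT p e r v m a U μ α β → Rel r m t → a ∈ t → Even t.card →
  (∀ b : L, (α : ℤ) * kk r t b = (t.count a : ℤ) * kk r (TT a U α β) b) →
  ∀ C : Set (Multiset L), CycleFamily6 r v C → t ∈ C

/-- (UNIQ) there is only one pair of blocks over `a` -/
def StUniq : Prop := ∀ (L : Type) [Field L] [NumberField L] [IsGalois ℚ L] (p e r : ℕ)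
  (v : HeightOneSpectrum (𝓞 L)) (m : Multiset L) (a : L) (U U' : Finset L) (μ μ' α β α' β' : ℕ),
  BT p e r v m a U μ α β → BT p e r v m a U' μ' α' β' → ∃ b ∈ U', b ∈ U ∨ (r : L) ^ 2 / b ∈ U

/-- (A4b) another relation, not containing `a`: `4` pairs -/
def StA4b : Prop := ∀ (L : Type) [Field L] [NumberField L] [IsGalois ℚ L] (p e r : ℕ)
  (v : HeightOneSpectrum (𝓞 L)) (m w : Multiset L) (a : L) (U : Finset L) (μ α β : ℕ),
  BT p e r v m a U μ α β → ¬ Exc r m → Rel r m w → w ≠ 0 → (∀ b ∈ w, b ∉ conjs a) →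
  U.card = 4 ∧ ∃ (ν : ℕ) (S : Finset L), w = ν • S.val ∧ S.card = 4 ∧ 0 < ν ∧
    (∀ b ∈ S, b ∈ U ∨ (r : L) ^ 2 / b ∈ U) ∧ (S ∩ U).card = 2 ∧
    ∀ C : Set (Multiset L), CycleFamily r v C → S.val ∈ C

/-- (A4c) the last case over `a` -/
def StA4c : Prop := ∀ (L : Type) [Field L] [NumberField L] [IsGalois ℚ L] (p e r : ℕ)
  (v : HeightOneSpectrum (𝓞 L)) (m t : Multiset L) (a : L) (U : Finset L) (μ ν : ℕ) (S : Finset L),
  BT p e r v m a U μ 2 1 → U.card = 4 → Rel r m t → a ∈ t → Even t.card → S.card = 4 →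
  (∀ b ∈ S, b ∈ U ∨ (r : L) ^ 2 / b ∈ U) → (S ∩ U).card = 2 → Red r S.val →
  (∀ b : L, 2 * kk r t b = (t.count a : ℤ) * kk r (TT a U 2 1) b + ν * kk r S.val b) →
  ∀ C : Set (Multiset L), CycleFamily6 r v C → S.val ∈ C → t ∈ C

/-- (A) the case of an element with two conjugates -/
def StA : Prop := ∀ (L : Type) [Field L] [NumberField L] [IsGalois ℚ L] (p e r : ℕ)
  (v : HeightOneSpectrum (𝓞 L)) (m t : Multiset L) (a : L), Ctx p e r v m → m.card ≤ 10 →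
  ¬ Exc r m → Rel r m t → Even t.card → a ∈ t → (conjs a).card = 2 →
  ∀ C : Set (Multiset L), CycleFamily6 r v C → t ∈ C

/-- (B1) ten conjugates -/
def StB1 : Prop := ∀ (L : Type) [Field L] [NumberField L] [IsGalois ℚ L] (p e r : ℕ)
  (v : HeightOneSpectrum (𝓞 L)) (m t : Multiset L) (x : L), Ctx p e r v m → m.card ≤ 10 →
  x ∈ m → (conjs x).card = 10 → Rel r m t → Even t.card →
  ∀ C : Set (Multiset L), CycleFamily r v C → t ∈ C

/-- (B2) four and six conjugates -/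
def StB2 : Prop := ∀ (L : Type) [Field L] [NumberField L] [IsGalois ℚ L] (p e r : ℕ)
  (v : HeightOneSpectrum (𝓞 L)) (m t : Multiset L) (y x : L), Ctx p e r v m → m.card ≤ 10 →
  y ∈ m → x ∈ m → (conjs y).card = 4 → (conjs x).card = 6 → Rel r m t →
  (∃ z ∈ t, z ∈ conjs y) → (∃ z ∈ t, z ∈ conjs x) → False

/-- (B) no element with two conjugates -/
def StB : Prop := ∀ (L : Type) [Field L] [NumberField L] [IsGalois ℚ L] (p e r : ℕ)
  (v : HeightOneSpectrum (𝓞 L)) (m t : Multiset L), Ctx p e r v m → m.card ≤ 10 →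
  ¬ Exc r m → Rel r m t → Even t.card → (∀ a ∈ t, (conjs a).card ≠ 2) →
  ∀ C : Set (Multiset L), CycleFamily6 r v C → t ∈ C

/-- (MAIN) all Tate classes on powers in dimension five -/
def StMain : Prop := ∀ (L : Type) [Field L] [NumberField L] [IsGalois ℚ L] (p e r : ℕ)
  (v : HeightOneSpectrum (𝓞 L)) (m s : Multiset L), Ctx p e r v m → m.card ≤ 10 →
  ¬ Exc r m → (∀ a ∈ s, a ∈ m) → IsTate r s →
  ∀ C : Set (Multiset L), CycleFamily6 r v C → s ∈ C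

end Pool.Agent.Lib.MP81632f.Mk.P
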