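import Pool.Agent.Lib.MP_81632f_ag.Mk.P.Stmts2_34

/-! # (T1): a block with an odd relation gives a triple -/

namespace Pool.Agent.Lib.MP81632f.Mk.P

open NumberField IsDedekindDomain
open scoped Classical

theorem bal3_33 {L : Type} [Field L] [NumberField L] [IsGalois ℚ L] {p e r : ℕ}
    {v : HeightOneSpectrum (𝓞 L)} {m : Multiset L} (h : Ctx p e r v m) {x y z : L} (hx : x ∈ m)
    (hy : y ∈ m) (hz : z ∈ m) (hX : ∀ g, X r v x g + X r v y g + X r v z g = 0) :
    Bal r {x, y, z} := by
  rw [bal_iff h.hr h.hp h.hv]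
  · intro g
    rw [Multiset.insert_eq_cons, Multiset.insert_eq_cons, XS_cons, XS_cons, XS_singleton]
    have := hX g
    omega
  · intro w hw
    rw [Multiset.insert_eq_cons, Multiset.insert_eq_cons, Multiset.mem_cons, Multiset.mem_cons,
      Multiset.mem_singleton] at hw
    rcases hw with rfl | rfl | rfl
    · exact h.weil hx
    · exact h.weil hy
    · exact h.weil hz

theorem stT1_33 : StT1 := by
  intro L _ _ _ p e r v m a U μ α β h hodd
  have hr := h.h.r_pos
  have hcard : (TT a U α β).card = α + β * U.card := by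
    unfold TT
    rw [Multiset.card_add, Multiset.card_replicate, Multiset.card_nsmul]
    rfl
  rw [hcard] at hodd
  have ht := h.tab
  unfold Tab at ht
  have hca : (conjs a).card ≤ 4 := by
    rw [h.h2]
    norm_num
  rcases ht with ⟨h1, h2, h3, h4, h5, h6⟩ | ⟨h1, h2, h3, h4, h5⟩ |
    ⟨h1, h2, h3, h4, h5, h6⟩ | ⟨h1, h2, h3, h4, h5⟩ | ⟨h1, h2, h3, h4, h5⟩ |
    ⟨h1, h2, h3, h4, h5, h6⟩ | ⟨h1, h2, h3, h4, h5⟩
  · exact absurd (by rw [h1, h5, h6]; decide) hodd
  · -- `X a + 2 X x = 0`
    obtain ⟨x, hU⟩ := Finset.card_eq_one.1 h1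
    have hx : x ∈ U := by rw [hU]; exact Finset.mem_singleton_self x
    refine ⟨x, h.blk.mem x hx, a, h.ha, 1, ?_, hca⟩
    have e1 : (1 : L ≃ₐ[ℚ] L) x = x := rfl
    rw [e1]
    refine bal3_33 h.h (h.blk.mem x hx) (h.blk.mem x hx) h.ha fun g => ?_
    have h7 := h.rel g
    rw [hU, Finset.sum_singleton, h4, h5] at h7
    push_cast at h7
    linarith
  · exact absurd (by rw [h1, h5, h6]; decide) hodd
  · -- `2 X a + X x = 0`
    obtain ⟨x, hU⟩ := Finset.card_eq_one.1 h1
    have hx : x ∈ U := by rw [hU]; exact Finset.mem_singleton_self x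
    have hcx : (conjs x).card ≤ 4 := by
      have hsub : conjs x ⊆ {x, (r : L) ^ 2 / x} := by
        intro y hy
        obtain ⟨g, rfl⟩ := Ctx.mem_conjs.1 hy
        rw [Finset.mem_insert, Finset.mem_singleton]
        by_cases hg : g a = a
        · left
          have := h.blk.fix g hg x hx
          rwa [hU, Finset.mem_singleton] at this
        · right
          have := h.blk.flip g hg x hx
          rw [hU, Finset.mem_singleton] at this
          have h7 := congrArg (fun y => (r : L) ^ 2 / y) this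
          simp only [bb hr] at h7
          exact h7
      have := (Finset.card_le_card hsub).trans Finset.card_le_two
      omega
    refine ⟨a, h.ha, x, h.blk.mem x hx, 1, ?_, hcx⟩
    have e1 : (1 : L ≃ₐ[ℚ] L) a = a := rfl
    rw [e1]
    refine bal3_33 h.h h.ha h.ha (h.blk.mem x hx) fun g => ?_
    have h7 := h.rel g
    rw [hU, Finset.sum_singleton, h4, h5] at h7
    push_cast at h7
    linarith
  · -- `X a + X x1 + X x2 = 0`
    obtain ⟨x, y, hxy, hU⟩ := Finset.card_eq_two.1 h1
    have hx : x ∈ U := by rw [hU]; simp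
    have hy : y ∈ U := by rw [hU]; simp
    obtain ⟨g0, _, hg0⟩ := h.blk.trans x hx y hy
    refine ⟨x, h.blk.mem x hx, a, h.ha, g0, ?_, hca⟩
    rw [hg0]
    refine bal3_33 h.h (h.blk.mem x hx) (h.blk.mem y hy) h.ha fun g => ?_
    have h7 := h.rel g
    rw [hU, Finset.sum_pair hxy, h4, h5] at h7
    push_cast at h7
    linarith
  · exact absurd (by rw [h1, h5, h6]; decide) hodd
  · exact absurd (by rw [h1, h4, h5]; decide) hodd

end Pool.Agent.Lib.MP81632f.Mk.P
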