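import Pool.Agent.Lib.MP_81632f_ag.Mk.P.T1_33

/-! # (T2): the last case over `a` gives a triple -/

namespace Pool.Agent.Lib.MP81632f.Mk.P

open NumberField IsDedekindDomain
open scoped Classical

theorem stT2_33 : StT2 := by
  intro L _ _ _ p e r v m w a U μ ν S h hU4 hw hwS hν hS4 hSU hSU2
  have hr := h.h.r_pos
  have hca : (conjs a).card ≤ 4 := by
    rw [h.h2]
    norm_num
  have memw : ∀ x ∈ S, x ∈ w := by
    intro x hx
    rw [hwS, Multiset.mem_nsmul_of_ne_zero hν.ne']
    exact hx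
  have mS : ∀ x ∈ S, x ∈ m := fun x hx => hw.sub x (memw x hx)
  have hbar : ∀ x ∈ S, (r : L) ^ 2 / x ∉ S := fun x hx hx' =>
    hw.red.bar_notMem hr (memw x hx) (memw _ hx')
  -- the relation of `S`
  have hXw := (bal_iff h.h.hr h.h.hp h.h.hv (fun x hx => h.h.weil (hw.sub x hx))).1 hw.bal
  have hXS : ∀ g, ∑ b ∈ S, X r v b g = 0 := by
    intro g
    have h1 := hXw g
    rw [hwS, XS_nsmul] at h1
    have h2 : XS r v S.val g = ∑ b ∈ S, X r v b g := rfl
    rw [h2] at h1
    have h3 : (ν : ℤ) ≠ 0 := by omega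
    exact (mul_eq_zero.1 h1).resolve_left h3
  -- `U \ S` consists of the conjugates of `S \ U`
  have hc1 : (S \ U).card = 2 := by
    have := Finset.card_inter_add_card_sdiff S U
    omega
  have hc2 : (U \ S).card = 2 := by
    have := Finset.card_inter_add_card_sdiff U S
    rw [Finset.inter_comm] at this
    omega
  have himg : (S \ U).image (fun b => (r : L) ^ 2 / b) = U \ S := by
    apply Finset.eq_of_subset_of_card_le
    · intro y hy
      obtain ⟨x, hx, rfl⟩ := Finset.mem_image.1 hy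
      rw [Finset.mem_sdiff] at hx
      exact Finset.mem_sdiff.2 ⟨(hSU x hx.1).resolve_left hx.2, hbar x hx.1⟩
    · rw [Finset.card_image_of_injective _ (bar_injective hr), hc1, hc2]
  have hneg : ∀ g, ∑ b ∈ U \ S, X r v b g = -∑ b ∈ S \ U, X r v b g := by
    intro g
    rw [← himg, Finset.sum_image (fun x _ y _ hxy => bar_injective hr hxy),
      ← Finset.sum_neg_distrib]
    refine Finset.sum_congr rfl fun b hb => ?_
    rw [h.h.Xbar (mS b (Finset.mem_sdiff.1 hb).1)]
    rfl
  obtain ⟨x, y, hxy, hSUe⟩ := Finset.card_eq_two.1 hSU2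
  have hx : x ∈ U := by
    have : x ∈ S ∩ U := by rw [hSUe]; simp
    exact (Finset.mem_inter.1 this).2
  have hy : y ∈ U := by
    have : y ∈ S ∩ U := by rw [hSUe]; simp
    exact (Finset.mem_inter.1 this).2
  obtain ⟨g0, _, hg0⟩ := h.blk.trans x hx y hy
  refine ⟨x, h.blk.mem x hx, a, h.ha, g0, ?_, hca⟩
  rw [hg0]
  refine bal3_33 h.h (h.blk.mem x hx) (h.blk.mem y hy) h.ha fun g => ?_
  have h1 := hXS g
  have h2 := h.rel g
  rw [← Finset.sum_inter_add_sum_sdiff S U, hSUe, Finset.sum_pair hxy] at h1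
  rw [← Finset.sum_inter_add_sum_sdiff U S, Finset.inter_comm, hSUe, Finset.sum_pair hxy,
    hneg g] at h2
  push_cast at h2
  linarith

end Pool.Agent.Lib.MP81632f.Mk.P
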