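import Pool.Agent.Lib.MP_81632f_ag.Mk.P.Aux34

/-! # (UNIQ): there is only one pair of blocks over an element with two conjugates -/

namespace Pool.Agent.Lib.MP81632f.Mk.P

open NumberField IsDedekindDomain
open scoped Classical

theorem tab_21 {c k μ α β : ℕ} (h : Tab c k μ α β) : 4 ≤ c + k * μ ∧ 1 ≤ k * μ ∧ 1 ≤ c ∧
    (k * μ = 1 → k = 1 ∧ μ = 1 ∧ (c = 3 ∧ α = 3 ∧ β = 1 ∨ c = 4)) := by
  unfold Tab at h
  rcases h with ⟨rfl, h⟩ | ⟨rfl, h⟩ | ⟨rfl, h⟩ | ⟨rfl, h⟩ | ⟨rfl, h⟩ | ⟨rfl, h⟩ | ⟨rfl, h⟩ <;> omega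

variable {L : Type} [Field L] [NumberField L] [IsGalois ℚ L]
variable {p e r : ℕ} {v : HeightOneSpectrum (𝓞 L)} {m : Multiset L}

/-- the pairs of a block -/
noncomputable def WW_21 (r : ℕ) (W : Finset L) : Finset L := W ∪ W.image (fun b => (r : L) ^ 2 / b)

theorem mem_WW_21 (hr : 0 < r) {W : Finset L} {x : L} :
    x ∈ WW_21 r W ↔ x ∈ W ∨ (r : L) ^ 2 / x ∈ W := by
  unfold WW_21
  rw [Finset.mem_union, Finset.mem_image]
  constructor
  · rintro (h | ⟨b, hb, rfl⟩)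
    · exact Or.inl h
    · right
      rw [bb hr]
      exact hb
  · rintro (h | h)
    · exact Or.inl h
    · right
      exact ⟨_, h, bb hr x⟩

theorem sum_WW_21 (h : Ctx p e r v m) {W : Finset L} {μ : ℕ} (hm : ∀ b ∈ W, b ∈ m)
    (hc : ∀ b ∈ W, m.count b = μ) (hd : ∀ b ∈ W, (r : L) ^ 2 / b ∉ W) :
    ∑ b ∈ WW_21 r W, m.count b = 2 * (W.card * μ) := by
  unfold WW_21
  rw [Finset.sum_union]
  · rw [Finset.sum_image (fun x _ y _ hxy => bar_injective h.r_pos hxy), Finset.sum_congr rfl hc]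
    rw [Finset.sum_congr rfl (fun b hb => by
      rw [h.hA.count_bar h.r_pos (h.weil (hm b hb)), hc b hb] :
      ∀ b ∈ W, m.count ((r : L) ^ 2 / b) = μ)]
    rw [Finset.sum_const, smul_eq_mul]
    ring
  · rw [Finset.disjoint_left]
    intro x hx hx'
    obtain ⟨b, hb, rfl⟩ := Finset.mem_image.1 hx'
    exact hd b hb hx

theorem stUniq_21 : StUniq := by
  intro L _ _ _ p e r v m a U U' μ μ' α β α' β' B B'
  by_contra hno
  push Not at hno
  have h := B.h
  have hr := h.r_pos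
  have s1 : ∑ b ∈ conjs a, m.count b = 2 * m.count a := by
    rw [Finset.sum_congr rfl (fun b hb => Ctx.count_of_conjs h hb), Finset.sum_const, B.h2,
      smul_eq_mul]
  have s2 := sum_WW_21 h B.blk.mem B.cnt B.blk.disj
  have s3 := sum_WW_21 h B'.blk.mem B'.cnt B'.blk.disj
  have hA : ∀ (W : Finset L), (∀ b ∈ W, b ∉ conjs a) → Disjoint (conjs a) (WW_21 r W) := by
    intro W hW
    rw [Finset.disjoint_left]
    intro x hx hx'
    rcases (mem_WW_21 hr).1 hx' with h1 | h1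
    · exact hW x h1 hx
    · exact hW _ h1 ((bar_mem_conjs h B.ha).2 hx)
  have d1 := hA U B.blk.ne
  have d2 := hA U' B'.blk.ne
  have d3 : Disjoint (WW_21 r U) (WW_21 r U') := by
    rw [Finset.disjoint_left]
    intro x hx hx'
    rcases (mem_WW_21 hr).1 hx with h1 | h1 <;> rcases (mem_WW_21 hr).1 hx' with h2 | h2
    · exact (hno x h2).1 h1
    · exact (hno _ h2).2 (by rw [bb hr]; exact h1)
    · exact (hno x h2).2 h1
    · exact (hno _ h2).1 h1
  have s4 := sum_count_le (m := m) (conjs a ∪ WW_21 r U ∪ WW_21 r U')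
  rw [Finset.sum_union (Finset.disjoint_union_left.2 ⟨d2, d3⟩), Finset.sum_union d1, s1, s2, s3] at s4
  have hc := B.hc
  obtain ⟨t1, t2, t3, t4⟩ := tab_21 B.tab
  obtain ⟨t1', t2', t3', t4'⟩ := tab_21 B'.tab
  have k1 : U.card * μ = 1 := by omega
  have k2 : U'.card * μ' = 1 := by omega
  obtain ⟨u1, _, u3⟩ := t4 k1
  obtain ⟨u1', _, u3'⟩ := t4' k2
  obtain ⟨b, rfl⟩ := Finset.card_eq_one.1 u1
  obtain ⟨b', rfl⟩ := Finset.card_eq_one.1 u1'
  have w3 : α = 3 ∧ β = 1 := by omega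
  have w3' : α' = 3 ∧ β' = 1 := by omega
  have hX : X r v b' = X r v b := by
    ext g
    have r1 := B.rel g
    have r2 := B'.rel g
    rw [w3.1, w3.2, Finset.sum_singleton] at r1
    rw [w3'.1, w3'.2, Finset.sum_singleton] at r2
    push_cast at r1 r2
    omega
  have hb := h.inj (B'.blk.mem b' (Finset.mem_singleton_self b'))
    (B.blk.mem b (Finset.mem_singleton_self b)) hX
  exact (hno b' (Finset.mem_singleton_self b')).1 (by rw [hb]; exact Finset.mem_singleton_self b)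

end Pool.Agent.Lib.MP81632f.Mk.P
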